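import Mathlib

open Finset Real

namespace Pool.Agent.Lib.MP_1fcdcf_an

/-- The coefficients of `(1 - u) ^ (-s)`. -/
noncomputable def ac (s : ℝ) : ℕ → ℝ
  | 0 => 1
  | (k + 1) => ac s k * (k + s) / (k + 1)

lemma ac_zero (s : ℝ) : ac s 0 = 1 := rfl

lemma ac_succ (s : ℝ) (k : ℕ) : ac s (k + 1) = ac s k * (k + s) / (k + 1) := rfl

lemma ac_pos {s : ℝ} (hs : 0 < s) (k : ℕ) : 0 < ac s k := by
  induction k with
  | zero => simp [ac_zero]
  | succ k ih => rw [ac_succ]; positivity

lemma ac_nonneg {s : ℝ} (hs : 0 < s) (k : ℕ) : 0 ≤ ac s k := (ac_pos hs k).le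

lemma ac_succ' (s : ℝ) (k : ℕ) : ac s (k + 1) = s / (k + 1) * ac (s + 1) k := by
  induction k with
  | zero => simp [ac_succ, ac_zero]
  | succ k ih =>
    rw [ac_succ, ih, ac_succ]
    have h1 : (k : ℝ) + 1 ≠ 0 := by positivity
    have h2 : (k : ℝ) + 1 + 1 ≠ 0 := by positivity
    push_cast
    field_simp
    ring

lemma sum_ac (s : ℝ) (k : ℕ) : ∑ j ∈ range (k + 1), ac s j = ac (s + 1) k := by
  induction k with
  | zero => simp [ac_zero]
  | succ k ih =>
    rw [sum_range_succ, ih, ac_succ', ac_succ]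
    have h1 : (k : ℝ) + 1 ≠ 0 := by positivity
    field_simp
    ring

/-- the ratio bound -/
lemma ac_add_le {s : ℝ} (hs : 0 < s) (k n : ℕ) :
    ac (s + 1) (k + n) ≤ ac (s + 1) k * exp (s * n / (k + 1)) := by
  induction n with
  | zero => simp
  | succ n ih =>
    rw [← add_assoc, ac_succ]
    have h1 : 0 < ac (s + 1) k := ac_pos (by linarith) k
    have h2 : ((k + n : ℕ) : ℝ) + (s + 1) ≤ ((k + n : ℕ) + 1) * exp (s / (k + 1)) := by
      have h3 : 1 + s / (k + n + 1) ≤ exp (s / (k + 1)) := by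
        calc 1 + s / (k + n + 1) ≤ 1 + s / (k + 1) := by gcongr; linarith [Nat.cast_nonneg (α := ℝ) n]
          _ ≤ exp (s / (k + 1)) := by linarith [add_one_le_exp (s / ((k : ℝ) + 1))]
      calc ((k + n : ℕ) : ℝ) + (s + 1) = ((k + n : ℕ) + 1) * (1 + s / (k + n + 1)) := by
            push_cast
            field_simp
            ring
        _ ≤ _ := by gcongr
    rw [mul_div_assoc]
    calc ac (s + 1) (k + n) * ((((k + n : ℕ) : ℝ) + (s + 1)) / ((k + n : ℕ) + 1))
        ≤ (ac (s + 1) k * exp (s * n / (k + 1))) * exp (s / (k + 1)) := by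
          gcongr
          rw [div_le_iff₀ (by positivity), mul_comm]
          exact h2
      _ = _ := by
          rw [mul_assoc, ← exp_add]
          congr 2
          push_cast
          ring

lemma ac_add_le' {s : ℝ} (hs : 0 < s) (k n : ℕ) :
    ac s (k + n) ≤ ac s k * exp (s * n / (k + 1)) := by
  induction n with
  | zero => simp
  | succ n ih =>
    rw [← add_assoc, ac_succ]
    have h1 : 0 < ac s k := ac_pos hs k
    have h2 : ((k + n : ℕ) : ℝ) + s ≤ ((k + n : ℕ) + 1) * exp (s / (k + 1)) := by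
      have h3 : 1 + s / (k + n + 1) ≤ exp (s / (k + 1)) := by
        calc 1 + s / (k + n + 1) ≤ 1 + s / (k + 1) := by gcongr; linarith [Nat.cast_nonneg (α := ℝ) n]
          _ ≤ exp (s / (k + 1)) := by linarith [add_one_le_exp (s / ((k : ℝ) + 1))]
      calc ((k + n : ℕ) : ℝ) + s ≤ ((k + n : ℕ) + 1) * (1 + s / (k + n + 1)) := by
            push_cast
            field_simp
            linarith
        _ ≤ _ := by gcongr
    rw [mul_div_assoc]
    calc ac s (k + n) * ((((k + n : ℕ) : ℝ) + s) / ((k + n : ℕ) + 1))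
        ≤ (ac s k * exp (s * n / (k + 1))) * exp (s / (k + 1)) := by
          gcongr
          rw [div_le_iff₀ (by positivity), mul_comm]
          exact h2
      _ = _ := by
          rw [mul_assoc, ← exp_add]
          congr 2
          push_cast
          ring

lemma ac_le_harmonic {s : ℝ} (hs : 0 < s) (k : ℕ) :
    ac (s + 1) k ≤ exp (s * (harmonic k : ℝ)) := by
  induction k with
  | zero => simp [ac_zero]
  | succ k ih =>
    rw [ac_succ, harmonic_succ, mul_div_assoc]
    push_cast
    rw [mul_add, exp_add]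
    gcongr
    have h3 : 1 + s / (k + 1) ≤ exp (s / (k + 1)) := by
      linarith [add_one_le_exp (s / ((k : ℝ) + 1))]
    calc ((k : ℝ) + (s + 1)) / (k + 1) = 1 + s / (k + 1) := by field_simp; ring
      _ ≤ exp (s / (k + 1)) := h3
      _ = _ := by rw [div_eq_mul_inv]

lemma ac_le_rpow {s : ℝ} (hs : 0 < s) (k : ℕ) :
    ac (s + 1) k ≤ exp s * ((k : ℝ) + 1) ^ s := by
  rcases Nat.eq_zero_or_pos k with rfl | hk
  · simp only [ac_zero, CharP.cast_eq_zero, zero_add, one_rpow, mul_one]
    exact one_le_exp hs.le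
  · refine (ac_le_harmonic hs k).trans ?_
    have h1 := harmonic_le_one_add_log k
    have hk' : (0 : ℝ) < k := by exact_mod_cast hk
    calc exp (s * (harmonic k : ℝ)) ≤ exp (s * (1 + log k)) := by gcongr
      _ = exp s * (k : ℝ) ^ s := by
          rw [rpow_def_of_pos hk', ← exp_add]
          congr 1
          ring
      _ ≤ _ := by gcongr; linarith

lemma ac_le_rpow' {s : ℝ} (hs : 0 < s) (k : ℕ) :
    ac s (k + 1) ≤ s * exp s * ((k : ℝ) + 1) ^ (s - 1) := by
  rw [ac_succ']
  have h := ac_le_rpow hs k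
  have hk : (0 : ℝ) < (k : ℝ) + 1 := by positivity
  calc s / (k + 1) * ac (s + 1) k ≤ s / (k + 1) * (exp s * ((k : ℝ) + 1) ^ s) := by gcongr
    _ = _ := by rw [rpow_sub_one hk.ne']; ring

lemma factorial_mul_ac (s : ℝ) (k : ℕ) :
    (k.factorial : ℝ) * ac s k = (ascPochhammer ℝ k).eval s := by
  induction k with
  | zero => simp [ac_zero]
  | succ k ih =>
    rw [ascPochhammer_succ_eval, ← ih, ac_succ, Nat.factorial_succ]
    push_cast
    field_simp
    ring

lemma ac_eq_choose (s : ℝ) (k : ℕ) : Ring.choose (s + k - 1) k = ac s k := by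
  rw [← Ring.multichoose_eq]
  have h1 := Ring.factorial_nsmul_multichoose_eq_ascPochhammer s k
  rw [Polynomial.ascPochhammer_smeval_eq_eval, ← factorial_mul_ac, nsmul_eq_mul] at h1
  exact mul_left_cancel₀ (by positivity) h1

/-- binomial series -/
lemma hasSum_ac (s : ℝ) {u : ℝ} (hu0 : 0 ≤ u) (hu : u < 1) :
    HasSum (fun k => ac s k * u ^ k) ((1 - u) ^ (-s)) := by
  have h := (Real.one_div_one_sub_rpow_hasFPowerSeriesOnBall_zero s).hasSum (y := u) (by
    simp [enorm_eq_nnnorm, ← NNReal.coe_lt_coe, abs_of_nonneg hu0, hu])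
  simp only [zero_add, FormalMultilinearSeries.ofScalars_apply_eq, smul_eq_mul, ac_eq_choose] at h
  rwa [rpow_neg (by linarith), ← one_div]

lemma ac_mono {s : ℝ} (hs : 1 ≤ s) : Monotone (ac s) := by
  refine monotone_nat_of_le_succ fun k => ?_
  rw [ac_succ, mul_div_assoc]
  have h := ac_pos (by linarith : 0 < s) k
  refine le_mul_of_one_le_right h.le ?_
  rw [one_le_div (by positivity)]
  linarith

lemma ac_anti {s : ℝ} (hs0 : 0 < s) (hs : s ≤ 1) : Antitone (ac s) := by
  refine antitone_nat_of_succ_le fun k => ?_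
  rw [ac_succ, mul_div_assoc]
  have h := ac_pos hs0 k
  refine mul_le_of_le_one_right h.le ?_
  rw [div_le_one (by positivity)]
  linarith

lemma sum_ac_div {s : ℝ} (hs : 0 < s) (k : ℕ) :
    ∑ j ∈ range k, ac s j / (k - j) = ac s k * ∑ j ∈ range k, 1 / (s + j) := by
  induction k with
  | zero => simp
  | succ k ih =>
    have key : ((k : ℝ) + 1) * ∑ j ∈ range (k + 1), ac s j / ((k + 1 : ℕ) - j) =
        ac s k + (k + s) * ∑ j ∈ range k, ac s j / (k - j) := by
      have e1 : ((k : ℝ) + 1) * ∑ j ∈ range (k + 1), ac s j / ((k + 1 : ℕ) - j) =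
          ∑ j ∈ range (k + 1), ac s j + ∑ j ∈ range (k + 1), ac s j * j / ((k + 1 : ℕ) - j) := by
        rw [mul_sum, ← sum_add_distrib]
        refine sum_congr rfl fun j hj => ?_
        have hj' : (j : ℝ) < k + 1 := by exact_mod_cast mem_range.1 hj
        have : ((k + 1 : ℕ) : ℝ) - j ≠ 0 := by push_cast; linarith
        field_simp
        push_cast
        ring
      have e2 : ∑ j ∈ range (k + 1), ac s j * j / ((k + 1 : ℕ) - j) =
          ∑ j ∈ range k, ac s j * (j + s) / (k - j) := by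
        rw [sum_range_succ']
        simp only [CharP.cast_eq_zero, mul_zero, zero_div, add_zero]
        refine sum_congr rfl fun j hj => ?_
        rw [ac_succ]
        have hj' : (j : ℝ) < k := by exact_mod_cast mem_range.1 hj
        have : (k : ℝ) - j ≠ 0 := by linarith
        push_cast
        rw [show ((k : ℝ) + 1 - (j + 1)) = k - j by ring]
        field_simp
      have e3 : ∑ j ∈ range k, ac s j * (j + s) / (k - j) =
          (k + s) * ∑ j ∈ range k, ac s j / (k - j) - ∑ j ∈ range k, ac s j := by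
        rw [mul_sum, ← sum_sub_distrib]
        refine sum_congr rfl fun j hj => ?_
        have hj' : (j : ℝ) < k := by exact_mod_cast mem_range.1 hj
        have : (k : ℝ) - j ≠ 0 := by linarith
        field_simp
        ring
      rw [e1, e2, e3, sum_range_succ]
      ring
    have hk : (k : ℝ) + 1 ≠ 0 := by positivity
    have hk2 : s + (k : ℝ) ≠ 0 := by positivity
    rw [← mul_right_inj' hk, key, ih, sum_range_succ, ac_succ]
    field_simp
    ring

/-- the window inequality -/
lemma window {s : ℝ} (hs : 0 < s) (F : Finset ℕ) (hF : ∀ n ∈ F, 1 ≤ n) (k : ℕ) :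
    ∑ n ∈ F.filter (· ≤ k), ac s (k - n) / n ≤ ac s k * (1 / s + ∑ n ∈ F, 1 / (n : ℝ)) := by
  have ha := ac_pos hs k
  have hpos : ∀ n : ℕ, 0 ≤ 1 / (n : ℝ) := fun n => by positivity
  rcases le_total 1 s with h1 | h1
  · calc ∑ n ∈ F.filter (· ≤ k), ac s (k - n) / n ≤ ∑ n ∈ F.filter (· ≤ k), ac s k * (1 / n) := by
          refine sum_le_sum fun n hn => ?_
          rw [div_eq_mul_one_div]
          exact mul_le_mul_of_nonneg_right (ac_mono h1 (Nat.sub_le _ _)) (hpos n)
      _ ≤ ∑ n ∈ F, ac s k * (1 / n) :=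
          sum_le_sum_of_subset_of_nonneg (filter_subset _ _)
            fun n _ _ => mul_nonneg ha.le (hpos n)
      _ = ac s k * ∑ n ∈ F, 1 / (n : ℝ) := by rw [mul_sum]
      _ ≤ _ := by
          refine mul_le_mul_of_nonneg_left ?_ ha.le
          have : 0 < 1 / s := by positivity
          linarith
  · set G := Finset.Icc 1 k with hG
    have hsub : F.filter (· ≤ k) ⊆ G := by
      intro n hn
      rw [mem_filter] at hn
      exact mem_Icc.2 ⟨hF n hn.1, hn.2⟩
    have e1 : ∑ n ∈ G, ac s (k - n) / n = ac s k * ∑ j ∈ range k, 1 / (s + j) := by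
      rw [← sum_ac_div hs]
      refine sum_bij' (fun n _ => k - n) (fun j _ => k - j) ?_ ?_ ?_ ?_ ?_
      · intro n hn
        rw [mem_Icc] at hn
        rw [mem_range]
        omega
      · intro j hj
        rw [mem_range] at hj
        rw [mem_Icc]
        omega
      · intro n hn
        rw [mem_Icc] at hn
        show k - (k - n) = n
        omega
      · intro n hn
        rw [mem_range] at hn
        show k - (k - n) = n
        omega
      · intro n hn
        rw [mem_Icc] at hn
        rw [Nat.cast_sub hn.2]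
        congr 1
        ring
    have e2 : ∑ j ∈ range k, 1 / (s + j) ≤ 1 / s + ∑ n ∈ G, 1 / (n : ℝ) := by
      rcases Nat.eq_zero_or_pos k with rfl | hk
      · simp [hG]
        exact hs.le
      · obtain ⟨m, rfl⟩ : ∃ m, k = m + 1 := ⟨k - 1, by omega⟩
        rw [sum_range_succ']
        have e3 : ∑ j ∈ range m, 1 / (s + ((j + 1 : ℕ) : ℝ)) ≤ ∑ n ∈ G, 1 / (n : ℝ) := by
          calc ∑ j ∈ range m, 1 / (s + ((j + 1 : ℕ) : ℝ)) ≤ ∑ j ∈ range m, 1 / ((j + 1 : ℕ) : ℝ) := by
                refine sum_le_sum fun j _ => ?_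
                apply one_div_le_one_div_of_le (by positivity)
                linarith
            _ ≤ ∑ j ∈ range (m + 1), 1 / ((j + 1 : ℕ) : ℝ) := by
                refine sum_le_sum_of_subset_of_nonneg (range_mono (Nat.le_succ m)) fun j _ _ => ?_
                positivity
            _ = ∑ n ∈ G, 1 / (n : ℝ) := by
                rw [hG, range_eq_Ico, Finset.sum_Ico_add' (fun n : ℕ => 1 / (n : ℝ)) 0 (m + 1) 1]
                rfl
        simp only [CharP.cast_eq_zero, add_zero]
        linarith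
    have e4 : ∑ n ∈ G, ac s (k - n) / n = ∑ n ∈ F.filter (· ≤ k), ac s (k - n) / n +
        ∑ n ∈ G \ F.filter (· ≤ k), ac s (k - n) / n := by
      rw [add_comm, sum_sdiff hsub]
    have e5 : ∑ n ∈ G, 1 / (n : ℝ) = ∑ n ∈ F.filter (· ≤ k), 1 / (n : ℝ) +
        ∑ n ∈ G \ F.filter (· ≤ k), 1 / (n : ℝ) := by
      rw [add_comm, sum_sdiff hsub]
    have e6 : ac s k * ∑ n ∈ G \ F.filter (· ≤ k), 1 / (n : ℝ) ≤
        ∑ n ∈ G \ F.filter (· ≤ k), ac s (k - n) / n := by
      rw [mul_sum]
      refine sum_le_sum fun n _ => ?_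
      rw [div_eq_mul_one_div (ac s (k - n))]
      exact mul_le_mul_of_nonneg_right (ac_anti hs h1 (Nat.sub_le _ _)) (hpos n)
    have e7 : ∑ n ∈ F.filter (· ≤ k), 1 / (n : ℝ) ≤ ∑ n ∈ F, 1 / (n : ℝ) :=
      sum_le_sum_of_subset_of_nonneg (filter_subset _ _) fun n _ _ => hpos n
    have e8 := mul_le_mul_of_nonneg_left e2 ha.le
    have e9 := mul_le_mul_of_nonneg_left e7 ha.le
    rw [e5] at e8
    rw [e4] at e1
    nlinarith

end Pool.Agent.Lib.MP_1fcdcf_an
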