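import Mathlib

open MeasureTheory Metric Set Module
open scoped ENNReal NNReal Pointwise

namespace Pool.Agent.Lib.MP_1fcdcf_an

/-- The Euclidean space of dimension `d + 1`. -/
abbrev EE (d : ℕ) := EuclideanSpace ℝ (Fin (d + 1))

/-- The unit sphere. -/
abbrev SS (d : ℕ) := Metric.sphere (0 : EE d) 1

/-- Normalised surface measure. -/
noncomputable def sig (d : ℕ) : Measure (SS d) :=
  ((volume : Measure (EE d)).toSphere univ)⁻¹ • (volume : Measure (EE d)).toSphere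

lemma toSphere_univ_pos (d : ℕ) : (volume : Measure (EE d)).toSphere univ ≠ 0 := by
  rw [Measure.measure_univ_ne_zero]
  exact Measure.toSphere_ne_zero _

lemma toSphere_univ_ne_top (d : ℕ) : (volume : Measure (EE d)).toSphere univ ≠ ⊤ :=
  measure_ne_top _ _

instance (d : ℕ) : IsProbabilityMeasure (sig d) where
  measure_univ := by
    rw [sig, Measure.smul_apply, smul_eq_mul,
      ENNReal.inv_mul_cancel (toSphere_univ_pos d) (toSphere_univ_ne_top d)]

instance (d : ℕ) : (sig d).IsOpenPosMeasure where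
  open_pos U hU hne := by
    rw [sig, Measure.smul_apply, smul_eq_mul]
    refine mul_ne_zero (ENNReal.inv_ne_zero.2 (toSphere_univ_ne_top d)) ?_
    exact hU.measure_ne_zero _ hne

/-- The set of points `r x`, `x ∈ A`, `0 < r < 1`. -/
def cone {d : ℕ} (A : Set (SS d)) : Set (EE d) := Ioo (0 : ℝ) 1 • ((↑) '' A)

lemma mem_cone {d : ℕ} {A : Set (SS d)} {z : EE d} :
    z ∈ cone A ↔ ∃ r ∈ Ioo (0 : ℝ) 1, ∃ x ∈ A, z = r • (x : EE d) := by
  rw [cone, Set.mem_smul]
  constructor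
  · rintro ⟨r, hr, y, ⟨x, hx, rfl⟩, rfl⟩
    exact ⟨r, hr, x, hx, rfl⟩
  · rintro ⟨r, hr, x, hx, rfl⟩
    exact ⟨r, hr, x, ⟨x, hx, rfl⟩, rfl⟩

/-- The normalisation constant. -/
noncomputable def cst (d : ℕ) : ℝ≥0∞ :=
  ((volume : Measure (EE d)).toSphere univ)⁻¹ * (d + 1 : ℕ)

lemma cst_ne_zero (d : ℕ) : cst d ≠ 0 := by
  refine mul_ne_zero (ENNReal.inv_ne_zero.2 (toSphere_univ_ne_top d)) ?_
  simp

lemma cst_ne_top (d : ℕ) : cst d ≠ ⊤ :=
  ENNReal.mul_ne_top (ENNReal.inv_ne_top.2 (toSphere_univ_pos d)) (ENNReal.natCast_ne_top _)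

lemma sig_apply {d : ℕ} {A : Set (SS d)} (hA : MeasurableSet A) :
    sig d A = cst d * volume (cone A) := by
  rw [sig, Measure.smul_apply, Measure.toSphere_apply' _ hA, smul_eq_mul, cst, cone, mul_assoc]
  simp

/-- The action of a linear isometry on the sphere. -/
noncomputable def rot {d : ℕ} (g : EE d ≃ₗᵢ[ℝ] EE d) (x : SS d) : SS d :=
  ⟨g x, by simp⟩

@[simp] lemma coe_rot {d : ℕ} (g : EE d ≃ₗᵢ[ℝ] EE d) (x : SS d) : ((rot g x : SS d) : EE d) = g x :=
  rfl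

lemma continuous_rot {d : ℕ} (g : EE d ≃ₗᵢ[ℝ] EE d) : Continuous (rot g) :=
  (g.continuous.comp continuous_subtype_val).subtype_mk _

lemma measurable_rot {d : ℕ} (g : EE d ≃ₗᵢ[ℝ] EE d) : Measurable (rot g) :=
  (continuous_rot g).measurable

lemma rot_symm_rot {d : ℕ} (g : EE d ≃ₗᵢ[ℝ] EE d) (x : SS d) : rot g.symm (rot g x) = x := by
  ext1
  simp

lemma rot_rot_symm {d : ℕ} (g : EE d ≃ₗᵢ[ℝ] EE d) (x : SS d) : rot g (rot g.symm x) = x := by
  ext1
  simp

lemma measurePreserving_rot {d : ℕ} (g : EE d ≃ₗᵢ[ℝ] EE d) :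
    MeasurePreserving (rot g) (sig d) (sig d) := by
  refine ⟨measurable_rot g, ?_⟩
  ext A hA
  rw [Measure.map_apply (measurable_rot g) hA, sig_apply hA, sig_apply (measurable_rot g hA)]
  congr 1
  have : cone (rot g ⁻¹' A) = g ⁻¹' cone A := by
    ext z
    simp only [mem_preimage, mem_cone]
    constructor
    · rintro ⟨r, hr, x, hx, rfl⟩
      exact ⟨r, hr, rot g x, hx, by simp⟩
    · rintro ⟨r, hr, x, hx, hz⟩
      refine ⟨r, hr, rot g.symm x, ?_, ?_⟩
      · rw [rot_rot_symm]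
        exact hx
      · rw [coe_rot, ← map_smul, ← hz]
        simp
  rw [this]
  exact g.measurePreserving.measure_preimage_equiv (f := g.toHomeomorph.toMeasurableEquiv) _

/-- Transitivity of the action. -/
lemma exists_rot_eq {d : ℕ} (x y : SS d) : ∃ g : EE d ≃ₗᵢ[ℝ] EE d, rot g x = y := by
  refine ⟨(ℝ ∙ ((x : EE d) - y))ᗮ.reflection, ?_⟩
  ext1
  rw [coe_rot]
  exact Submodule.reflection_sub (by simp)

lemma dist_rot {d : ℕ} (g : EE d ≃ₗᵢ[ℝ] EE d) (x y : SS d) : dist (rot g x) (rot g y) = dist x y := by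
  rw [Subtype.dist_eq, Subtype.dist_eq, coe_rot, coe_rot, g.dist_map]

lemma edist_rot {d : ℕ} (g : EE d ≃ₗᵢ[ℝ] EE d) (x y : SS d) :
    edist (rot g x) (rot g y) = edist x y := by
  rw [edist_dist, edist_dist, dist_rot]

end Pool.Agent.Lib.MP_1fcdcf_an
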