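import Mathlib
import Pool.Agent.Lib.MP_1fcdcf_an.Series
import Pool.Agent.Lib.MP_1fcdcf_an.Sphere

open MeasureTheory Metric Set Module
open scoped ENNReal NNReal Pointwise RealInnerProductSpace

namespace Pool.Agent.Lib.MP_1fcdcf_an

/-- The base point of the sphere. -/
noncomputable def e0 (d : ℕ) : SS d := ⟨EuclideanSpace.single 0 1, by simp⟩

lemma coe_e0 (d : ℕ) : ((e0 d : SS d) : EE d) = EuclideanSpace.single 0 1 := rfl

/-- The space of oriented hyperplanes (all pairs `(w, t)`, for the plane `⟪w, x⟫ = t`). -/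
abbrev HH (d : ℕ) := SS d × ℝ

/-- The uniform distribution on `[-2, 2]`. -/
noncomputable def unif : Measure ℝ := (4 : ℝ≥0∞)⁻¹ • volume.restrict (Icc (-2) 2)

instance : IsProbabilityMeasure unif where
  measure_univ := by
    rw [unif, Measure.smul_apply, Measure.restrict_apply_univ, Real.volume_Icc, smul_eq_mul]
    norm_num
    exact ENNReal.inv_mul_cancel (by norm_num) (by norm_num)

/-- The distribution of a random hyperplane. -/
noncomputable def piH (d : ℕ) : Measure (HH d) := (sig d).prod unif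

instance (d : ℕ) : IsProbabilityMeasure (piH d) := by
  unfold piH
  infer_instance

/-- The side of the hyperplane on which `x` lies. -/
noncomputable def side {d : ℕ} (h : HH d) (x : EE d) : Bool := decide (⟪(h.1 : EE d), x⟫ < h.2)

lemma side_eq_iff {d : ℕ} (h : HH d) (x y : EE d) :
    side h x = side h y ↔ (⟪(h.1 : EE d), x⟫ < h.2 ↔ ⟪(h.1 : EE d), y⟫ < h.2) := by
  simp [side]

/-- mean of `|⟪w, v⟫| / 4` -/
noncomputable def gamE (d : ℕ) : ℝ≥0∞ :=
  (∫⁻ w : SS d, ENNReal.ofReal |⟪(w : EE d), (e0 d : EE d)⟫| ∂(sig d)) / 4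

lemma measurable_abs_inner {d : ℕ} (v : EE d) :
    Measurable fun w : SS d => ENNReal.ofReal |⟪(w : EE d), v⟫| := by
  apply ENNReal.measurable_ofReal.comp
  apply Continuous.measurable
  fun_prop

lemma lintegral_abs_inner {d : ℕ} (v : SS d) :
    ∫⁻ w : SS d, ENNReal.ofReal |⟪(w : EE d), (v : EE d)⟫| ∂(sig d) =
      ∫⁻ w : SS d, ENNReal.ofReal |⟪(w : EE d), (e0 d : EE d)⟫| ∂(sig d) := by
  obtain ⟨g, hg⟩ := exists_rot_eq (e0 d) v
  rw [← (measurePreserving_rot g).lintegral_comp (measurable_abs_inner (v : EE d))]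
  refine lintegral_congr fun w => ?_
  rw [← hg, coe_rot, coe_rot, g.inner_map_map]

lemma lintegral_abs_inner' {d : ℕ} (v : EE d) :
    ∫⁻ w : SS d, ENNReal.ofReal |⟪(w : EE d), v⟫| ∂(sig d) = ENNReal.ofReal ‖v‖ * (4 * gamE d) := by
  have h4 : 4 * gamE d = ∫⁻ w : SS d, ENNReal.ofReal |⟪(w : EE d), (e0 d : EE d)⟫| ∂(sig d) := by
    rw [gamE, ENNReal.mul_div_cancel (by norm_num) (by norm_num)]
  rcases eq_or_ne v 0 with rfl | hv
  · simp
  · have hv' : 0 < ‖v‖ := norm_pos_iff.2 hv
    let v1 : SS d := ⟨‖v‖⁻¹ • v, by simp [norm_smul, hv'.ne']⟩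
    rw [h4, ← lintegral_abs_inner v1, ← lintegral_const_mul _ (measurable_abs_inner _)]
    refine lintegral_congr fun w => ?_
    rw [← ENNReal.ofReal_mul (norm_nonneg _)]
    congr 1
    show |⟪(w : EE d), v⟫| = ‖v‖ * |⟪(w : EE d), ‖v‖⁻¹ • v⟫|
    rw [inner_smul_right, abs_mul, abs_of_pos (inv_pos.2 hv'), ← mul_assoc,
      mul_inv_cancel₀ hv'.ne', one_mul]

lemma gamE_le (d : ℕ) : gamE d ≤ 4⁻¹ := by
  rw [gamE, ENNReal.div_eq_inv_mul]
  calc 4⁻¹ * ∫⁻ w : SS d, ENNReal.ofReal |⟪(w : EE d), (e0 d : EE d)⟫| ∂(sig d)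
      ≤ 4⁻¹ * ∫⁻ w : SS d, 1 ∂(sig d) := by
        gcongr with w
        rw [ENNReal.ofReal_le_one]
        refine (abs_real_inner_le_norm _ _).trans ?_
        simp
    _ = 4⁻¹ := by simp

lemma gamE_ne_top (d : ℕ) : gamE d ≠ ⊤ :=
  ne_top_of_le_ne_top (by norm_num) (gamE_le d)

lemma gamE_ne_zero (d : ℕ) : gamE d ≠ 0 := by
  intro h
  rw [gamE, ENNReal.div_eq_zero_iff] at h
  rcases h with h | h
  · rw [lintegral_eq_zero_iff (measurable_abs_inner _)] at h
    have hopen : IsOpen {w : SS d | ⟪(w : EE d), (e0 d : EE d)⟫ ≠ 0} := by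
      apply isOpen_ne_fun <;> fun_prop
    have hne : {w : SS d | ⟪(w : EE d), (e0 d : EE d)⟫ ≠ 0}.Nonempty := ⟨e0 d, by simp [coe_e0]⟩
    refine hopen.measure_ne_zero (sig d) hne ?_
    rw [Filter.EventuallyEq, ae_iff] at h
    convert h using 2
    ext w
    simp
  · norm_num at h

/-- The real number `gam`. -/
noncomputable def gam (d : ℕ) : ℝ := (gamE d).toReal

lemma ofReal_gam (d : ℕ) : ENNReal.ofReal (gam d) = gamE d := ENNReal.ofReal_toReal (gamE_ne_top d)

lemma gam_pos (d : ℕ) : 0 < gam d := ENNReal.toReal_pos (gamE_ne_zero d) (gamE_ne_top d)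

lemma gam_le (d : ℕ) : gam d ≤ 1 / 4 := by
  have h := ENNReal.toReal_mono (by norm_num) (gamE_le d)
  rw [gam]
  refine h.trans ?_
  norm_num

lemma measurable_inner_prod {d : ℕ} (x : EE d) :
    Measurable fun h : HH d => ⟪(h.1 : EE d), x⟫ := by
  apply Continuous.measurable
  fun_prop

lemma measurable_side {d : ℕ} (x : EE d) : Measurable fun h : HH d => side h x := by
  have h1 : (fun h : HH d => side h x) = fun h => if ⟪(h.1 : EE d), x⟫ < h.2 then true else false := by
    ext h; simp [side]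
  rw [h1]
  exact Measurable.ite (measurableSet_lt (measurable_inner_prod x) measurable_snd)
    measurable_const measurable_const

lemma measurable_side2 (d : ℕ) : Measurable fun p : HH d × SS d => side p.1 (p.2 : EE d) := by
  have h1 : (fun p : HH d × SS d => side p.1 (p.2 : EE d)) =
      fun p => if ⟪(p.1.1 : EE d), (p.2 : EE d)⟫ < p.1.2 then true else false := by
    ext h; simp [side]
  rw [h1]
  refine Measurable.ite (measurableSet_lt ?_ (by fun_prop)) measurable_const measurable_const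
  apply Continuous.measurable
  fun_prop

/-- The probability that a random hyperplane separates two points. -/
lemma piH_side_ne {d : ℕ} {x y : EE d} (hx : ‖x‖ ≤ 2) (hy : ‖y‖ ≤ 2) :
    piH d {h | side h x ≠ side h y} = gamE d * ENNReal.ofReal ‖x - y‖ := by
  have hm : MeasurableSet {h : HH d | side h x ≠ side h y} :=
    (measurableSet_eq_fun (measurable_side x) (measurable_side y)).compl
  rw [piH, Measure.prod_apply hm]
  have key : ∀ w : SS d, unif (Prod.mk w ⁻¹' {h : HH d | side h x ≠ side h y}) =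
      4⁻¹ * ENNReal.ofReal |⟪(w : EE d), x - y⟫| := by
    intro w
    set a := ⟪(w : EE d), x⟫ with ha
    set b := ⟪(w : EE d), y⟫ with hb
    have h1 : Prod.mk w ⁻¹' {h : HH d | side h x ≠ side h y} = Ioc (min a b) (max a b) := by
      ext t
      simp only [mem_preimage, mem_ofPred_eq, ne_eq, side_eq_iff, ← ha, ← hb, mem_Ioc,
        min_lt_iff, le_max_iff]
      rcases lt_or_ge a t with h1 | h1 <;> rcases lt_or_ge b t with h2 | h2
      · simp [h1, h2]
      · simp [h1, h2, not_lt.2 h2]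
      · simp [h1, h2, not_lt.2 h1]
      · simp [not_lt.2 h1, not_lt.2 h2]
    have ha2 : |a| ≤ 2 := (abs_real_inner_le_norm _ _).trans (by simp [hx])
    have hb2 : |b| ≤ 2 := (abs_real_inner_le_norm _ _).trans (by simp [hy])
    rw [h1, unif, Measure.smul_apply, smul_eq_mul, Measure.restrict_apply measurableSet_Ioc]
    have h2 : Ioc (min a b) (max a b) ∩ Icc (-2) 2 = Ioc (min a b) (max a b) := by
      rw [inter_eq_left]
      intro t ht
      rw [abs_le] at ha2 hb2
      constructor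
      · exact (le_min ha2.1 hb2.1).trans ht.1.le
      · exact ht.2.trans (max_le ha2.2 hb2.2)
    rw [h2, Real.volume_Ioc, max_sub_min_eq_abs, inner_sub_right, abs_sub_comm]
  simp_rw [key]
  rw [lintegral_const_mul _ (measurable_abs_inner _), lintegral_abs_inner', mul_left_comm,
    ← mul_assoc 4⁻¹, ENNReal.inv_mul_cancel (by norm_num) (by norm_num), one_mul, mul_comm]

/-- The function `u`. -/
noncomputable def uu {d : ℕ} (x y : SS d) : ℝ≥0∞ := ENNReal.ofReal (1 - gam d * dist x y)

lemma dist_le_two {d : ℕ} (x y : SS d) : dist x y ≤ 2 := by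
  rw [Subtype.dist_eq]
  calc dist (x : EE d) y ≤ dist (x : EE d) 0 + dist 0 (y : EE d) := dist_triangle _ _ _
    _ ≤ 2 := by simp; norm_num

lemma gam_mul_dist_le {d : ℕ} (x y : SS d) : gam d * dist x y ≤ 1 / 2 := by
  have h1 := gam_le d
  have h2 := dist_le_two x y
  have h3 := gam_pos d
  have h4 : 0 ≤ dist x y := dist_nonneg
  nlinarith

lemma uu_le_one {d : ℕ} (x y : SS d) : uu x y ≤ 1 := by
  rw [uu, ENNReal.ofReal_le_one]
  have := gam_pos d
  have h4 : 0 ≤ dist x y := dist_nonneg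
  nlinarith

lemma uu_comm {d : ℕ} (x y : SS d) : uu x y = uu y x := by rw [uu, uu, dist_comm]

lemma uu_self {d : ℕ} (x : SS d) : uu x x = 1 := by simp [uu]

lemma uu_ne_top {d : ℕ} (x y : SS d) : uu x y ≠ ⊤ := ENNReal.ofReal_ne_top

lemma measurable_uu (d : ℕ) : Measurable fun p : SS d × SS d => uu p.1 p.2 := by
  unfold uu
  apply ENNReal.measurable_ofReal.comp
  apply Continuous.measurable
  fun_prop

lemma piH_side_eq {d : ℕ} (x y : SS d) :
    piH d {h | side h (x : EE d) = side h (y : EE d)} = uu x y := by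
  have hm : MeasurableSet {h : HH d | side h (x : EE d) ≠ side h (y : EE d)} :=
    (measurableSet_eq_fun (measurable_side _) (measurable_side _)).compl
  have h1 : {h : HH d | side h (x : EE d) = side h (y : EE d)} =
      {h : HH d | side h (x : EE d) ≠ side h (y : EE d)}ᶜ := by
    ext h; simp
  rw [h1, prob_compl_eq_one_sub hm, piH_side_ne (by simp) (by simp), uu,
    ENNReal.ofReal_sub _ (mul_nonneg (gam_pos d).le dist_nonneg),
    ENNReal.ofReal_mul (gam_pos d).le, ofReal_gam, ENNReal.ofReal_one, Subtype.dist_eq,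
    dist_eq_norm]

end Pool.Agent.Lib.MP_1fcdcf_an
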