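import Mathlib
import Pool.Agent.Lib.MP_1fcdcf_an.Cells

open MeasureTheory Metric Set Module
open scoped ENNReal NNReal Pointwise RealInnerProductSpace

namespace Pool.Agent.Lib.MP_1fcdcf_an

/-- The Riesz kernel, infinite on the diagonal. -/
noncomputable def KK (s : ℝ) {d : ℕ} (x y : SS d) : ℝ≥0∞ := (edist x y) ^ (-s)

lemma KK_comm (s : ℝ) {d : ℕ} (x y : SS d) : KK s x y = KK s y x := by
  rw [KK, KK, edist_comm]

lemma measurable_KK (s : ℝ) (d : ℕ) : Measurable fun p : SS d × SS d => KK s p.1 p.2 := by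
  unfold KK
  apply Measurable.pow_const
  exact measurable_edist

lemma KK_of_ne {s : ℝ} {d : ℕ} {x y : SS d} (h : x ≠ y) :
    KK s x y = ENNReal.ofReal (dist x y ^ (-s)) := by
  rw [KK, edist_dist, ENNReal.ofReal_rpow_of_pos (dist_pos.2 h)]

lemma KK_self {s : ℝ} (hs : 0 < s) {d : ℕ} (x : SS d) : KK s x x = ⊤ := by
  rw [KK, edist_self, ENNReal.zero_rpow_of_neg (by linarith)]

/-- The coefficients as extended nonnegative reals. -/
noncomputable def acE (s : ℝ) (k : ℕ) : ℝ≥0∞ := ENNReal.ofReal (ac s k)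

lemma acE_ne_top (s : ℝ) (k : ℕ) : acE s k ≠ ⊤ := ENNReal.ofReal_ne_top

lemma tsum_acE {s : ℝ} (hs : 0 < s) {u : ℝ} (hu0 : 0 ≤ u) (hu : u < 1) :
    ∑' k, acE s k * ENNReal.ofReal u ^ k = ENNReal.ofReal ((1 - u) ^ (-s)) := by
  have h := hasSum_ac s hu0 hu
  have h2 : ∀ k, 0 ≤ ac s k * u ^ k := fun k => mul_nonneg (ac_nonneg hs k) (pow_nonneg hu0 k)
  rw [← h.tsum_eq, ENNReal.ofReal_tsum_of_nonneg h2 h.summable]
  refine tsum_congr fun k => ?_
  rw [ENNReal.ofReal_mul (ac_nonneg hs k), ENNReal.ofReal_pow hu0, acE]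

lemma tsum_acE_one {s : ℝ} (hs : 0 < s) : ∑' k, acE s k = ⊤ := by
  rw [eq_top_iff]
  refine ENNReal.le_of_forall_nnreal_lt fun r _ => ?_
  have hr : (0 : ℝ) ≤ r := r.2
  -- choose u with (1-u)^(-s) = 1 + r
  set u : ℝ := 1 - (1 + r) ^ (-(1 / s)) with hu
  have h1 : (0 : ℝ) < (1 + r) ^ (-(1 / s)) := by positivity
  have h2 : ((1 : ℝ) + r) ^ (-(1 / s)) ≤ 1 := by
    apply Real.rpow_le_one_of_one_le_of_nonpos (by linarith)
    have : 0 < 1 / s := by positivity
    linarith
  have h3 : (1 - u) ^ (-s) = 1 + r := by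
    rw [hu, sub_sub_cancel, ← Real.rpow_mul (by linarith)]
    field_simp
    simp
  have h4 := tsum_acE hs (u := u) (by linarith) (by linarith)
  rw [h3] at h4
  calc (r : ℝ≥0∞) ≤ ENNReal.ofReal (1 + r) := by
        rw [← ENNReal.ofReal_coe_nnreal]
        exact ENNReal.ofReal_le_ofReal (by linarith)
    _ = ∑' k, acE s k * ENNReal.ofReal u ^ k := h4.symm
    _ ≤ ∑' k, acE s k := by
        refine ENNReal.tsum_le_tsum fun k => ?_
        refine mul_le_of_le_one_right zero_le (pow_le_one₀ zero_le ?_)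
        rw [ENNReal.ofReal_le_one]
        linarith

/-- The expansion of the Riesz kernel in powers of `u`. -/
lemma KK_eq {s : ℝ} (hs : 0 < s) {d : ℕ} (x y : SS d) :
    KK s x y = ENNReal.ofReal (gam d ^ s) * ∑' k, acE s k * uu x y ^ k := by
  have hg := gam_pos d
  rcases eq_or_ne x y with rfl | hxy
  · simp only [uu_self, one_pow, mul_one, tsum_acE_one hs, KK_self hs]
    rw [ENNReal.mul_top]
    simp only [ne_eq, ENNReal.ofReal_eq_zero, not_le]
    positivity
  · have hd : 0 < dist x y := dist_pos.2 hxy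
    have h1 := gam_mul_dist_le x y
    have h2 : 0 < gam d * dist x y := by positivity
    rw [KK_of_ne hxy]
    unfold uu
    rw [tsum_acE hs (by linarith) (by linarith), ← ENNReal.ofReal_mul (by positivity)]
    congr 1
    rw [sub_sub_cancel, Real.mul_rpow hg.le hd.le, ← mul_assoc, ← Real.rpow_add hg]
    simp

/-! ### Patterns and cells -/

/-- The pattern of sides of `x`. -/
noncomputable def pat {d n : ℕ} (ω : Fin n → HH d) (x : EE d) : Fin n → Bool := fun i => side (ω i) x

/-- The law of `n` independent random hyperplanes. -/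
noncomputable abbrev piHn (d n : ℕ) : Measure (Fin n → HH d) := Measure.pi fun _ => piH d

/-- The cell with pattern `ε`. -/
def cell {d n : ℕ} (ω : Fin n → HH d) (ε : Fin n → Bool) : Set (SS d) := {x | pat ω (x : EE d) = ε}

lemma mem_cell {d n : ℕ} {ω : Fin n → HH d} {ε : Fin n → Bool} {x : SS d} :
    x ∈ cell ω ε ↔ pat ω (x : EE d) = ε := Iff.rfl

lemma measurable_pat (d n : ℕ) :
    Measurable fun p : (Fin n → HH d) × SS d => pat p.1 (p.2 : EE d) := by
  rw [measurable_pi_iff]
  intro i
  have : (fun p : (Fin n → HH d) × SS d => pat p.1 (p.2 : EE d) i) =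
      (fun q : HH d × SS d => side q.1 (q.2 : EE d)) ∘ fun p => (p.1 i, p.2) := rfl
  rw [this]
  exact (measurable_side2 d).comp (by fun_prop)

lemma measurable_pat' {d n : ℕ} (ω : Fin n → HH d) : Measurable fun x : SS d => pat ω (x : EE d) :=
  (measurable_pat d n).comp measurable_prodMk_left

lemma measurable_pat'' {d n : ℕ} (x : SS d) :
    Measurable fun ω : Fin n → HH d => pat ω (x : EE d) :=
  (measurable_pat d n).comp measurable_prodMk_right

lemma measurableSet_cell {d n : ℕ} (ω : Fin n → HH d) (ε : Fin n → Bool) :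
    MeasurableSet (cell ω ε) :=
  measurable_pat' ω (measurableSet_singleton ε)

lemma measurableSet_cell2 (d n : ℕ) (ε : Fin n → Bool) :
    MeasurableSet {p : (Fin n → HH d) × SS d | p.2 ∈ cell p.1 ε} :=
  measurable_pat d n (measurableSet_singleton ε)

/-- The probability that two points lie in the same cell. -/
lemma piHn_pat_eq {d n : ℕ} (x y : SS d) :
    piHn d n {ω | pat ω (x : EE d) = pat ω (y : EE d)} = uu x y ^ n := by
  have h1 : {ω : Fin n → HH d | pat ω (x : EE d) = pat ω (y : EE d)} =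
      Set.pi univ fun _ => {h : HH d | side h (x : EE d) = side h (y : EE d)} := by
    ext ω
    simp [funext_iff, pat]
  rw [h1, Measure.pi_pi]
  simp [piH_side_eq]

/-- Averages over cells. -/
lemma lintegral_cells {d n : ℕ} (m : Measure (SS d × SS d)) [SFinite m]
    {f : SS d × SS d → ℝ≥0∞} (hf : Measurable f) :
    ∫⁻ ω, ∑ ε : Fin n → Bool, ∫⁻ p in cell ω ε ×ˢ cell ω ε, f p ∂m ∂(piHn d n) =
      ∫⁻ p, f p * uu p.1 p.2 ^ n ∂m := by
  have h1 : ∀ ω : Fin n → HH d, ∑ ε : Fin n → Bool, ∫⁻ p in cell ω ε ×ˢ cell ω ε, f p ∂m =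
      ∫⁻ p, {ω : Fin n → HH d | pat ω (p.1 : EE d) = pat ω (p.2 : EE d)}.indicator
        (fun _ => f p) ω ∂m := by
    intro ω
    have h2 : ∀ ε : Fin n → Bool, ∫⁻ p in cell ω ε ×ˢ cell ω ε, f p ∂m =
        ∫⁻ p, (cell ω ε ×ˢ cell ω ε).indicator f p ∂m := fun ε =>
      (lintegral_indicator ((measurableSet_cell ω ε).prod (measurableSet_cell ω ε)) _).symm
    simp_rw [h2]
    rw [← lintegral_finsetSum]
    · refine lintegral_congr fun p => ?_
      by_cases hp : pat ω (p.1 : EE d) = pat ω (p.2 : EE d)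
      · rw [Set.indicator_of_mem (by exact hp), Finset.sum_eq_single (pat ω (p.1 : EE d))]
        · rw [Set.indicator_of_mem]
          exact ⟨rfl, hp.symm⟩
        · intro ε _ hε
          rw [Set.indicator_of_notMem]
          rintro ⟨h, _⟩
          exact hε h.symm
        · simp
      · rw [Set.indicator_of_notMem (by exact hp), Finset.sum_eq_zero]
        intro ε _
        rw [Set.indicator_of_notMem]
        rintro ⟨h, h'⟩
        exact hp (h.trans h'.symm)
    · intro ε _
      exact hf.indicator ((measurableSet_cell ω ε).prod (measurableSet_cell ω ε))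
  simp_rw [h1]
  rw [lintegral_lintegral_swap]
  · refine lintegral_congr fun p => ?_
    rw [lintegral_indicator, lintegral_const, Measure.restrict_apply_univ, piHn_pat_eq]
    exact measurableSet_eq_fun (measurable_pat'' p.1) (measurable_pat'' p.2)
  · have hm : MeasurableSet {q : (Fin n → HH d) × (SS d × SS d) |
        pat q.1 (q.2.1 : EE d) = pat q.1 (q.2.2 : EE d)} := by
      refine measurableSet_eq_fun ?_ ?_
      · exact (measurable_pat d n).comp
          (f := fun q : (Fin n → HH d) × (SS d × SS d) => (q.1, q.2.1)) (by fun_prop)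
      · exact (measurable_pat d n).comp
          (f := fun q : (Fin n → HH d) × (SS d × SS d) => (q.1, q.2.2)) (by fun_prop)
    have : (Function.uncurry fun (ω : Fin n → HH d) (p : SS d × SS d) =>
        {ω : Fin n → HH d | pat ω (p.1 : EE d) = pat ω (p.2 : EE d)}.indicator (fun _ => f p) ω) =
        {q : (Fin n → HH d) × (SS d × SS d) |
          pat q.1 (q.2.1 : EE d) = pat q.1 (q.2.2 : EE d)}.indicator fun q => f q.2 := by
      ext q
      simp only [Function.uncurry, Set.indicator, mem_ofPred_eq]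
    rw [this]
    exact ((hf.comp measurable_snd).indicator hm).aemeasurable

end Pool.Agent.Lib.MP_1fcdcf_an
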