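import Mathlib
import Pool.Agent.Lib.MP_1fcdcf_an.Kernel

open MeasureTheory Metric Set Module
open scoped ENNReal NNReal Pointwise RealInnerProductSpace

namespace Pool.Agent.Lib.MP_1fcdcf_an

variable {d : ℕ}

/-- The part of `z` orthogonal to the base point. -/
noncomputable def tl (z : EE d) : EE d := z - z 0 • (e0 d : EE d)

lemma e0_zero (d : ℕ) : (e0 d : EE d) 0 = 1 := by simp [coe_e0]

lemma inner_e0 (z : EE d) : ⟪(e0 d : EE d), z⟫ = z 0 := by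
  rw [coe_e0, EuclideanSpace.inner_single_left]
  simp

lemma inner_e0' (z : EE d) : ⟪z, (e0 d : EE d)⟫ = z 0 := by
  rw [real_inner_comm, inner_e0]

lemma norm_e0 (d : ℕ) : ‖(e0 d : EE d)‖ = 1 := by simp

lemma norm_sq_eq (z : EE d) : ‖z‖ ^ 2 = z 0 ^ 2 + ‖tl z‖ ^ 2 := by
  have h1 : ‖tl z‖ ^ 2 = ‖z‖ ^ 2 - 2 * (z 0 * z 0) + z 0 ^ 2 := by
    rw [tl, norm_sub_sq_real, inner_smul_right, inner_e0', norm_smul, norm_e0]
    simp
  rw [h1]
  ring

lemma tl_zero (z : EE d) : tl z 0 = 0 := by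
  simp [tl, e0_zero]

lemma add_tl (z : EE d) : z 0 • (e0 d : EE d) + tl z = z := by simp [tl]

lemma norm_tl_le (z : EE d) : ‖tl z‖ ≤ ‖z‖ := by
  have h := norm_sq_eq z
  have : ‖tl z‖ ^ 2 ≤ ‖z‖ ^ 2 := by nlinarith [sq_nonneg (z 0)]
  exact (pow_le_pow_iff_left₀ (norm_nonneg _) (norm_nonneg _) two_ne_zero).1 this

lemma tl_sub (z w : EE d) : tl (z - w) = tl z - tl w := by
  simp only [tl, PiLp.sub_apply, sub_smul]
  abel

lemma tl_smul (c : ℝ) (z : EE d) : tl (c • z) = c • tl z := by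
  simp only [tl, PiLp.smul_apply, smul_eq_mul, smul_sub, smul_smul]

lemma tl_e0 (d : ℕ) : tl (e0 d : EE d) = 0 := by simp [tl, e0_zero]

/-- Contraction by `q` of the directions orthogonal to the base point. -/
noncomputable def Lq (q : ℝ) : EE d →ₗ[ℝ] EE d :=
  Matrix.toEuclideanLin (Matrix.diagonal fun i : Fin (d + 1) => if i = 0 then 1 else q⁻¹)

lemma Lq_apply (q : ℝ) (z : EE d) : Lq q z = z 0 • (e0 d : EE d) + q⁻¹ • tl z := by
  ext i
  simp only [Lq, Matrix.toLpLin_apply, Matrix.mulVec_diagonal, PiLp.add_apply,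
    PiLp.smul_apply, smul_eq_mul, tl, PiLp.sub_apply, coe_e0]
  by_cases hi : i = 0
  · subst hi; simp
  · simp [hi]

lemma Lq_zero (q : ℝ) (z : EE d) : Lq q z 0 = z 0 := by
  rw [Lq_apply]
  simp [e0_zero, tl_zero]

lemma tl_Lq (q : ℝ) (z : EE d) : tl (Lq q z) = q⁻¹ • tl z := by
  rw [tl, Lq_zero, Lq_apply]
  simp

lemma det_Lq (q : ℝ) : LinearMap.det (Lq (d := d) q) = q⁻¹ ^ d := by
  rw [Lq, Matrix.toEuclideanLin_eq_toLin_orthonormal, LinearMap.det_toLin, Matrix.det_diagonal,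
    Fin.prod_univ_succ]
  simp

lemma norm_Lq_sq (q : ℝ) (z : EE d) : ‖Lq q z‖ ^ 2 = z 0 ^ 2 + q⁻¹ ^ 2 * ‖tl z‖ ^ 2 := by
  rw [norm_sq_eq, Lq_zero, tl_Lq, norm_smul, mul_pow, Real.norm_eq_abs, sq_abs]

lemma norm_Lq_pos {q : ℝ} (hq : 0 < q) (x : SS d) : 0 < ‖Lq q (x : EE d)‖ := by
  have h1 := norm_Lq_sq q (x : EE d)
  have h2 := norm_sq_eq (x : EE d)
  have h3 : ‖(x : EE d)‖ = 1 := by simp
  rw [h3] at h2
  have h4 : 0 < ‖Lq q (x : EE d)‖ ^ 2 := by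
    rw [h1]
    have : 0 < q⁻¹ ^ 2 := by positivity
    rcases eq_or_ne ((x : EE d) 0) 0 with h5 | h5
    · rw [h5] at h2 ⊢
      have : ‖tl (x : EE d)‖ ^ 2 = 1 := by linarith
      rw [this]
      positivity
    · positivity
  refine lt_of_le_of_ne (norm_nonneg _) fun h => ?_
  rw [← h] at h4
  simp at h4

lemma norm_Lq_le {q : ℝ} (hq : 1 ≤ q) (x : SS d) : ‖Lq q (x : EE d)‖ ≤ 1 := by
  have h1 := norm_Lq_sq q (x : EE d)
  have h2 := norm_sq_eq (x : EE d)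
  have h3 : ‖(x : EE d)‖ = 1 := by simp
  rw [h3] at h2
  have h5 : q⁻¹ ^ 2 ≤ 1 := pow_le_one₀ (by positivity) (inv_le_one_of_one_le₀ hq)
  have h4 : ‖Lq q (x : EE d)‖ ^ 2 ≤ 1 ^ 2 := by
    rw [h1]
    nlinarith [sq_nonneg ‖tl (x : EE d)‖]
  exact (pow_le_pow_iff_left₀ (norm_nonneg _) zero_le_one two_ne_zero).1 h4

lemma le_norm_Lq (q : ℝ) (z : EE d) : |z 0| ≤ ‖Lq q z‖ := by
  have h1 := norm_Lq_sq q z
  have h4 : |z 0| ^ 2 ≤ ‖Lq q z‖ ^ 2 := by
    rw [h1, sq_abs]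
    have : 0 ≤ q⁻¹ ^ 2 * ‖tl z‖ ^ 2 := by positivity
    linarith
  exact (pow_le_pow_iff_left₀ (abs_nonneg _) (norm_nonneg _) two_ne_zero).1 h4

/-- The projective contraction of the sphere. -/
noncomputable def Tq (q : ℝ) (x : SS d) : SS d :=
  if h : 0 < q then ⟨‖Lq q (x : EE d)‖⁻¹ • Lq q (x : EE d), by
    rw [mem_sphere_zero_iff_norm, norm_smul, norm_inv, norm_norm,
      inv_mul_cancel₀ (norm_Lq_pos h x).ne']⟩ else x

lemma coe_Tq {q : ℝ} (hq : 0 < q) (x : SS d) :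
    ((Tq q x : SS d) : EE d) = ‖Lq q (x : EE d)‖⁻¹ • Lq q (x : EE d) := by
  rw [Tq, dif_pos hq]

lemma Tq_zero {q : ℝ} (hq : 0 < q) (x : SS d) :
    ((Tq q x : SS d) : EE d) 0 = ‖Lq q (x : EE d)‖⁻¹ * (x : EE d) 0 := by
  rw [coe_Tq hq, PiLp.smul_apply, Lq_zero, smul_eq_mul]

lemma tl_Tq {q : ℝ} (hq : 0 < q) (x : SS d) :
    tl ((Tq q x : SS d) : EE d) = (‖Lq q (x : EE d)‖⁻¹ * q⁻¹) • tl (x : EE d) := by
  rw [coe_Tq hq, tl_smul, tl_Lq, smul_smul]

lemma Tq_zero_pos {q : ℝ} (hq : 0 < q) (x : SS d) :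
    0 < ((Tq q x : SS d) : EE d) 0 ↔ 0 < (x : EE d) 0 := by
  rw [Tq_zero hq]
  have := norm_Lq_pos hq x
  constructor
  · intro h
    by_contra h2
    have := mul_nonpos_of_nonneg_of_nonpos (inv_nonneg.2 this.le) (not_lt.1 h2)
    linarith
  · intro h; positivity

lemma continuous_Tq {q : ℝ} (hq : 0 < q) : Continuous (Tq (d := d) q) := by
  rw [continuous_induced_rng]
  have h1 : Continuous fun x : SS d => Lq q (x : EE d) :=
    (LinearMap.continuous_of_finiteDimensional (Lq q)).comp continuous_subtype_val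
  have h2 : ((↑) ∘ Tq (d := d) q : SS d → EE d) =
      fun x : SS d => ‖Lq q (x : EE d)‖⁻¹ • Lq q (x : EE d) := by
    ext1 x
    exact coe_Tq hq x
  rw [h2]
  exact (h1.norm.inv₀ fun x => (norm_Lq_pos hq x).ne').smul h1

lemma measurable_Tq {q : ℝ} (hq : 0 < q) : Measurable (Tq (d := d) q) := (continuous_Tq hq).measurable

lemma Lq_Lq (q q' : ℝ) (z : EE d) : Lq q (Lq q' z) = Lq (q' * q) z := by
  rw [Lq_apply, Lq_zero, tl_Lq, Lq_apply, smul_smul]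
  congr 2
  rw [mul_inv]
  ring

lemma Tq_Tq {q q' : ℝ} (hq : 0 < q) (hq' : 0 < q') (x : SS d) :
    Tq q (Tq q' x) = Tq (q' * q) x := by
  ext1
  have h1 := norm_Lq_pos hq' x
  have h2 := norm_Lq_pos (mul_pos hq' hq) x
  rw [coe_Tq hq, coe_Tq hq', coe_Tq (mul_pos hq' hq), map_smul, Lq_Lq, norm_smul, norm_inv,
    norm_norm, smul_smul, mul_inv, inv_inv]
  congr 1
  field_simp

lemma Tq_one (x : SS d) : Tq 1 x = x := by
  ext1
  have h : Lq (d := d) 1 (x : EE d) = x := by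
    rw [Lq_apply, inv_one, one_smul, add_tl]
  rw [coe_Tq one_pos, h]
  simp

lemma Tq_inv_Tq {q : ℝ} (hq : 0 < q) (x : SS d) : Tq q⁻¹ (Tq q x) = x := by
  rw [Tq_Tq (inv_pos.2 hq) hq, mul_inv_cancel₀ hq.ne', Tq_one]

lemma Tq_Tq_inv {q : ℝ} (hq : 0 < q) (x : SS d) : Tq q (Tq q⁻¹ x) = x := by
  rw [Tq_Tq hq (inv_pos.2 hq), inv_mul_cancel₀ hq.ne', Tq_one]

/-- Gnomonic balls around the base point. -/
def GB (r : ℝ) : Set (SS d) := {x | 0 < (x : EE d) 0 ∧ ‖tl (x : EE d)‖ ≤ r * (x : EE d) 0}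

lemma mem_GB {r : ℝ} {x : SS d} :
    x ∈ GB r ↔ 0 < (x : EE d) 0 ∧ ‖tl (x : EE d)‖ ≤ r * (x : EE d) 0 := Iff.rfl

lemma Tq_mem_GB {q r : ℝ} (hq : 0 < q) (x : SS d) : Tq q x ∈ GB r ↔ x ∈ GB (q * r) := by
  rw [mem_GB, mem_GB, Tq_zero_pos hq, tl_Tq hq, Tq_zero hq, norm_smul]
  have h1 := norm_Lq_pos hq x
  have h2 : ‖‖Lq q (x : EE d)‖⁻¹ * q⁻¹‖ = ‖Lq q (x : EE d)‖⁻¹ * q⁻¹ := by
    rw [Real.norm_eq_abs, abs_of_pos (by positivity)]
  rw [h2]
  have h3 : ‖Lq q (x : EE d)‖⁻¹ * q⁻¹ * ‖tl (x : EE d)‖ ≤ r * (‖Lq q (x : EE d)‖⁻¹ * (x : EE d) 0) ↔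
      ‖tl (x : EE d)‖ ≤ q * r * (x : EE d) 0 := by
    rw [show r * (‖Lq q (x : EE d)‖⁻¹ * (x : EE d) 0) =
      ‖Lq q (x : EE d)‖⁻¹ * q⁻¹ * (q * r * (x : EE d) 0) by field_simp]
    exact mul_le_mul_iff_right₀ (by positivity)
  rw [h3]

lemma measurable_coord : Measurable fun x : SS d => (x : EE d) 0 := by
  apply Continuous.measurable
  fun_prop

lemma continuous_tl : Continuous (tl (d := d)) := by
  unfold tl
  fun_prop

lemma measurableSet_GB (r : ℝ) : MeasurableSet (GB (d := d) r) := by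
  refine (measurableSet_lt measurable_const measurable_coord).inter ?_
  refine measurableSet_le ?_ (measurable_coord.const_mul r)
  exact ((continuous_tl.comp continuous_subtype_val).norm).measurable

lemma sq_coord_of_mem {r : ℝ} {x : SS d} (hx : x ∈ GB r) :
    1 ≤ (1 + r ^ 2) * (x : EE d) 0 ^ 2 := by
  have h2 := norm_sq_eq (x : EE d)
  have h3 : ‖(x : EE d)‖ = 1 := by simp
  rw [h3] at h2
  rw [mem_GB] at hx
  have h4 : ‖tl (x : EE d)‖ ^ 2 ≤ (r * (x : EE d) 0) ^ 2 :=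
    pow_le_pow_left₀ (norm_nonneg _) hx.2 2
  nlinarith

/-- First Jacobian inequality. -/
lemma sig_preimage_le {q : ℝ} (hq : 1 ≤ q) {B : Set (SS d)} (hB : MeasurableSet B) :
    sig d (Tq q ⁻¹' B) ≤ ENNReal.ofReal (q ^ d) * sig d B := by
  have hq0 : 0 < q := by linarith
  rw [sig_apply hB, sig_apply (measurable_Tq hq0 hB)]
  have h1 : Lq q '' cone (Tq q ⁻¹' B) ⊆ cone B := by
    rintro _ ⟨z, hz, rfl⟩
    obtain ⟨r, hr, x, hx, rfl⟩ := mem_cone.1 hz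
    refine mem_cone.2 ⟨r * ‖Lq q (x : EE d)‖, ?_, Tq q x, hx, ?_⟩
    · have h2 := norm_Lq_pos hq0 x
      have h3 := norm_Lq_le hq x
      constructor
      · exact mul_pos hr.1 h2
      · calc r * ‖Lq q (x : EE d)‖ ≤ r * 1 := by gcongr; exact hr.1.le
          _ < 1 := by linarith [hr.2]
    · rw [coe_Tq hq0, smul_smul, mul_assoc, mul_inv_cancel₀ (norm_Lq_pos hq0 x).ne', mul_one,
        map_smul]
  have h2 := measure_mono (μ := (volume : Measure (EE d))) h1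
  rw [Measure.addHaar_image_linearMap, det_Lq, abs_of_pos (by positivity)] at h2
  calc cst d * volume (cone (Tq q ⁻¹' B))
      = ENNReal.ofReal (q ^ d) * (cst d * (ENNReal.ofReal (q⁻¹ ^ d) *
          volume (cone (Tq q ⁻¹' B)))) := by
        have : ENNReal.ofReal (q ^ d) * ENNReal.ofReal (q⁻¹ ^ d) = 1 := by
          rw [← ENNReal.ofReal_mul (by positivity), ← mul_pow, mul_inv_cancel₀ hq0.ne', one_pow,
            ENNReal.ofReal_one]
        rw [mul_left_comm, ← mul_assoc (ENNReal.ofReal (q ^ d)), this, one_mul]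
    _ ≤ _ := by gcongr

/-- Second Jacobian inequality. -/
lemma sig_le_preimage {q h : ℝ} (hq : 1 ≤ q) {B : Set (SS d)} (hB : MeasurableSet B)
    (hBh : B ⊆ GB (h / q)) :
    ENNReal.ofReal (q ^ d) * sig d B ≤
      ENNReal.ofReal ((1 + h ^ 2) ^ (d + 1)) * sig d (Tq q ⁻¹' B) := by
  have hq0 : 0 < q := by linarith
  set m : ℝ := (1 + h ^ 2)⁻¹ with hm
  have hm0 : 0 < m := by positivity
  have hm1 : m ≤ 1 := inv_le_one_of_one_le₀ (by nlinarith [sq_nonneg h])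
  rw [sig_apply hB, sig_apply (measurable_Tq hq0 hB)]
  have h1 : m • cone B ⊆ Lq q '' cone (Tq q ⁻¹' B) := by
    rintro _ ⟨z, hz, rfl⟩
    obtain ⟨r, hr, y, hy, rfl⟩ := mem_cone.1 hz
    set x := Tq q⁻¹ y with hx
    have hxy : Tq q x = y := Tq_Tq_inv hq0 y
    have hxh : x ∈ GB h := by
      have h3 := hBh hy
      rw [← hxy, Tq_mem_GB hq0, mul_div_cancel₀ _ hq0.ne'] at h3
      exact h3
    have h4 := norm_Lq_pos hq0 x
    have h5 : m ≤ ‖Lq q (x : EE d)‖ := by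
      refine le_trans ?_ (le_norm_Lq q (x : EE d))
      have h6 := sq_coord_of_mem hxh
      rw [abs_of_pos hxh.1, hm, inv_le_iff_one_le_mul₀ (by positivity)]
      have h7 : (x : EE d) 0 ≤ 1 := by
        have := norm_sq_eq (x : EE d)
        have h3 : ‖(x : EE d)‖ = 1 := by simp
        rw [h3] at this
        nlinarith [sq_nonneg ‖tl (x : EE d)‖, hxh.1]
      nlinarith [hxh.1]
    refine ⟨(m * r / ‖Lq q (x : EE d)‖) • (x : EE d), mem_cone.2 ⟨_, ⟨?_, ?_⟩, x, ?_, rfl⟩, ?_⟩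
    · have := hr.1
      positivity
    · rw [div_lt_one h4]
      have := hr.1
      have := hr.2
      nlinarith
    · show Tq q x ∈ B
      rw [hxy]
      exact hy
    · show Lq q ((m * r / ‖Lq q (x : EE d)‖) • (x : EE d)) = m • r • (y : EE d)
      rw [map_smul, ← hxy, coe_Tq hq0, smul_smul, smul_smul]
      rfl
  have h2 := measure_mono (μ := (volume : Measure (EE d))) h1
  rw [Measure.addHaar_image_linearMap, det_Lq, abs_of_pos (by positivity),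
    Measure.addHaar_smul, abs_of_pos (by positivity)] at h2
  have hfin : Module.finrank ℝ (EE d) = d + 1 := by simp
  rw [hfin] at h2
  have e1 : ENNReal.ofReal ((1 + h ^ 2) ^ (d + 1)) * ENNReal.ofReal (m ^ (d + 1)) = 1 := by
    rw [← ENNReal.ofReal_mul (by positivity), ← mul_pow, hm,
      mul_inv_cancel₀ (by positivity), one_pow, ENNReal.ofReal_one]
  have e2 : ENNReal.ofReal (q ^ d) * ENNReal.ofReal (q⁻¹ ^ d) = 1 := by
    rw [← ENNReal.ofReal_mul (by positivity), ← mul_pow, mul_inv_cancel₀ hq0.ne', one_pow,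
      ENNReal.ofReal_one]
  calc ENNReal.ofReal (q ^ d) * (cst d * volume (cone B))
      = ENNReal.ofReal (q ^ d) * ENNReal.ofReal ((1 + h ^ 2) ^ (d + 1)) *
          cst d * (ENNReal.ofReal (m ^ (d + 1)) * volume (cone B)) := by
        rw [show ENNReal.ofReal (q ^ d) * ENNReal.ofReal ((1 + h ^ 2) ^ (d + 1)) *
          cst d * (ENNReal.ofReal (m ^ (d + 1)) * volume (cone B)) =
          ENNReal.ofReal (q ^ d) * (ENNReal.ofReal ((1 + h ^ 2) ^ (d + 1)) *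
          ENNReal.ofReal (m ^ (d + 1))) * (cst d * volume (cone B)) by ring, e1, mul_one]
    _ ≤ ENNReal.ofReal (q ^ d) * ENNReal.ofReal ((1 + h ^ 2) ^ (d + 1)) *
          cst d * (ENNReal.ofReal (q⁻¹ ^ d) * volume (cone (Tq q ⁻¹' B))) := by gcongr
    _ = (ENNReal.ofReal (q ^ d) * ENNReal.ofReal (q⁻¹ ^ d)) *
          (ENNReal.ofReal ((1 + h ^ 2) ^ (d + 1)) * (cst d * volume (cone (Tq q ⁻¹' B)))) := by ring
    _ = _ := by rw [e2, one_mul]

end Pool.Agent.Lib.MP_1fcdcf_an
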