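import Mathlib
import Pool.Agent.Lib.MP_1fcdcf_an.Geom

open MeasureTheory Metric Set Module
open scoped ENNReal NNReal Pointwise RealInnerProductSpace

namespace Pool.Agent.Lib.MP_1fcdcf_an

variable {d : ℕ}

/-- The squared distance of the gnomonic images. -/
noncomputable def gd2 (x y : SS d) : ℝ :=
  ‖((x : EE d) 0)⁻¹ • (x : EE d) - ((y : EE d) 0)⁻¹ • (y : EE d)‖ ^ 2

lemma norm_coe (x : SS d) : ‖(x : EE d)‖ = 1 := by simp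

lemma gd2_eq {x y : SS d} (hx : 0 < (x : EE d) 0) (hy : 0 < (y : EE d) 0) :
    gd2 x y = (((x : EE d) 0)⁻¹ - ((y : EE d) 0)⁻¹) ^ 2 +
      ((x : EE d) 0)⁻¹ * ((y : EE d) 0)⁻¹ * dist x y ^ 2 := by
  rw [gd2, Subtype.dist_eq, dist_eq_norm, norm_sub_sq_real, norm_sub_sq_real, norm_smul, norm_smul,
    norm_coe, norm_coe, inner_smul_left, inner_smul_right, Real.norm_eq_abs, Real.norm_eq_abs,
    abs_of_pos (inv_pos.2 hx), abs_of_pos (inv_pos.2 hy)]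
  simp only [conj_trivial]
  ring

lemma gd2_eq' {x y : SS d} (hx : 0 < (x : EE d) 0) (hy : 0 < (y : EE d) 0) :
    gd2 x y = ‖((x : EE d) 0)⁻¹ • tl (x : EE d) - ((y : EE d) 0)⁻¹ • tl (y : EE d)‖ ^ 2 := by
  rw [gd2]
  congr 2
  conv_lhs => rw [← add_tl (x : EE d), ← add_tl (y : EE d)]
  rw [smul_add, smul_add, smul_smul, smul_smul]
  have h1 : ((x : EE d) 0)⁻¹ * ((x : EE d) 0 • (e0 d : EE d) + tl (x : EE d)) 0 = 1 := by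
    rw [add_tl, inv_mul_cancel₀ hx.ne']
  have h2 : ((y : EE d) 0)⁻¹ * ((y : EE d) 0 • (e0 d : EE d) + tl (y : EE d)) 0 = 1 := by
    rw [add_tl, inv_mul_cancel₀ hy.ne']
  rw [add_tl, add_tl, inv_mul_cancel₀ hx.ne', inv_mul_cancel₀ hy.ne']
  abel

lemma gd2_Tq {q : ℝ} (hq : 0 < q) {x y : SS d} (hx : 0 < (x : EE d) 0) (hy : 0 < (y : EE d) 0) :
    gd2 (Tq q x) (Tq q y) = q⁻¹ ^ 2 * gd2 x y := by
  rw [gd2_eq' ((Tq_zero_pos hq x).2 hx) ((Tq_zero_pos hq y).2 hy), gd2_eq' hx hy, Tq_zero hq,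
    Tq_zero hq, tl_Tq hq, tl_Tq hq, smul_smul, smul_smul]
  have h1 := norm_Lq_pos hq x
  have h2 := norm_Lq_pos hq y
  have e1 : (‖Lq q (x : EE d)‖⁻¹ * (x : EE d) 0)⁻¹ * (‖Lq q (x : EE d)‖⁻¹ * q⁻¹) =
      q⁻¹ * ((x : EE d) 0)⁻¹ := by field_simp
  have e2 : (‖Lq q (y : EE d)‖⁻¹ * (y : EE d) 0)⁻¹ * (‖Lq q (y : EE d)‖⁻¹ * q⁻¹) =
      q⁻¹ * ((y : EE d) 0)⁻¹ := by field_simp
  rw [e1, e2, mul_smul, mul_smul, ← smul_sub, norm_smul, mul_pow, Real.norm_eq_abs, sq_abs]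

lemma coord_le_one (x : SS d) : (x : EE d) 0 ≤ 1 := by
  have := norm_sq_eq (x : EE d)
  rw [norm_coe] at this
  nlinarith [sq_nonneg ‖tl (x : EE d)‖]

/-- The chordal distance is at most the gnomonic distance. -/
lemma dist_sq_le_gd2 {x y : SS d} (hx : 0 < (x : EE d) 0) (hy : 0 < (y : EE d) 0) :
    dist x y ^ 2 ≤ gd2 x y := by
  rw [gd2_eq hx hy]
  have h1 : 1 ≤ ((x : EE d) 0)⁻¹ := (one_le_inv₀ hx).2 (coord_le_one x)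
  have h2 : 1 ≤ ((y : EE d) 0)⁻¹ := (one_le_inv₀ hy).2 (coord_le_one y)
  have h3 : 1 ≤ ((x : EE d) 0)⁻¹ * ((y : EE d) 0)⁻¹ := one_le_mul_of_one_le_of_one_le h1 h2
  nlinarith [sq_nonneg (((x : EE d) 0)⁻¹ - ((y : EE d) 0)⁻¹), sq_nonneg (dist x y)]

lemma inv_coord_sq {x : SS d} (hx : 0 < (x : EE d) 0) :
    ((x : EE d) 0)⁻¹ ^ 2 = 1 + ‖((x : EE d) 0)⁻¹ • tl (x : EE d)‖ ^ 2 := by
  have := norm_sq_eq (x : EE d)
  rw [norm_coe] at this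
  rw [norm_smul, mul_pow, Real.norm_eq_abs, sq_abs]
  have h : ((x : EE d) 0)⁻¹ ^ 2 * (x : EE d) 0 ^ 2 = 1 := by
    rw [← mul_pow, inv_mul_cancel₀ hx.ne', one_pow]
  nlinarith [h]

lemma gd2_mul_le {r : ℝ} (hr : 0 ≤ r) (hr1 : r ≤ 1) {x y : SS d} (hx : x ∈ GB r) (hy : y ∈ GB r) :
    (1 - r ^ 2) ^ 2 * gd2 x y ≤ dist x y ^ 2 := by
  have hx0 := hx.1
  have hy0 := hy.1
  set a := ((x : EE d) 0)⁻¹ with ha
  set b := ((y : EE d) 0)⁻¹ with hb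
  set u := a • tl (x : EE d) with hu
  set v := b • tl (y : EE d) with hv
  have ha1 : 1 ≤ a := (one_le_inv₀ hx0).2 (coord_le_one x)
  have hb1 : 1 ≤ b := (one_le_inv₀ hy0).2 (coord_le_one y)
  have h1 : a ^ 2 = 1 + ‖u‖ ^ 2 := inv_coord_sq hx0
  have h2 : b ^ 2 = 1 + ‖v‖ ^ 2 := inv_coord_sq hy0
  have h3 : gd2 x y = ‖u - v‖ ^ 2 := gd2_eq' hx0 hy0
  have h4 := gd2_eq hx0 hy0
  rw [← ha, ← hb] at h4
  have hur : ‖u‖ ≤ r := by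
    rw [hu, norm_smul, Real.norm_eq_abs, abs_of_pos (by linarith), ha, inv_mul_le_iff₀ hx0,
      mul_comm]
    exact hx.2
  have hvr : ‖v‖ ≤ r := by
    rw [hv, norm_smul, Real.norm_eq_abs, abs_of_pos (by linarith), hb, inv_mul_le_iff₀ hy0,
      mul_comm]
    exact hy.2
  have hw : |‖u‖ - ‖v‖| ≤ ‖u - v‖ := abs_norm_sub_norm_le u v
  -- |a - b| ≤ r * ‖u - v‖
  have h5 : (a - b) ^ 2 ≤ r ^ 2 * ‖u - v‖ ^ 2 := by
    have e1 : (a - b) * (a + b) = (‖u‖ - ‖v‖) * (‖u‖ + ‖v‖) := by nlinarith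
    have e2 : |a - b| * 2 ≤ |a - b| * (a + b) :=
      mul_le_mul_of_nonneg_left (by linarith) (abs_nonneg _)
    have e3 : |a - b| * (a + b) = |‖u‖ - ‖v‖| * (‖u‖ + ‖v‖) := by
      rw [← abs_of_pos (show 0 < a + b by linarith), ← abs_mul, e1, abs_mul, abs_of_nonneg (by positivity : 0 ≤ ‖u‖ + ‖v‖)]
    have e4 : |‖u‖ - ‖v‖| * (‖u‖ + ‖v‖) ≤ ‖u - v‖ * (2 * r) := by
      apply mul_le_mul hw (by linarith) (by positivity) (norm_nonneg _)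
    have e5 : |a - b| ≤ r * ‖u - v‖ := by nlinarith
    calc (a - b) ^ 2 = |a - b| ^ 2 := (sq_abs _).symm
      _ ≤ (r * ‖u - v‖) ^ 2 := pow_le_pow_left₀ (abs_nonneg _) e5 2
      _ = _ := by ring
  have h6 : a * b ≤ 1 + r ^ 2 := by
    have e1 : a ^ 2 ≤ 1 + r ^ 2 := by rw [h1]; nlinarith [norm_nonneg u]
    have e2 : b ^ 2 ≤ 1 + r ^ 2 := by rw [h2]; nlinarith [norm_nonneg v]
    nlinarith [sq_nonneg (a - b)]
  have h7 : (1 - r ^ 2) * ‖u - v‖ ^ 2 ≤ a * b * dist x y ^ 2 := by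
    rw [h3] at h4
    nlinarith
  have h8 : 0 ≤ 1 - r ^ 2 := by nlinarith
  have h9 : a * b * dist x y ^ 2 ≤ (1 + r ^ 2) * dist x y ^ 2 :=
    mul_le_mul_of_nonneg_right h6 (sq_nonneg _)
  rw [h3]
  have h10 : (1 - r ^ 2) * ((1 - r ^ 2) * ‖u - v‖ ^ 2) ≤ (1 - r ^ 2) * ((1 + r ^ 2) * dist x y ^ 2) :=
    mul_le_mul_of_nonneg_left (h7.trans h9) h8
  have h11 : (1 - r ^ 2) * (1 + r ^ 2) ≤ 1 := by nlinarith [sq_nonneg (r ^ 2)]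
  nlinarith [mul_le_mul_of_nonneg_right h11 (sq_nonneg (dist x y))]

/-- Upper distance bound for the contraction. -/
lemma dist_Tq_le {q r : ℝ} (hq : 1 ≤ q) (hr : 0 ≤ r) (hr1 : r < 1) {x y : SS d}
    (hx : x ∈ GB r) (hy : y ∈ GB r) :
    (1 - r ^ 2) * dist (Tq q x) (Tq q y) ≤ q⁻¹ * dist x y := by
  have hq0 : 0 < q := by linarith
  have h1 := dist_sq_le_gd2 ((Tq_zero_pos hq0 x).2 hx.1) ((Tq_zero_pos hq0 y).2 hy.1)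
  have h2 := gd2_mul_le hr hr1.le hx hy
  rw [gd2_Tq hq0 hx.1 hy.1] at h1
  have h8 : 0 ≤ 1 - r ^ 2 := by nlinarith
  have h3 : ((1 - r ^ 2) * dist (Tq q x) (Tq q y)) ^ 2 ≤ (q⁻¹ * dist x y) ^ 2 := by
    rw [mul_pow, mul_pow]
    calc (1 - r ^ 2) ^ 2 * dist (Tq q x) (Tq q y) ^ 2 ≤ (1 - r ^ 2) ^ 2 * (q⁻¹ ^ 2 * gd2 x y) := by
          gcongr
      _ = q⁻¹ ^ 2 * ((1 - r ^ 2) ^ 2 * gd2 x y) := by ring
      _ ≤ _ := by gcongr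
  exact (pow_le_pow_iff_left₀ (by positivity) (by positivity) two_ne_zero).1 h3

/-- Lower distance bound for the contraction. -/
lemma le_dist_Tq {q r : ℝ} (hq : 1 ≤ q) (hr : 0 ≤ r) (hr1 : r < 1) {x y : SS d}
    (hx : x ∈ GB r) (hy : y ∈ GB r) :
    (1 - r ^ 2) * (q⁻¹ * dist x y) ≤ dist (Tq q x) (Tq q y) := by
  have hq0 : 0 < q := by linarith
  have hsub : ∀ z : SS d, z ∈ GB r → Tq q z ∈ GB r := by
    intro z hz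
    rw [Tq_mem_GB hq0]
    refine ⟨hz.1, hz.2.trans ?_⟩
    have := hz.1
    nlinarith [mul_nonneg hr this.le]
  have h1 := gd2_mul_le hr hr1.le (hsub x hx) (hsub y hy)
  have h2 := dist_sq_le_gd2 hx.1 hy.1
  rw [gd2_Tq hq0 hx.1 hy.1] at h1
  have h8 : 0 ≤ 1 - r ^ 2 := by nlinarith
  have h3 : ((1 - r ^ 2) * (q⁻¹ * dist x y)) ^ 2 ≤ dist (Tq q x) (Tq q y) ^ 2 := by
    calc ((1 - r ^ 2) * (q⁻¹ * dist x y)) ^ 2 = (1 - r ^ 2) ^ 2 * (q⁻¹ ^ 2 * dist x y ^ 2) := by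
          ring
      _ ≤ (1 - r ^ 2) ^ 2 * (q⁻¹ ^ 2 * gd2 x y) := by gcongr
      _ ≤ _ := h1
  exact (pow_le_pow_iff_left₀ (by positivity) dist_nonneg two_ne_zero).1 h3

end Pool.Agent.Lib.MP_1fcdcf_an
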