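import Mathlib
import Pool.Agent.Lib.MP_1fcdcf_an.Geom2

open MeasureTheory Metric Set Module
open scoped ENNReal NNReal Pointwise RealInnerProductSpace

namespace Pool.Agent.Lib.MP_1fcdcf_an

variable {d : ℕ}

lemma dist_e0_sq (y : SS d) : dist y (e0 d) ^ 2 = 2 - 2 * (y : EE d) 0 := by
  rw [Subtype.dist_eq, dist_eq_norm, norm_sub_sq_real, norm_coe, norm_e0, inner_e0']
  ring

lemma closedBall_subset_GB {r : ℝ} (hr : 0 ≤ r) (hr1 : r ≤ 1 / 2) :
    closedBall (e0 d) r ⊆ GB (2 * r) := by
  intro y hy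
  rw [mem_closedBall] at hy
  have h1 := dist_e0_sq y
  have h2 : dist y (e0 d) ^ 2 ≤ (1 / 2) ^ 2 := pow_le_pow_left₀ dist_nonneg (hy.trans hr1) 2
  have h3 : 1 / 2 ≤ (y : EE d) 0 := by linarith
  refine ⟨by linarith, ?_⟩
  have h4 : ‖tl (y : EE d)‖ ≤ r := by
    have : tl (y : EE d) = tl ((y : EE d) - (e0 d : EE d)) := by rw [tl_sub, tl_e0, sub_zero]
    rw [this]
    refine (norm_tl_le _).trans ?_
    rw [← dist_eq_norm, ← Subtype.dist_eq]
    exact hy
  nlinarith

lemma sig_GB_le {r : ℝ} (hr : 0 < r) (hr1 : r ≤ 1) :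
    sig d (GB r) ≤ ENNReal.ofReal (2 ^ (d + 1) * r ^ d) := by
  have hq : 1 ≤ r⁻¹ := (one_le_inv₀ hr).2 hr1
  have h1 := sig_le_preimage (d := d) (q := r⁻¹) (h := 1) hq (measurableSet_GB r)
    (by rw [one_div, inv_inv])
  have h2 : ENNReal.ofReal (r⁻¹ ^ d) * sig d (GB r) ≤ ENNReal.ofReal (2 ^ (d + 1)) := by
    refine h1.trans ?_
    calc ENNReal.ofReal ((1 + 1 ^ 2) ^ (d + 1)) * sig d (Tq r⁻¹ ⁻¹' GB r)
        ≤ ENNReal.ofReal ((1 + 1 ^ 2) ^ (d + 1)) * 1 := by
          gcongr
          exact prob_le_one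
      _ = _ := by rw [mul_one]; norm_num
  have e2 : ENNReal.ofReal (r ^ d) * ENNReal.ofReal (r⁻¹ ^ d) = 1 := by
    rw [← ENNReal.ofReal_mul (by positivity), ← mul_pow, mul_inv_cancel₀ hr.ne', one_pow,
      ENNReal.ofReal_one]
  calc sig d (GB r) = ENNReal.ofReal (r ^ d) * (ENNReal.ofReal (r⁻¹ ^ d) * sig d (GB r)) := by
        rw [← mul_assoc, e2, one_mul]
    _ ≤ ENNReal.ofReal (r ^ d) * ENNReal.ofReal (2 ^ (d + 1)) := by gcongr
    _ = _ := by rw [← ENNReal.ofReal_mul (by positivity), mul_comm]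

/-- Upper bound for the measure of balls. -/
lemma sig_closedBall_le (x : SS d) {r : ℝ} (hr : 0 < r) :
    sig d (closedBall x r) ≤ ENNReal.ofReal (2 ^ (2 * d + 1) * r ^ d) := by
  rcases le_total r (1 / 2) with h | h
  · obtain ⟨g, hg⟩ := exists_rot_eq (e0 d) x
    have h1 : rot g ⁻¹' closedBall x r = closedBall (e0 d) r := by
      ext y
      rw [mem_preimage, mem_closedBall, mem_closedBall, ← hg, dist_rot]
    rw [← (measurePreserving_rot g).measure_preimage
      (measurableSet_closedBall).nullMeasurableSet, h1]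
    refine (measure_mono (closedBall_subset_GB hr.le h)).trans ?_
    refine (sig_GB_le (by linarith) (by linarith)).trans ?_
    apply ENNReal.ofReal_le_ofReal
    rw [mul_pow]
    have : (2 : ℝ) ^ (2 * d + 1) = 2 ^ (d + 1) * 2 ^ d := by rw [← pow_add]; congr 1; omega
    rw [this]
    linarith
  · refine prob_le_one.trans ?_
    rw [ENNReal.one_le_ofReal]
    have h1 : (1 : ℝ) ≤ (2 * r) ^ d := one_le_pow₀ (by linarith)
    have h2 : (2 : ℝ) ^ (2 * d + 1) * r ^ d = 2 ^ (d + 1) * (2 * r) ^ d := by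
      rw [mul_pow, ← mul_assoc, ← pow_add]
      congr 2
      omega
    rw [h2]
    have h3 : (1 : ℝ) ≤ 2 ^ (d + 1) := one_le_pow₀ (by norm_num)
    nlinarith

lemma sig_singleton (hd : 1 ≤ d) (x : SS d) : sig d {x} = 0 := by
  have h1 : ∀ r : ℝ, 0 < r → sig d {x} ≤ ENNReal.ofReal (2 ^ (2 * d + 1) * r ^ d) := by
    intro r hr
    refine (measure_mono ?_).trans (sig_closedBall_le x hr)
    simp [hr.le]
  have h2 : Filter.Tendsto (fun r : ℝ => ENNReal.ofReal (2 ^ (2 * d + 1) * r ^ d))
      (nhdsWithin 0 (Ioi 0)) (nhds (ENNReal.ofReal (2 ^ (2 * d + 1) * 0 ^ d))) := by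
    refine (ENNReal.continuous_ofReal.comp (by fun_prop :
      Continuous fun r : ℝ => 2 ^ (2 * d + 1) * r ^ d)).tendsto 0 |>.mono_left nhdsWithin_le_nhds
  rw [zero_pow (by omega), mul_zero, ENNReal.ofReal_zero] at h2
  refine le_antisymm ?_ zero_le
  refine ge_of_tendsto h2 ?_
  filter_upwards [self_mem_nhdsWithin] with r hr
  exact h1 r hr

/-- Constant in the bound of the integrals of `u ^ k`. -/
noncomputable def CU (d : ℕ) : ℝ≥0∞ :=
  2 * ENNReal.ofReal (2 ^ (2 * d + 1)) *
    ∑' j : ℕ, ENNReal.ofReal (((j : ℝ) + 1) ^ d * Real.exp (-gam d * j))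

lemma CU_ne_top (d : ℕ) : CU d ≠ ⊤ := by
  refine ENNReal.mul_ne_top (ENNReal.mul_ne_top (by norm_num) ENNReal.ofReal_ne_top) ?_
  have h1 := Real.summable_pow_mul_exp_neg_nat_mul d (gam_pos d)
  have h2 := (summable_nat_add_iff 1).2 h1
  have h3 := h2.mul_left (Real.exp (gam d))
  have h4 : (fun j : ℕ => Real.exp (gam d) * ((((j + 1 : ℕ) : ℝ)) ^ d *
      Real.exp (-gam d * ((j + 1 : ℕ) : ℝ)))) =
      fun j : ℕ => ((j : ℝ) + 1) ^ d * Real.exp (-gam d * j) := by
    ext j
    push_cast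
    rw [mul_left_comm, ← Real.exp_add]
    congr 2
    ring
  rw [h4] at h3
  exact h3.tsum_ofReal_ne_top

lemma lintegral_uu_pow_le (x : SS d) (k : ℕ) :
    ∫⁻ y, uu x y ^ k ∂(sig d) ≤ CU d * ENNReal.ofReal ((((k : ℝ) + 1) ^ d)⁻¹) := by
  have hg := gam_pos d
  have h1 : ∀ y : SS d, uu x y ^ k ≤ ∑' j : ℕ, (closedBall x (((j : ℝ) + 1) / (k + 1))).indicator
      (fun _ => 2 * ENNReal.ofReal (Real.exp (-gam d * j))) y := by
    intro y
    set δ := dist x y with hδ
    have hδ0 : 0 ≤ δ := dist_nonneg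
    set j := ⌊((k : ℝ) + 1) * δ⌋₊ with hj
    have hk : (0 : ℝ) < (k : ℝ) + 1 := by positivity
    have hj1 : (j : ℝ) ≤ (k + 1) * δ := Nat.floor_le (by positivity)
    have hj2 : ((k : ℝ) + 1) * δ < j + 1 := Nat.lt_floor_add_one _
    refine le_trans ?_ (ENNReal.le_tsum j)
    rw [indicator_of_mem]
    · have h2 := gam_mul_dist_le x y
      rw [← hδ] at h2
      have h3 : 1 - gam d * δ ≤ Real.exp (-(gam d * δ)) := by
        linarith [Real.add_one_le_exp (-(gam d * δ))]
      rw [uu, ← hδ, ← ENNReal.ofReal_pow (by linarith)]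
      have h5 : (2 : ℝ≥0∞) = ENNReal.ofReal 2 := by norm_num
      rw [h5, ← ENNReal.ofReal_mul (by norm_num)]
      apply ENNReal.ofReal_le_ofReal
      calc (1 - gam d * δ) ^ k ≤ Real.exp (-(gam d * δ)) ^ k :=
            pow_le_pow_left₀ (by linarith) h3 k
        _ = Real.exp (gam d * δ) * Real.exp (-gam d * ((k + 1) * δ)) := by
            rw [← Real.exp_nat_mul, ← Real.exp_add]
            congr 1
            ring
        _ ≤ 2 * Real.exp (-gam d * j) := by
            have h8 : Real.exp (gam d * δ) ≤ 2 := by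
              calc Real.exp (gam d * δ) ≤ Real.exp (1 / 2) := by gcongr
                _ ≤ 2 := by
                  have h6 := Real.exp_one_lt_d9
                  have h7 : Real.exp (1 / 2) ^ 2 = Real.exp 1 := by
                    rw [← Real.exp_nat_mul]; norm_num
                  nlinarith [Real.exp_pos (1 / 2)]
            have h9 : Real.exp (-gam d * ((k + 1) * δ)) ≤ Real.exp (-gam d * j) := by
              apply Real.exp_le_exp.2
              nlinarith
            exact mul_le_mul h8 h9 (Real.exp_pos _).le (by norm_num)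
    · rw [mem_closedBall, dist_comm, ← hδ, le_div_iff₀ hk]
      linarith
  calc ∫⁻ y, uu x y ^ k ∂(sig d) ≤ ∫⁻ y, ∑' j : ℕ,
        (closedBall x (((j : ℝ) + 1) / (k + 1))).indicator
          (fun _ => 2 * ENNReal.ofReal (Real.exp (-gam d * j))) y ∂(sig d) := lintegral_mono h1
    _ = ∑' j : ℕ, 2 * ENNReal.ofReal (Real.exp (-gam d * j)) *
          sig d (closedBall x (((j : ℝ) + 1) / (k + 1))) := by
        rw [lintegral_tsum]
        · refine tsum_congr fun j => ?_
          rw [lintegral_indicator measurableSet_closedBall, setLIntegral_const]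
        · exact fun j => (measurable_const.indicator measurableSet_closedBall).aemeasurable
    _ ≤ ∑' j : ℕ, 2 * ENNReal.ofReal (Real.exp (-gam d * j)) *
          ENNReal.ofReal (2 ^ (2 * d + 1) * (((j : ℝ) + 1) / (k + 1)) ^ d) := by
        gcongr with j
        exact sig_closedBall_le x (by positivity)
    _ = _ := by
        rw [CU, mul_assoc (2 * ENNReal.ofReal (2 ^ (2 * d + 1))), ← ENNReal.tsum_mul_right,
          ← ENNReal.tsum_mul_left]
        refine tsum_congr fun j => ?_
        rw [div_pow, div_eq_mul_inv, ENNReal.ofReal_mul (by positivity),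
          ENNReal.ofReal_mul (by positivity), ENNReal.ofReal_mul (by positivity)]
        ring

/-- Constant in the local bound for the kernel. -/
noncomputable def CK (s : ℝ) (d : ℕ) : ℝ≥0∞ :=
  ENNReal.ofReal (2 ^ s * 2 ^ (2 * d + 1)) * ∑' j : ℕ, ENNReal.ofReal ((2 : ℝ) ^ (s - d)) ^ j

lemma CK_ne_top {s : ℝ} (hs : s < d) : CK s d ≠ ⊤ := by
  refine ENNReal.mul_ne_top ENNReal.ofReal_ne_top ?_
  rw [ENNReal.tsum_geometric]
  refine ENNReal.inv_ne_top.2 ?_
  rw [ne_eq, tsub_eq_zero_iff_le, not_le, ENNReal.ofReal_lt_one]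
  exact Real.rpow_lt_one_of_one_lt_of_neg (by norm_num) (by linarith)

lemma lintegral_KK_closedBall_le {s : ℝ} (hs : 0 < s) (hd : 1 ≤ d) (x : SS d) {R : ℝ}
    (hR : 0 < R) :
    ∫⁻ y in closedBall x R, KK s x y ∂(sig d) ≤ CK s d * ENNReal.ofReal (R ^ ((d : ℝ) - s)) := by
  have h1 : ∀ y ∈ closedBall x R \ {x}, KK s x y ≤
      ∑' j : ℕ, (closedBall x (R / 2 ^ j)).indicator
      (fun _ => ENNReal.ofReal ((R / 2 ^ (j + 1)) ^ (-s))) y := by
    rintro y ⟨hy, hyx⟩
    have hne : x ≠ y := fun h => hyx (by simp [h])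
    have hδ : 0 < dist x y := dist_pos.2 hne
    rw [mem_closedBall, dist_comm] at hy
    obtain ⟨j, hj1, hj2⟩ : ∃ j : ℕ, R / 2 ^ (j + 1) < dist x y ∧ dist x y ≤ R / 2 ^ j := by
      have hex : ∃ j : ℕ, R / 2 ^ (j + 1) < dist x y := by
        obtain ⟨j, hj⟩ := pow_unbounded_of_one_lt (R / dist x y) (one_lt_two)
        refine ⟨j, ?_⟩
        rw [div_lt_iff₀ hδ] at hj
        rw [div_lt_iff₀ (by positivity)]
        calc R < 2 ^ j * dist x y := hj
          _ ≤ dist x y * 2 ^ (j + 1) := by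
            rw [mul_comm, pow_succ]
            have : (0 : ℝ) < 2 ^ j := by positivity
            nlinarith
      classical
      refine ⟨Nat.find hex, Nat.find_spec hex, ?_⟩
      rcases Nat.eq_zero_or_pos (Nat.find hex) with h0 | h0
      · rw [h0]; simpa using hy
      · have := Nat.find_min hex (Nat.sub_lt h0 one_pos)
        rw [not_lt, show Nat.find hex - 1 + 1 = Nat.find hex by omega] at this
        exact this
    refine le_trans ?_ (ENNReal.le_tsum j)
    rw [indicator_of_mem, KK_of_ne hne]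
    · apply ENNReal.ofReal_le_ofReal
      exact Real.rpow_le_rpow_of_nonpos (by positivity) hj1.le (by linarith)
    · rw [mem_closedBall, dist_comm]
      exact hj2
  calc ∫⁻ y in closedBall x R, KK s x y ∂(sig d)
      = ∫⁻ y in closedBall x R \ {x}, KK s x y ∂(sig d) := by
        refine setLIntegral_congr ?_
        exact (sdiff_null_ae_eq_self (sig_singleton hd x)).symm
    _ ≤ ∫⁻ y in closedBall x R \ {x}, ∑' j : ℕ, (closedBall x (R / 2 ^ j)).indicator
          (fun _ => ENNReal.ofReal ((R / 2 ^ (j + 1)) ^ (-s))) y ∂(sig d) := by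
        refine setLIntegral_mono ?_ h1
        exact Measurable.tsum fun j => measurable_const.indicator measurableSet_closedBall
    _ ≤ ∫⁻ y, ∑' j : ℕ, (closedBall x (R / 2 ^ j)).indicator
          (fun _ => ENNReal.ofReal ((R / 2 ^ (j + 1)) ^ (-s))) y ∂(sig d) :=
        setLIntegral_le_lintegral _ _
    _ = ∑' j : ℕ, ENNReal.ofReal ((R / 2 ^ (j + 1)) ^ (-s)) * sig d (closedBall x (R / 2 ^ j)) := by
        rw [lintegral_tsum]
        · refine tsum_congr fun j => ?_
          rw [lintegral_indicator measurableSet_closedBall, setLIntegral_const]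
        · exact fun j => (measurable_const.indicator measurableSet_closedBall).aemeasurable
    _ ≤ ∑' j : ℕ, ENNReal.ofReal ((R / 2 ^ (j + 1)) ^ (-s)) *
          ENNReal.ofReal (2 ^ (2 * d + 1) * (R / 2 ^ j) ^ d) := by
        gcongr with j
        exact sig_closedBall_le x (by positivity)
    _ = _ := by
        rw [CK, mul_right_comm, ← ENNReal.tsum_mul_left]
        refine tsum_congr fun j => ?_
        rw [← ENNReal.ofReal_mul (by positivity), ← ENNReal.ofReal_mul (by positivity),
          ← ENNReal.ofReal_pow (by positivity), ← ENNReal.ofReal_mul (by positivity)]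
        congr 1
        have e1 : (R / 2 ^ (j + 1)) ^ (-s) = R ^ (-s) * (2 ^ s * 2 ^ (s * j)) := by
          rw [Real.div_rpow hR.le (by positivity), Real.rpow_neg (by positivity) s,
            Real.rpow_neg (by positivity) s, div_eq_mul_inv, inv_inv, ← Real.rpow_natCast,
            ← Real.rpow_mul (by norm_num), ← Real.rpow_add (by norm_num)]
          congr 2
          push_cast
          ring
        have e2 : (R / 2 ^ j) ^ d = R ^ (d : ℝ) * 2 ^ (-(d : ℝ) * j) := by
          rw [div_pow, div_eq_mul_inv, Real.rpow_natCast, neg_mul, Real.rpow_neg (by norm_num)]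
          congr 2
          rw [← pow_mul, ← Real.rpow_natCast]
          congr 1
          push_cast
          ring
        have e3 : ((2 : ℝ) ^ (s - d)) ^ j = 2 ^ (s * j) * 2 ^ (-(d : ℝ) * j) := by
          rw [← Real.rpow_natCast, ← Real.rpow_mul (by norm_num), ← Real.rpow_add (by norm_num)]
          congr 1
          ring
        have e4 : R ^ ((d : ℝ) - s) = R ^ (d : ℝ) * R ^ (-s) := by
          rw [← Real.rpow_add hR]
          congr 1
        rw [e1, e2, e3, e4]
        ring

end Pool.Agent.Lib.MP_1fcdcf_an
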