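import Mathlib
import Pool.Agent.Lib.MP_1fcdcf_an.Sphere

open MeasureTheory Metric Set Module
open scoped ENNReal NNReal Pointwise

namespace Pool.Agent.Lib.MP_1fcdcf_an

/-- The orthogonal group. -/
noncomputable abbrev GG (d : ℕ) := unitary (EE d →L[ℝ] EE d)

instance (d : ℕ) : ContinuousStar (EE d →L[ℝ] EE d) := ⟨by
  have h : (star : (EE d →L[ℝ] EE d) → (EE d →L[ℝ] EE d)) = ContinuousLinearMap.adjoint := by
    ext1 x
    exact ContinuousLinearMap.star_eq_adjoint x
  rw [h]
  exact (ContinuousLinearMap.adjoint (𝕜 := ℝ) (E := EE d) (F := EE d)).continuous⟩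

noncomputable instance (d : ℕ) : MeasurableSpace (GG d) := borel _
instance (d : ℕ) : BorelSpace (GG d) := ⟨rfl⟩

instance (d : ℕ) : SecondCountableTopology (EE d →L[ℝ] EE d) := by
  have : ProperSpace (EE d →L[ℝ] EE d) := FiniteDimensional.proper ℝ _
  infer_instance

instance (d : ℕ) : CompactSpace (GG d) := by
  have : ProperSpace (EE d →L[ℝ] EE d) := FiniteDimensional.proper ℝ _
  have h : IsCompact ((unitary (EE d →L[ℝ] EE d) : Submonoid _) : Set (EE d →L[ℝ] EE d)) := by
    refine Metric.isCompact_of_isClosed_isBounded isClosed_unitary ?_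
    refine (Metric.isBounded_closedBall (x := (0 : EE d →L[ℝ] EE d)) (r := 1)).subset ?_
    intro u hu
    rw [Metric.mem_closedBall, dist_zero_right]
    refine ContinuousLinearMap.opNorm_le_bound _ zero_le_one fun x => ?_
    rw [one_mul]
    exact ((Unitary.linearIsometryEquiv (⟨u, hu⟩ : GG d)).norm_map x).le
  exact isCompact_iff_compactSpace.1 h

/-- Normalised Haar measure. -/
noncomputable def muG (d : ℕ) : Measure (GG d) := Measure.haarMeasure ⊤

instance (d : ℕ) : IsProbabilityMeasure (muG d) where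
  measure_univ := by
    have := Measure.haarMeasure_self (K₀ := (⊤ : TopologicalSpace.PositiveCompacts (GG d)))
    simpa [muG] using this

instance (d : ℕ) : (muG d).IsMulLeftInvariant := by
  unfold muG
  infer_instance

/-- The isometry associated with the inverse of a group element. -/
noncomputable def isoG {d : ℕ} (g : GG d) : EE d ≃ₗᵢ[ℝ] EE d := Unitary.linearIsometryEquiv g⁻¹

lemma isoG_apply {d : ℕ} (g : GG d) (x : EE d) : isoG g x = ((g⁻¹ : GG d) : EE d →L[ℝ] EE d) x := rfl

lemma isoG_mul {d : ℕ} (g h : GG d) (x : EE d) : isoG (g * h) x = isoG h (isoG g x) := by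
  simp [isoG_apply, mul_inv_rev]

lemma exists_isoG (d : ℕ) (g : EE d ≃ₗᵢ[ℝ] EE d) : ∃ h : GG d, isoG h = g := by
  refine ⟨(Unitary.linearIsometryEquiv.symm g)⁻¹, ?_⟩
  simp [isoG]

lemma continuous_rot_isoG (d : ℕ) : Continuous fun p : GG d × SS d => rot (isoG p.1) p.2 := by
  refine Continuous.subtype_mk ?_ _
  simp only [isoG_apply]
  have h1 : Continuous fun p : GG d × SS d => (((p.1⁻¹ : GG d) : EE d →L[ℝ] EE d)) :=
    continuous_subtype_val.comp (continuous_inv.comp continuous_fst)
  exact h1.clm_apply (continuous_subtype_val.comp continuous_snd)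

lemma measurable_rot_isoG (d : ℕ) : Measurable fun p : GG d × SS d => rot (isoG p.1) p.2 :=
  (continuous_rot_isoG d).measurable

lemma continuous_rot_isoG' {d : ℕ} (x : SS d) : Continuous fun g : GG d => rot (isoG g) x :=
  (continuous_rot_isoG d).comp (f := fun g : GG d => (g, x)) (by fun_prop)

lemma measurable_rot_isoG' {d : ℕ} (x : SS d) : Measurable fun g : GG d => rot (isoG g) x :=
  (continuous_rot_isoG' x).measurable

lemma lintegral_rot_const {d : ℕ} (f : SS d → ℝ≥0∞) (x y : SS d) :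
    ∫⁻ g, f (rot (isoG g) x) ∂(muG d) = ∫⁻ g, f (rot (isoG g) y) ∂(muG d) := by
  obtain ⟨φ, hφ⟩ := exists_rot_eq x y
  obtain ⟨h, hh⟩ := exists_isoG d φ.symm
  have h1 : ∀ g : GG d, rot (isoG g) x = rot (isoG (h * g)) y := by
    intro g
    ext1
    rw [coe_rot, coe_rot, isoG_mul, ← hφ, coe_rot, hh]
    simp
  simp_rw [h1]
  exact lintegral_mul_left_eq_self (fun g => f (rot (isoG g) y)) h

lemma lintegral_rot {d : ℕ} (f : SS d → ℝ≥0∞) (hf : Measurable f) (x : SS d) :
    ∫⁻ g, f (rot (isoG g) x) ∂(muG d) = ∫⁻ y, f y ∂(sig d) := by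
  calc ∫⁻ g, f (rot (isoG g) x) ∂(muG d)
      = ∫⁻ y, ∫⁻ g, f (rot (isoG g) y) ∂(muG d) ∂(sig d) := by
        simp_rw [lintegral_rot_const f _ x]
        simp
    _ = ∫⁻ g, ∫⁻ y, f (rot (isoG g) y) ∂(sig d) ∂(muG d) := by
        rw [lintegral_lintegral_swap]
        exact (hf.comp ((measurable_rot_isoG d).comp measurable_swap)).aemeasurable
    _ = ∫⁻ g, ∫⁻ y, f y ∂(sig d) ∂(muG d) := by
        refine lintegral_congr fun g => ?_
        exact (measurePreserving_rot (isoG g)).lintegral_comp hf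
    _ = _ := by simp

lemma map_rot_isoG {d : ℕ} (x : SS d) : (muG d).map (fun g => rot (isoG g) x) = sig d := by
  ext A hA
  rw [Measure.map_apply (measurable_rot_isoG' x) hA,
    ← lintegral_indicator_one (measurable_rot_isoG' x hA),
    ← lintegral_indicator_one hA, ← lintegral_rot _ (measurable_one.indicator hA) x]
  rfl

end Pool.Agent.Lib.MP_1fcdcf_an
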