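import Mathlib

open MeasureTheory Set
open scoped ENNReal NNReal

namespace Pool.Agent.Lib.MP_1fcdcf_an

variable {α : Type*} [MeasurableSpace α]

/-- The sum of `k` over ordered pairs of distinct indices. -/
noncomputable def pairSum {ι : Type*} [Fintype ι] [DecidableEq ι] (k : α × α → ℝ≥0∞) (x : ι → α) :
    ℝ≥0∞ :=
  ∑ i, ∑ j, if i = j then 0 else k (x i, x j)

/-- A pair of measures behaves like the intensity and the pair intensity of a random finite
configuration: all linear inequalities valid for all finite configurations hold. -/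
def Realz (ρ : Measure α) (ρ₂ : Measure (α × α)) : Prop :=
  ∀ (k : α × α → ℝ≥0∞) (f g : α → ℝ≥0∞) (c c' : ℝ≥0∞), Measurable k → Measurable f →
    Measurable g →
    (∀ (n : ℕ) (x : Fin n → α), ∑ i, f (x i) + c ≤ pairSum k x + ∑ i, g (x i) + c') →
    ∫⁻ x, f x ∂ρ + c ≤ ∫⁻ p, k p ∂ρ₂ + ∫⁻ x, g x ∂ρ + c'

omit [MeasurableSpace α] in
lemma pairSum_equiv {ι κ : Type*} [Fintype ι] [DecidableEq ι] [Fintype κ] [DecidableEq κ]
    (e : ι ≃ κ) (k : α × α → ℝ≥0∞) (x : κ → α) : pairSum k (x ∘ e) = pairSum k x := by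
  unfold pairSum
  rw [← e.sum_comp]
  refine Finset.sum_congr rfl fun i _ => ?_
  rw [← e.sum_comp]
  refine Finset.sum_congr rfl fun j _ => ?_
  simp

omit [MeasurableSpace α] in
lemma conf_transfer {k : α × α → ℝ≥0∞} {f g : α → ℝ≥0∞} {c c' : ℝ≥0∞}
    (h : ∀ (n : ℕ) (x : Fin n → α), ∑ i, f (x i) + c ≤ pairSum k x + ∑ i, g (x i) + c')
    {ι : Type*} [Fintype ι] [DecidableEq ι] (x : ι → α) :
    ∑ i, f (x i) + c ≤ pairSum k x + ∑ i, g (x i) + c' := by
  have h1 := h _ (x ∘ (Fintype.equivFin ι).symm)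
  have h2 := (Fintype.equivFin ι).symm.sum_comp (fun i => f (x i))
  have h3 := (Fintype.equivFin ι).symm.sum_comp (fun i => g (x i))
  rw [pairSum_equiv] at h1
  rw [← h2, ← h3]
  exact h1

omit [MeasurableSpace α] in
lemma pairSum_sum {ι κ : Type*} [Fintype ι] [DecidableEq ι] [Fintype κ] [DecidableEq κ]
    (k : α × α → ℝ≥0∞) (x : ι → α) (y : κ → α) :
    pairSum k (Sum.elim x y) = pairSum k x + ∑ i, (∑ j, k (x i, y j) + ∑ j, k (y j, x i)) +
      pairSum k y := by
  unfold pairSum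
  rw [Fintype.sum_sum_type]
  simp only [Fintype.sum_sum_type, Sum.elim_inl, Sum.elim_inr, Sum.inl.injEq, Sum.inr.injEq,
    reduceCtorEq, if_false, Finset.sum_add_distrib]
  rw [Finset.sum_comm (f := fun (x_1 : κ) (x_2 : ι) => k (y x_1, x x_2))]
  ring

lemma Realz.add {ρ ρ' : Measure α} {ρ₂ ρ₂' : Measure (α × α)} [SFinite ρ] [SFinite ρ']
    (h : Realz ρ ρ₂) (h' : Realz ρ' ρ₂') :
    Realz (ρ + ρ') (ρ₂ + ρ₂' + (ρ.prod ρ' + ρ'.prod ρ)) := by
  intro k f g c c' hk hf hg H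
  have hk1 : ∀ y, Measurable fun x => k (x, y) := fun y => hk.comp measurable_prodMk_right
  have hk2 : ∀ y, Measurable fun x => k (y, x) := fun y => hk.comp measurable_prodMk_left
  have key : ∀ (n : ℕ) (y : Fin n → α), ∑ j, f (y j) + (∫⁻ x, f x ∂ρ + c) ≤
      pairSum k y + ∑ j, (g (y j) + (∫⁻ x, k (x, y j) ∂ρ + ∫⁻ x, k (y j, x) ∂ρ)) +
        (∫⁻ p, k p ∂ρ₂ + ∫⁻ x, g x ∂ρ + c') := by
    intro n y
    have h1 := h k f (fun x => g x + (∑ j, k (x, y j) + ∑ j, k (y j, x))) (∑ j, f (y j) + c)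
      (pairSum k y + ∑ j, g (y j) + c') hk hf
      (hg.add ((Finset.measurable_sum _ fun j _ => hk1 _).add
        (Finset.measurable_sum _ fun j _ => hk2 _))) ?_
    · have h2 : ∫⁻ x, (g x + (∑ j, k (x, y j) + ∑ j, k (y j, x))) ∂ρ = ∫⁻ x, g x ∂ρ +
          (∑ j, ∫⁻ x, k (x, y j) ∂ρ + ∑ j, ∫⁻ x, k (y j, x) ∂ρ) := by
        rw [lintegral_add_left hg, lintegral_add_left (Finset.measurable_sum _ fun j _ => hk1 _),
          lintegral_finsetSum _ fun j _ => hk1 _, lintegral_finsetSum _ fun j _ => hk2 _]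
      rw [h2] at h1
      calc ∑ j, f (y j) + (∫⁻ x, f x ∂ρ + c) = ∫⁻ x, f x ∂ρ + (∑ j, f (y j) + c) := by ring
        _ ≤ _ := h1
        _ = _ := by
          simp only [Finset.sum_add_distrib]
          ring
    · intro m x
      have h3 := conf_transfer H (Sum.elim x y)
      rw [Fintype.sum_sum_type, Fintype.sum_sum_type, pairSum_sum] at h3
      simp only [Sum.elim_inl, Sum.elim_inr] at h3
      calc ∑ i, f (x i) + (∑ j, f (y j) + c) = ∑ i, f (x i) + ∑ j, f (y j) + c := by ring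
        _ ≤ _ := h3
        _ = _ := by
          simp only [Finset.sum_add_distrib]
          ring
  have hA : Measurable fun y => ∫⁻ x, k (x, y) ∂ρ := hk.lintegral_prod_left'
  have hB : Measurable fun y => ∫⁻ x, k (y, x) ∂ρ := hk.lintegral_prod_right'
  have h4 := h' k f (fun y => g y + (∫⁻ x, k (x, y) ∂ρ + ∫⁻ x, k (y, x) ∂ρ)) _ _ hk hf
    (hg.add (hA.add hB)) key
  rw [lintegral_add_left hg, lintegral_add_left hA] at h4
  rw [lintegral_add_measure, lintegral_add_measure, lintegral_add_measure, lintegral_add_measure,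
    lintegral_add_measure, lintegral_prod _ hk.aemeasurable, lintegral_prod _ hk.aemeasurable]
  have h5 : ∫⁻ x, ∫⁻ y, k (x, y) ∂ρ' ∂ρ = ∫⁻ y, ∫⁻ x, k (x, y) ∂ρ ∂ρ' :=
    lintegral_lintegral_swap hk.aemeasurable
  rw [h5]
  calc ∫⁻ x, f x ∂ρ + ∫⁻ x, f x ∂ρ' + c = ∫⁻ x, f x ∂ρ' + (∫⁻ x, f x ∂ρ + c) := by ring
    _ ≤ _ := h4
    _ = _ := by ring

lemma Realz.mono {ρ : Measure α} {ρ₂ ρ₂' : Measure (α × α)} (h : Realz ρ ρ₂) (hle : ρ₂ ≤ ρ₂') :
    Realz ρ ρ₂' := by
  intro k f g c c' hk hf hg H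
  refine (h k f g c c' hk hf hg H).trans ?_
  gcongr

lemma Realz.map {β : Type*} [MeasurableSpace β] {ρ : Measure α} {ρ₂ : Measure (α × α)}
    (h : Realz ρ ρ₂) {T : α → β} (hT : Measurable T) :
    Realz (ρ.map T) (ρ₂.map (Prod.map T T)) := by
  intro k f g c c' hk hf hg H
  rw [lintegral_map hf hT, lintegral_map hg hT, lintegral_map hk (hT.prodMap hT)]
  exact h _ _ _ c c' (hk.comp (hT.prodMap hT)) (hf.comp hT) (hg.comp hT) fun n x => H n (T ∘ x)

lemma Realz.single {ρ : Measure α} (hρ : ρ univ ≤ 1) : Realz ρ 0 := by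
  intro k f g c c' hk hf hg H
  have h0 := H 0 Fin.elim0
  simp only [Finset.univ_eq_empty, Finset.sum_empty, zero_add, pairSum] at h0
  have h1 : ∀ x, f x + c ≤ g x + c' := by
    intro x
    have := H 1 (fun _ => x)
    simpa [pairSum] using this
  have h2 : ∀ a : ℝ≥0∞, a = a * ρ univ + a * (1 - ρ univ) := by
    intro a
    rw [← mul_add, add_tsub_cancel_of_le hρ, mul_one]
  calc ∫⁻ x, f x ∂ρ + c = ∫⁻ x, (f x + c) ∂ρ + c * (1 - ρ univ) := by
        rw [lintegral_add_left hf, lintegral_const, add_assoc, ← h2 c]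
    _ ≤ ∫⁻ x, (g x + c') ∂ρ + c' * (1 - ρ univ) :=
        add_le_add (lintegral_mono fun x => h1 x) (mul_le_mul_left h0 _)
    _ = _ := by
        rw [lintegral_add_left hg, lintegral_const, add_assoc, ← h2 c']
        simp

lemma sum_sub {ι : Type*} [Fintype ι] (p : ι → Prop) [DecidablePred p] (F : ι → ℝ≥0∞) :
    ∑ i : {i // p i}, F i = ∑ i, if p i then F i else 0 := by
  rw [← Finset.sum_filter]
  exact (Finset.sum_subtype _ (by simp) _).symm

lemma Realz.restrict {ρ : Measure α} {ρ₂ : Measure (α × α)} (h : Realz ρ ρ₂) {C : Set α}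
    (hC : MeasurableSet C) : Realz (ρ.restrict C) (ρ₂.restrict (C ×ˢ C)) := by
  classical
  intro k f g c c' hk hf hg H
  rw [← lintegral_indicator hC, ← lintegral_indicator hC, ← lintegral_indicator (hC.prod hC)]
  refine h _ _ _ c c' (hk.indicator (hC.prod hC)) (hf.indicator hC) (hg.indicator hC) fun n x => ?_
  have h1 := conf_transfer H (fun i : {i // x i ∈ C} => x i)
  have h2 : ∀ f : α → ℝ≥0∞, ∑ i, C.indicator f (x i) = ∑ i : {i // x i ∈ C}, f (x i) := by
    intro f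
    rw [sum_sub (fun i => x i ∈ C) (fun i => f (x i))]
    rfl
  have h3 : pairSum ((C ×ˢ C).indicator k) x = pairSum k (fun i : {i // x i ∈ C} => x i) := by
    unfold pairSum
    have h4 : ∀ i j : Fin n, (if i = j then (0 : ℝ≥0∞) else (C ×ˢ C).indicator k (x i, x j)) =
        if x i ∈ C then if x j ∈ C then if i = j then 0 else k (x i, x j) else 0 else 0 := by
      intro i j
      by_cases h5 : x i ∈ C <;> by_cases h6 : x j ∈ C <;> simp [Set.indicator, h5, h6]
    simp_rw [h4]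
    have h5 : ∀ i : Fin n, (∑ j, if x i ∈ C then if x j ∈ C then if i = j then (0 : ℝ≥0∞)
        else k (x i, x j) else 0 else 0) =
        if x i ∈ C then ∑ j : {j // x j ∈ C}, (if i = j then 0 else k (x i, x j)) else 0 := by
      intro i
      by_cases h6 : x i ∈ C
      · simp only [h6, if_true]
        rw [sum_sub (fun j => x j ∈ C) (fun j => if i = j then 0 else k (x i, x j))]
      · simp [h6]
    simp_rw [h5]
    rw [← sum_sub (fun i => x i ∈ C)
      (fun i => ∑ j : {j // x j ∈ C}, (if i = (j : Fin n) then 0 else k (x i, x j)))]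
    refine Finset.sum_congr rfl fun i _ => Finset.sum_congr rfl fun j _ => ?_
    simp [Subtype.ext_iff]
  rw [h2, h2, h3]
  exact h1

end Pool.Agent.Lib.MP_1fcdcf_an
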