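import Mathlib
import Pool.Agent.Lib.MP_1fcdcf_an.Realz
import Pool.Agent.Lib.MP_1fcdcf_an.Kernel
import Pool.Agent.Lib.MP_1fcdcf_an.Haar

open MeasureTheory Set
open scoped ENNReal NNReal

namespace Pool.Agent.Lib.MP_1fcdcf_an

lemma ennreal_two_mul_le {m r : ℝ≥0∞} (hm : m ≠ ⊤) (hr : r ≠ ⊤) : 2 * m * r ≤ r * r + m * m := by
  lift m to ℝ≥0 using hm
  lift r to ℝ≥0 using hr
  norm_cast
  have := two_mul_le_add_sq m r
  calc 2 * m * r ≤ m ^ 2 + r ^ 2 := this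
    _ = _ := by ring

/-- The second moment inequality. -/
lemma Realz.sq_le {α : Type*} [MeasurableSpace α] {ρ : Measure α} {ρ₂ : Measure (α × α)}
    (h : Realz ρ ρ₂) {C : Set α} (hC : MeasurableSet C) (hfin : ρ C ≠ ⊤) :
    ρ C * ρ C ≤ ρ₂ (C ×ˢ C) + ρ C := by
  set m := ρ C with hm
  have h1 := h ((C ×ˢ C).indicator 1) (C.indicator fun _ => 2 * m) (C.indicator 1) 0 (m * m)
    (measurable_one.indicator (hC.prod hC)) (measurable_const.indicator hC)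
    (measurable_one.indicator hC) ?_
  · rw [lintegral_indicator hC, lintegral_indicator_one hC, lintegral_indicator_one (hC.prod hC),
      setLIntegral_const, ← hm, add_zero] at h1
    have h2 : m * m + m * m ≤ (ρ₂ (C ×ˢ C) + m) + m * m := by
      calc m * m + m * m = 2 * m * m := by ring
        _ ≤ _ := h1
    exact (ENNReal.add_le_add_iff_right (ENNReal.mul_ne_top hfin hfin)).1 h2
  · intro n x
    have h3 : pairSum ((C ×ˢ C).indicator 1) x + ∑ i, C.indicator 1 (x i) =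
        (∑ i, C.indicator (1 : α → ℝ≥0∞) (x i)) * ∑ i, C.indicator (1 : α → ℝ≥0∞) (x i) := by
      unfold pairSum
      rw [← Finset.sum_add_distrib, Finset.sum_mul_sum]
      refine Finset.sum_congr rfl fun i _ => ?_
      rw [← Finset.add_sum_erase _ _ (Finset.mem_univ i),
        ← Finset.add_sum_erase (a := i) (f := fun j => C.indicator (1 : α → ℝ≥0∞) (x i) *
          C.indicator (1 : α → ℝ≥0∞) (x j)) _ (Finset.mem_univ i)]
      have h4 : C.indicator (1 : α → ℝ≥0∞) (x i) * C.indicator (1 : α → ℝ≥0∞) (x i) =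
          C.indicator (1 : α → ℝ≥0∞) (x i) := by
        by_cases h5 : x i ∈ C <;> simp [h5]
      rw [h4, if_pos rfl, zero_add, add_comm]
      congr 1
      refine Finset.sum_congr rfl fun j hj => ?_
      rw [if_neg (Finset.ne_of_mem_erase hj).symm]
      by_cases h5 : x i ∈ C <;> by_cases h6 : x j ∈ C <;> simp [h5, h6]
    have h4 : ∑ i, C.indicator (fun _ => 2 * m) (x i) =
        2 * m * ∑ i, C.indicator (1 : α → ℝ≥0∞) (x i) := by
      rw [Finset.mul_sum]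
      refine Finset.sum_congr rfl fun i _ => ?_
      by_cases h5 : x i ∈ C <;> simp [h5]
    rw [h3, h4, add_zero]
    set r := ∑ i, C.indicator (1 : α → ℝ≥0∞) (x i) with hr
    have hrfin : r ≠ ⊤ := by
      rw [hr]
      refine (ENNReal.sum_lt_top.2 fun i _ => ?_).ne
      by_cases h5 : x i ∈ C <;> simp [h5]
    exact ennreal_two_mul_le hfin hrfin

section Energy

variable (s : ℝ) {d : ℕ}

/-- The optimal energy for the intensity `ρ`. -/
noncomputable def eR (ρ : Measure (SS d)) : ℝ≥0∞ :=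
  ⨅ ρ₂ : {ρ₂ : Measure (SS d × SS d) // Realz ρ ρ₂}, ∫⁻ p, KK s p.1 p.2 ∂ρ₂.1

/-- The energy of independent points. -/
noncomputable def II (ρ ρ' : Measure (SS d)) : ℝ≥0∞ := ∫⁻ x, ∫⁻ y, KK s x y ∂ρ' ∂ρ

/-- The gain. -/
noncomputable def DD (ρ : Measure (SS d)) : ℝ≥0∞ := II s ρ ρ - eR s ρ

variable {s}

lemma eR_le {ρ : Measure (SS d)} {ρ₂ : Measure (SS d × SS d)} (h : Realz ρ ρ₂) :
    eR s ρ ≤ ∫⁻ p, KK s p.1 p.2 ∂ρ₂ := iInf_le_of_le ⟨ρ₂, h⟩ le_rfl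

lemma le_eR {ρ : Measure (SS d)} {a : ℝ≥0∞}
    (h : ∀ ρ₂, Realz ρ ρ₂ → a ≤ ∫⁻ p, KK s p.1 p.2 ∂ρ₂) : a ≤ eR s ρ :=
  le_iInf fun ρ₂ => h ρ₂.1 ρ₂.2

lemma II_eq {ρ ρ' : Measure (SS d)} [SFinite ρ] [SFinite ρ'] :
    II s ρ ρ' = ∫⁻ p, KK s p.1 p.2 ∂(ρ.prod ρ') := by
  rw [II, lintegral_prod _ (measurable_KK s d).aemeasurable]

lemma II_comm {ρ ρ' : Measure (SS d)} [SFinite ρ] [SFinite ρ'] : II s ρ ρ' = II s ρ' ρ := by
  rw [II, II, lintegral_lintegral_swap (measurable_KK s d).aemeasurable]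
  simp_rw [KK_comm s]

lemma II_add_left (ρ ρ' ρ'' : Measure (SS d)) : II s (ρ + ρ') ρ'' = II s ρ ρ'' + II s ρ' ρ'' := by
  simp [II]

lemma measurable_lintegral_KK (ρ : Measure (SS d)) [SFinite ρ] :
    Measurable fun x : SS d => ∫⁻ y, KK s x y ∂ρ :=
  (measurable_KK s d).lintegral_prod_right'

lemma II_add_right (ρ ρ' ρ'' : Measure (SS d)) [SFinite ρ'] :
    II s ρ (ρ' + ρ'') = II s ρ ρ' + II s ρ ρ'' := by
  simp only [II, lintegral_add_measure]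
  rw [lintegral_add_left (measurable_lintegral_KK ρ')]

lemma II_mono {ρ ρ' μ μ' : Measure (SS d)} (h : ρ ≤ μ) (h' : ρ' ≤ μ') :
    II s ρ ρ' ≤ II s μ μ' := by
  unfold II
  gcongr

lemma eR_add_le (ρ ρ' : Measure (SS d)) [SFinite ρ] [SFinite ρ'] :
    eR s (ρ + ρ') ≤ eR s ρ + eR s ρ' + 2 * II s ρ ρ' := by
  have h1 : ∀ ρ₂ ρ₂', Realz ρ ρ₂ → Realz ρ' ρ₂' → eR s (ρ + ρ') ≤
      ∫⁻ p, KK s p.1 p.2 ∂ρ₂ + ∫⁻ p, KK s p.1 p.2 ∂ρ₂' + 2 * II s ρ ρ' := by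
    intro ρ₂ ρ₂' h h'
    refine (eR_le (h.add h')).trans ?_
    rw [lintegral_add_measure, lintegral_add_measure, lintegral_add_measure, ← II_eq, ← II_eq,
      II_comm (ρ := ρ') (ρ' := ρ), two_mul]
  have h2 : ∀ ρ₂', Realz ρ' ρ₂' → eR s (ρ + ρ') ≤
      eR s ρ + ∫⁻ p, KK s p.1 p.2 ∂ρ₂' + 2 * II s ρ ρ' := by
    intro ρ₂' h'
    rw [eR, eR, ENNReal.iInf_add, ENNReal.iInf_add]
    exact le_iInf fun ρ₂ => h1 _ _ ρ₂.2 h'
  rw [add_right_comm, eR, eR, eR, ENNReal.add_iInf]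
  refine le_iInf fun ρ₂' => ?_
  have := h2 _ ρ₂'.2
  rw [add_right_comm] at this
  exact this

lemma eR_restrict_le (ρ : Measure (SS d)) {C : Set (SS d)} (hC : MeasurableSet C) :
    eR s (ρ.restrict C) ≤ eR s ρ := by
  refine le_eR fun ρ₂ h => (eR_le (h.restrict hC)).trans ?_
  exact lintegral_mono' Measure.restrict_le_self le_rfl

lemma eR_le_zero_of_single {ρ : Measure (SS d)} (h : ρ univ ≤ 1) : eR s ρ = 0 := by
  have := eR_le (s := s) (Realz.single h)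
  simpa using this

/-- Independent points: `e ≤ I`. -/
lemma eR_le_II (ρ : Measure (SS d)) [IsFiniteMeasure ρ] : eR s ρ ≤ II s ρ ρ := by
  obtain ⟨k, hk⟩ := exists_nat_gt (ρ univ).toReal
  have hk0 : k ≠ 0 := by
    rintro rfl
    exact absurd hk (not_lt.2 (by simp))
  have hk1 : (k : ℝ≥0∞) ≠ 0 := by exact_mod_cast hk0
  have hk2 : (k : ℝ≥0∞) ≠ ⊤ := ENNReal.natCast_ne_top k
  set μ : Measure (SS d) := (k : ℝ≥0∞)⁻¹ • ρ with hμ
  have hfin : IsFiniteMeasure μ := by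
    rw [hμ]
    exact Measure.smul_finite _ (ENNReal.inv_ne_top.2 hk1)
  have hμ1 : μ univ ≤ 1 := by
    rw [hμ, Measure.smul_apply, smul_eq_mul]
    calc (k : ℝ≥0∞)⁻¹ * ρ univ ≤ (k : ℝ≥0∞)⁻¹ * k := by
          gcongr
          rw [← ENNReal.ofReal_toReal (measure_ne_top ρ univ), ← ENNReal.ofReal_natCast]
          exact ENNReal.ofReal_le_ofReal hk.le
      _ = 1 := ENNReal.inv_mul_cancel hk1 hk2
  have h1 : ∀ j : ℕ, eR s ((j : ℝ≥0∞) • μ) ≤ (j : ℝ≥0∞) ^ 2 * II s μ μ := by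
    intro j
    induction j with
    | zero =>
      simp only [Nat.cast_zero, zero_smul]
      rw [eR_le_zero_of_single (by simp)]
      exact zero_le
    | succ j ih =>
      have hj : IsFiniteMeasure ((j : ℝ≥0∞) • μ) := Measure.smul_finite _ (ENNReal.natCast_ne_top j)
      have e1 : ((j + 1 : ℕ) : ℝ≥0∞) • μ = (j : ℝ≥0∞) • μ + μ := by
        push_cast
        rw [add_smul, one_smul]
      rw [e1]
      refine (eR_add_le _ _).trans ?_
      rw [eR_le_zero_of_single hμ1, add_zero]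
      have e2 : II s ((j : ℝ≥0∞) • μ) μ = j * II s μ μ := by
        simp [II]
      rw [e2]
      calc eR s ((j : ℝ≥0∞) • μ) + 2 * (j * II s μ μ) ≤
            (j : ℝ≥0∞) ^ 2 * II s μ μ + 2 * (j * II s μ μ) := by gcongr
        _ ≤ (j : ℝ≥0∞) ^ 2 * II s μ μ + 2 * (j * II s μ μ) + II s μ μ := le_self_add
        _ = _ := by push_cast; ring
  have h2 := h1 k
  have h3 : (k : ℝ≥0∞) • μ = ρ := by
    rw [hμ, smul_smul, ENNReal.mul_inv_cancel hk1 hk2, one_smul]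
  have h4 : (k : ℝ≥0∞) ^ 2 * II s μ μ = II s ρ ρ := by
    have : II s ρ ρ = II s ((k : ℝ≥0∞) • μ) ((k : ℝ≥0∞) • μ) := by rw [h3]
    rw [this]
    simp only [II, lintegral_smul_measure, smul_eq_mul]
    rw [lintegral_const_mul _ (measurable_lintegral_KK μ)]
    ring
  rw [h3, h4] at h2
  exact h2

lemma DD_add_eR (ρ : Measure (SS d)) [IsFiniteMeasure ρ] : DD s ρ + eR s ρ = II s ρ ρ :=
  tsub_add_cancel_of_le (eR_le_II ρ)

lemma DD_le_II (ρ : Measure (SS d)) : DD s ρ ≤ II s ρ ρ := tsub_le_self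

lemma DD_add_le (ρ ρ' : Measure (SS d)) [IsFiniteMeasure ρ] [IsFiniteMeasure ρ']
    (hfin : II s (ρ + ρ') (ρ + ρ') ≠ ⊤) : DD s ρ + DD s ρ' ≤ DD s (ρ + ρ') := by
  have h0 : eR s (ρ + ρ') ≠ ⊤ := ne_top_of_le_ne_top hfin (eR_le_II _)
  refine ENNReal.le_sub_of_add_le_right h0 ?_
  calc DD s ρ + DD s ρ' + eR s (ρ + ρ')
      ≤ DD s ρ + DD s ρ' + (eR s ρ + eR s ρ' + 2 * II s ρ ρ') := by gcongr; exact eR_add_le _ _
    _ = (DD s ρ + eR s ρ) + (DD s ρ' + eR s ρ') + 2 * II s ρ ρ' := by ring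
    _ = II s ρ ρ + II s ρ' ρ' + 2 * II s ρ ρ' := by rw [DD_add_eR, DD_add_eR]
    _ = II s (ρ + ρ') (ρ + ρ') := by
        rw [II_add_left, II_add_right, II_add_right, II_comm (ρ := ρ') (ρ' := ρ)]
        ring

end Energy

end Pool.Agent.Lib.MP_1fcdcf_an
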