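import Mathlib
import Pool.Agent.Lib.MP_1fcdcf_an.Energy

open MeasureTheory Set
open scoped ENNReal NNReal

namespace Pool.Agent.Lib.MP_1fcdcf_an

section

variable {s : ℝ} {d : ℕ}

/-- The constant `gam ^ s`. -/
noncomputable def Gc (s : ℝ) (d : ℕ) : ℝ≥0∞ := ENNReal.ofReal (gam d ^ s)

lemma tsum_shift (f : ℕ → ℝ≥0∞) (n : ℕ) :
    ∑' j, f (j + n) = ∑' k, if n ≤ k then f k else 0 := by
  have h0 : Function.support (fun k => if n ≤ k then f k else (0 : ℝ≥0∞)) ⊆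
      Set.range (fun j : ℕ => j + n) := by
    intro k hk
    simp only [Function.mem_support, ne_eq, ite_eq_right_iff, not_forall] at hk
    exact ⟨k - n, Nat.sub_add_cancel hk.1⟩
  have h1 := Function.Injective.tsum_eq (add_left_injective n) h0
  rw [← h1]
  simp

/-- Weights. -/
structure Wts (s : ℝ) where
  F : Finset ℕ
  ν : ℕ → ℝ≥0∞
  A : ℝ≥0∞
  h : ℕ → ℝ≥0∞
  eq : ∀ k, A * acE s k = h k + ∑ n ∈ F.filter (· ≤ k), ν n * acE s (k - n)

lemma Wts.kernel_eq (hs : 0 < s) (W : Wts s) (x y : SS d) :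
    W.A * KK s x y = ∑ n ∈ W.F, W.ν n * (KK s x y * uu x y ^ n) +
      Gc s d * ∑' k, W.h k * uu x y ^ k := by
  have h1 : ∀ n, KK s x y * uu x y ^ n =
      Gc s d * ∑' k, if n ≤ k then acE s (k - n) * uu x y ^ k else 0 := by
    intro n
    rw [KK_eq hs, mul_assoc, ← ENNReal.tsum_mul_right, Gc]
    congr 1
    rw [← tsum_shift (fun k => acE s (k - n) * uu x y ^ k) n]
    refine tsum_congr fun j => ?_
    rw [Nat.add_sub_cancel, pow_add, mul_assoc]
  simp_rw [h1]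
  rw [KK_eq hs]
  have h2 : ∑ n ∈ W.F, W.ν n * (Gc s d * ∑' k, if n ≤ k then acE s (k - n) * uu x y ^ k else 0) =
      Gc s d * ∑' k, (∑ n ∈ W.F.filter (· ≤ k), W.ν n * acE s (k - n)) * uu x y ^ k := by
    have h3 : ∀ k, (∑ n ∈ W.F.filter (· ≤ k), W.ν n * acE s (k - n)) * uu x y ^ k =
        ∑ n ∈ W.F, W.ν n * if n ≤ k then acE s (k - n) * uu x y ^ k else 0 := by
      intro k
      rw [Finset.sum_filter, Finset.sum_mul]
      refine Finset.sum_congr rfl fun n _ => ?_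
      split_ifs <;> ring
    simp_rw [h3]
    rw [Summable.tsum_finsetSum fun n _ => ENNReal.summable, Finset.mul_sum]
    refine Finset.sum_congr rfl fun n _ => ?_
    rw [ENNReal.tsum_mul_left]
    ring
  rw [h2, ← mul_add, ← ENNReal.tsum_add, mul_left_comm, ← ENNReal.tsum_mul_left, Gc]
  congr 1
  refine tsum_congr fun k => ?_
  rw [← mul_assoc, W.eq k]
  ring

/-- Integrals of `u ^ k`. -/
noncomputable def Uk (ρ : Measure (SS d)) (k : ℕ) : ℝ≥0∞ := ∫⁻ p, uu p.1 p.2 ^ k ∂(ρ.prod ρ)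

/-- The error term. -/
noncomputable def Err (W : Wts s) (ρ : Measure (SS d)) (k₀ : ℕ) : ℝ≥0∞ :=
  Gc s d * ∑' k, if k < k₀ then W.h k * ρ univ else W.h k * Uk ρ k

lemma measurable_uu_pow (k : ℕ) : Measurable fun p : SS d × SS d => uu p.1 p.2 ^ k :=
  (measurable_uu d).pow_const k

lemma Uk_le {ρ : Measure (SS d)} {ρ₂ : Measure (SS d × SS d)} [IsFiniteMeasure ρ] [SFinite ρ₂]
    (h : Realz ρ ρ₂) (k : ℕ) : Uk ρ k ≤ ∫⁻ p, uu p.1 p.2 ^ k ∂ρ₂ + ρ univ := by
  have h1 := lintegral_cells (n := k) (ρ.prod ρ) (f := fun _ => 1) measurable_const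
  have h2 := lintegral_cells (n := k) ρ₂ (f := fun _ => 1) measurable_const
  simp only [one_mul, lintegral_const, Measure.restrict_apply_univ] at h1 h2
  rw [Uk, ← h1, ← h2]
  have h3 : ∀ ω : Fin k → HH d, ρ univ = ∑ ε : Fin k → Bool, ρ (cell ω ε) := by
    intro ω
    rw [← measure_biUnion_finset]
    · congr 1
      ext x
      simp [mem_cell]
    · intro ε _ ε' _ hne
      refine Set.disjoint_left.2 fun x hx hx' => hne ?_
      rw [mem_cell] at hx hx'
      rw [← hx, ← hx']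
    · exact fun ε _ => measurableSet_cell ω ε
  have h4 : ρ univ = ∫⁻ ω : Fin k → HH d, ∑ ε : Fin k → Bool, ρ (cell ω ε) ∂(piHn d k) := by
    rw [lintegral_congr fun ω => (h3 ω).symm]
    simp
  have h5 : Measurable fun ω : Fin k → HH d => ∑ ε : Fin k → Bool, ρ (cell ω ε) := by
    simp_rw [← h3]
    exact measurable_const
  rw [h4, ← lintegral_add_right _ h5]
  refine lintegral_mono fun ω => ?_
  rw [← Finset.sum_add_distrib]
  refine Finset.sum_le_sum fun ε _ => ?_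
  rw [Measure.prod_prod]
  exact h.sq_le (measurableSet_cell ω ε) (measure_ne_top _ _)

lemma KK_ge (hs : 0 < s) (x y : SS d) : ENNReal.ofReal (2 ^ (-s)) ≤ KK s x y := by
  rcases eq_or_ne x y with rfl | hxy
  · rw [KK_self hs]; exact le_top
  · rw [KK_of_ne hxy]
    apply ENNReal.ofReal_le_ofReal
    exact Real.rpow_le_rpow_of_nonpos (dist_pos.2 hxy) (dist_le_two x y) (by linarith)

lemma finite_of_energy (hs : 0 < s) {ρ₂ : Measure (SS d × SS d)}
    (h : ∫⁻ p, KK s p.1 p.2 ∂ρ₂ ≠ ⊤) : IsFiniteMeasure ρ₂ := by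
  refine ⟨?_⟩
  have h1 : ENNReal.ofReal (2 ^ (-s)) * ρ₂ univ ≤ ∫⁻ p, KK s p.1 p.2 ∂ρ₂ := by
    calc ENNReal.ofReal (2 ^ (-s)) * ρ₂ univ = ∫⁻ p, ENNReal.ofReal (2 ^ (-s)) ∂ρ₂ := by
          rw [lintegral_const]
      _ ≤ _ := lintegral_mono fun p => KK_ge hs _ _
  have h2 : ENNReal.ofReal ((2 : ℝ) ^ (-s)) ≠ 0 := by
    simp only [ne_eq, ENNReal.ofReal_eq_zero, not_le]
    positivity
  rw [lt_top_iff_ne_top]
  intro h3
  rw [h3, ENNReal.mul_top h2, top_le_iff] at h1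
  exact h h1

/-- The sum over the cells of the optimal energies. -/
noncomputable def cellE (s : ℝ) (ρ : Measure (SS d)) {n : ℕ} (ω : Fin n → HH d) : ℝ≥0∞ :=
  ∑ ε : Fin n → Bool, eR s (ρ.restrict (cell ω ε))

lemma lower_aux (hs : 0 < s) (W : Wts s) {ρ : Measure (SS d)} [IsFiniteMeasure ρ]
    {ρ₂ : Measure (SS d × SS d)} (h : Realz ρ ρ₂) (hA : W.A ≠ 0) (k₀ : ℕ) :
    ∑ n ∈ W.F, W.ν n * ∫⁻ ω, cellE s ρ ω ∂(piHn d n) + Gc s d * ∑' k, W.h k * Uk ρ k ≤
      W.A * ∫⁻ p, KK s p.1 p.2 ∂ρ₂ + Err W ρ k₀ := by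
  rcases eq_or_ne (∫⁻ p, KK s p.1 p.2 ∂ρ₂) ⊤ with htop | htop
  · rw [htop, ENNReal.mul_top hA, top_add]
    exact le_top
  have := finite_of_energy hs htop
  have hm : ∀ n, Measurable fun p : SS d × SS d => KK s p.1 p.2 * uu p.1 p.2 ^ n := fun n =>
    (measurable_KK s d).mul (measurable_uu_pow n)
  have h1 : W.A * ∫⁻ p, KK s p.1 p.2 ∂ρ₂ =
      ∑ n ∈ W.F, W.ν n * ∫⁻ p, KK s p.1 p.2 * uu p.1 p.2 ^ n ∂ρ₂ +
      Gc s d * ∑' k, W.h k * ∫⁻ p, uu p.1 p.2 ^ k ∂ρ₂ := by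
    rw [← lintegral_const_mul _ (measurable_KK s d)]
    simp_rw [W.kernel_eq hs]
    rw [lintegral_add_left, lintegral_finsetSum, lintegral_const_mul, lintegral_tsum]
    · congr 1
      · refine Finset.sum_congr rfl fun n _ => ?_
        rw [lintegral_const_mul _ (hm n)]
      · congr 1
        refine tsum_congr fun k => ?_
        rw [lintegral_const_mul _ (measurable_uu_pow k)]
    · exact fun k => ((measurable_uu_pow k).const_mul _).aemeasurable
    · exact Measurable.tsum fun k => (measurable_uu_pow k).const_mul _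
    · exact fun n _ => (hm n).const_mul _
    · exact Finset.measurable_sum _ fun n _ => (hm n).const_mul _
  have h2 : ∀ n, ∫⁻ ω, cellE s ρ ω ∂(piHn d n) ≤ ∫⁻ p, KK s p.1 p.2 * uu p.1 p.2 ^ n ∂ρ₂ := by
    intro n
    rw [← lintegral_cells ρ₂ (measurable_KK s d)]
    refine lintegral_mono fun ω => ?_
    refine Finset.sum_le_sum fun ε _ => ?_
    exact eR_le (h.restrict (measurableSet_cell ω ε))
  rw [h1, Err, add_assoc, ← mul_add, ← ENNReal.tsum_add]
  gcongr with n _ k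
  · exact h2 n
  · split_ifs with hk
    · rw [← mul_add]
      gcongr
      exact Uk_le h k
    · exact le_add_self

end

end Pool.Agent.Lib.MP_1fcdcf_an
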