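import Mathlib
import Pool.Agent.Lib.MP_1fcdcf_an.Lower
import Pool.Agent.Lib.MP_1fcdcf_an.Geom3

open MeasureTheory Set
open scoped ENNReal NNReal

namespace Pool.Agent.Lib.MP_1fcdcf_an

lemma rpow_tangent {β : ℝ} (hβ : 0 < β) (k : ℕ) (hk : 1 ≤ k) :
    ((k : ℝ) + 1) ^ (-1 - β) ≤ β⁻¹ * ((k : ℝ) ^ (-β) - ((k : ℝ) + 1) ^ (-β)) := by
  have hk0 : (0 : ℝ) < k := by exact_mod_cast hk
  have hk1 : (0 : ℝ) < (k : ℝ) + 1 := by positivity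
  have h1 : 1 + β * ((k : ℝ) + 1)⁻¹ ≤ (k / ((k : ℝ) + 1)) ^ (-β) := by
    have h2 : Real.log (k / ((k : ℝ) + 1)) ≤ -((k : ℝ) + 1)⁻¹ := by
      have h3 := Real.log_le_sub_one_of_pos (show 0 < (k : ℝ) / (k + 1) by positivity)
      have h4 : (k : ℝ) / (k + 1) - 1 = -((k : ℝ) + 1)⁻¹ := by field_simp; ring
      linarith
    rw [Real.rpow_def_of_pos (by positivity)]
    have h5 : β * ((k : ℝ) + 1)⁻¹ ≤ Real.log (k / ((k : ℝ) + 1)) * -β := by nlinarith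
    linarith [Real.add_one_le_exp (Real.log (k / ((k : ℝ) + 1)) * -β)]
  rw [Real.div_rpow hk0.le hk1.le, le_div_iff₀ (by positivity)] at h1
  rw [le_inv_mul_iff₀ hβ]
  have h6 : ((k : ℝ) + 1) ^ (-1 - β) = ((k : ℝ) + 1)⁻¹ * ((k : ℝ) + 1) ^ (-β) := by
    rw [sub_eq_add_neg, Real.rpow_add hk1, Real.rpow_neg_one]
  rw [h6]
  linarith

lemma sum_tail_le {β : ℝ} (hβ : 0 < β) (k₀ : ℕ) (hk : 1 ≤ k₀) (n : ℕ) :
    ∑ j ∈ Finset.range n, ((k₀ + j : ℕ) + 1 : ℝ) ^ (-1 - β) ≤ β⁻¹ * (k₀ : ℝ) ^ (-β) := by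
  have h1 : ∑ j ∈ Finset.range n, ((k₀ + j : ℕ) + 1 : ℝ) ^ (-1 - β) ≤
      β⁻¹ * ((k₀ : ℝ) ^ (-β) - ((k₀ + n : ℕ) : ℝ) ^ (-β)) := by
    induction n with
    | zero => simp
    | succ n ih =>
      rw [Finset.sum_range_succ]
      have h2 := rpow_tangent hβ (k₀ + n) (by omega)
      have h3 : ((k₀ + (n + 1) : ℕ) : ℝ) = ((k₀ + n : ℕ) : ℝ) + 1 := by push_cast; ring
      rw [h3]
      linarith
  refine h1.trans ?_
  have : 0 ≤ β⁻¹ * ((k₀ + n : ℕ) : ℝ) ^ (-β) := by positivity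
  linarith

lemma tsum_tail_le {β : ℝ} (hβ : 0 < β) (k₀ : ℕ) (hk : 1 ≤ k₀) :
    ∑' j : ℕ, ENNReal.ofReal (((k₀ + j : ℕ) + 1 : ℝ) ^ (-1 - β)) ≤
      ENNReal.ofReal (β⁻¹ * (k₀ : ℝ) ^ (-β)) := by
  rw [ENNReal.tsum_eq_iSup_nat]
  refine iSup_le fun n => ?_
  rw [← ENNReal.ofReal_sum_of_nonneg fun j _ => by positivity]
  exact ENNReal.ofReal_le_ofReal (sum_tail_le hβ k₀ hk n)

section

variable {s : ℝ} {d : ℕ}

lemma Uk_le_of_le {ρ : Measure (SS d)} [IsFiniteMeasure ρ] {N : ℕ}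
    (hρ : ρ ≤ (N : ℝ≥0∞) • sig d) (k : ℕ) :
    Uk ρ k ≤ ρ univ * (N * (CU d * ENNReal.ofReal ((((k : ℝ) + 1) ^ d)⁻¹))) := by
  rw [Uk, lintegral_prod _ (measurable_uu_pow k).aemeasurable]
  calc ∫⁻ x, ∫⁻ y, uu x y ^ k ∂ρ ∂ρ ≤ ∫⁻ x, ∫⁻ y, uu x y ^ k ∂((N : ℝ≥0∞) • sig d) ∂ρ := by
        gcongr
    _ = ∫⁻ x, N * ∫⁻ y, uu x y ^ k ∂(sig d) ∂ρ := by
        simp only [lintegral_smul_measure, smul_eq_mul]
    _ ≤ ∫⁻ x, N * (CU d * ENNReal.ofReal ((((k : ℝ) + 1) ^ d)⁻¹)) ∂ρ := by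
        gcongr with x
        exact lintegral_uu_pow_le x k
    _ = _ := by rw [lintegral_const, mul_comm]

/-- The cutoff. -/
noncomputable def k0 (d N : ℕ) : ℕ := ⌈(N : ℝ) ^ ((d : ℝ)⁻¹)⌉₊

lemma k0_ge (d N : ℕ) : (N : ℝ) ^ ((d : ℝ)⁻¹) ≤ k0 d N := Nat.le_ceil _

lemma one_le_root {d N : ℕ} (hN : 1 ≤ N) : 1 ≤ (N : ℝ) ^ ((d : ℝ)⁻¹) :=
  Real.one_le_rpow (by exact_mod_cast hN) (by positivity)

lemma k0_le {d N : ℕ} (hN : 1 ≤ N) : (k0 d N : ℝ) ≤ 2 * (N : ℝ) ^ ((d : ℝ)⁻¹) := by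
  have h1 := one_le_root (d := d) hN
  have h2 := Nat.ceil_lt_add_one (show 0 ≤ (N : ℝ) ^ ((d : ℝ)⁻¹) by positivity)
  rw [k0]
  linarith

lemma k0_pos {d N : ℕ} (hN : 1 ≤ N) : 1 ≤ k0 d N := by
  have h1 := one_le_root (d := d) hN
  have h2 := k0_ge d N
  have : (1 : ℝ) ≤ k0 d N := h1.trans h2
  exact_mod_cast this

/-- The constant in the error estimate. -/
noncomputable def CE (s : ℝ) (d : ℕ) : ℝ≥0∞ :=
  Gc s d * (ENNReal.ofReal (Real.exp s * 2 ^ s) +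
    CU d * ENNReal.ofReal (s * Real.exp s * (1 + ((d : ℝ) - s)⁻¹)))

lemma CE_ne_top (s : ℝ) (d : ℕ) : CE s d ≠ ⊤ := by
  refine ENNReal.mul_ne_top ENNReal.ofReal_ne_top ?_
  refine ENNReal.add_ne_top.2 ⟨ENNReal.ofReal_ne_top, ?_⟩
  exact ENNReal.mul_ne_top (CU_ne_top d) ENNReal.ofReal_ne_top

lemma ac_mul_le (hs : 0 < s) (k : ℕ) (hk : 1 ≤ k) :
    ac s k * (((k : ℝ) + 1) ^ d)⁻¹ ≤ s * Real.exp s * (k : ℝ) ^ (-1 - ((d : ℝ) - s)) := by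
  obtain ⟨j, rfl⟩ : ∃ j, k = j + 1 := ⟨k - 1, by omega⟩
  have h1 := ac_le_rpow' hs j
  have hj : (0 : ℝ) < (j : ℝ) + 1 := by positivity
  have h2 : ((((j + 1 : ℕ) : ℝ) + 1) ^ d)⁻¹ ≤ (((j : ℝ) + 1) ^ d)⁻¹ := by
    apply inv_anti₀ (by positivity)
    push_cast
    gcongr
    linarith
  calc ac s (j + 1) * ((((j + 1 : ℕ) : ℝ) + 1) ^ d)⁻¹
      ≤ (s * Real.exp s * ((j : ℝ) + 1) ^ (s - 1)) * (((j : ℝ) + 1) ^ d)⁻¹ := by
        apply mul_le_mul h1 h2 (by positivity) (by positivity)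
    _ = _ := by
        rw [mul_assoc]
        congr 1
        rw [← Real.rpow_natCast ((j : ℝ) + 1) d, ← Real.rpow_neg hj.le, ← Real.rpow_add hj]
        push_cast
        congr 1
        ring

lemma sum_split (W : Wts s) (ρ : Measure (SS d)) (K : ℕ) :
    ∑' k, (if k < K then W.h k * ρ univ else W.h k * Uk ρ k) =
      ∑ k ∈ Finset.range K, W.h k * ρ univ + ∑' j, W.h (K + j) * Uk ρ (K + j) := by
  have h := Summable.sum_add_tsum_nat_add' (k := K)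
    (f := fun k => (if k < K then W.h k * ρ univ else W.h k * Uk ρ k)) ENNReal.summable
  rw [← h]
  congr 1
  · refine Finset.sum_congr rfl fun k hk => ?_
    rw [if_pos (Finset.mem_range.1 hk)]
  · refine tsum_congr fun j => ?_
    rw [if_neg (by omega), add_comm j K]

lemma k0_rpow_le (hs : 0 < s) {N : ℕ} (hN : 1 ≤ N) :
    ac (s + 1) (k0 d N - 1) ≤ (Real.exp s * 2 ^ s) * (N : ℝ) ^ (s / d) := by
  have hK1 : 1 ≤ k0 d N := k0_pos hN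
  have hN0 : (0 : ℝ) < N := by exact_mod_cast hN
  refine (ac_le_rpow hs (k0 d N - 1)).trans ?_
  rw [mul_assoc]
  gcongr
  have e3 : ((k0 d N - 1 : ℕ) : ℝ) + 1 = k0 d N := by
    rw [Nat.cast_sub hK1]; push_cast; ring
  rw [e3]
  calc (k0 d N : ℝ) ^ s ≤ (2 * (N : ℝ) ^ ((d : ℝ)⁻¹)) ^ s := by
        gcongr
        exact k0_le hN
    _ = _ := by
        rw [Real.mul_rpow (by norm_num) (by positivity), ← Real.rpow_mul hN0.le]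
        congr 2
        field_simp

lemma first_le (hs : 0 < s) (W : Wts s) {ρ : Measure (SS d)}
    {N : ℕ} (hN : 1 ≤ N) {δ : ℝ≥0∞}
    (h1 : ∑ k ∈ Finset.range (k0 d N), W.h k ≤ δ * acE (s + 1) (k0 d N - 1)) :
    ∑ k ∈ Finset.range (k0 d N), W.h k * ρ univ ≤
      δ * ENNReal.ofReal (Real.exp s * 2 ^ s) * ENNReal.ofReal ((N : ℝ) ^ (s / d)) * ρ univ := by
  rw [← Finset.sum_mul]
  refine mul_le_mul_left ?_ _
  refine h1.trans ?_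
  rw [mul_assoc]
  refine mul_le_mul_right ?_ _
  rw [← ENNReal.ofReal_mul (by positivity), acE]
  exact ENNReal.ofReal_le_ofReal (k0_rpow_le hs hN)

lemma tail_sum_le {β : ℝ} (hβ : 0 < β) (K : ℕ) (hK : 1 ≤ K) :
    ∑' j : ℕ, ENNReal.ofReal (((K + j : ℕ) : ℝ) ^ (-1 - β)) ≤
        ENNReal.ofReal ((1 + β⁻¹) * (K : ℝ) ^ (-β)) := by
  rw [tsum_eq_zero_add' ENNReal.summable]
  have e7 : ∑' j : ℕ, ENNReal.ofReal (((K + (j + 1) : ℕ) : ℝ) ^ (-1 - β)) ≤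
      ENNReal.ofReal (β⁻¹ * (K : ℝ) ^ (-β)) := by
    refine le_trans (le_of_eq ?_) (tsum_tail_le hβ K hK)
    refine tsum_congr fun j => ?_
    push_cast
    rw [add_assoc]
  have e8 : ENNReal.ofReal (((K + 0 : ℕ) : ℝ) ^ (-1 - β)) ≤ ENNReal.ofReal ((K : ℝ) ^ (-β)) := by
    apply ENNReal.ofReal_le_ofReal
    rw [add_zero]
    apply Real.rpow_le_rpow_of_exponent_le (by exact_mod_cast hK)
    linarith
  refine (add_le_add e8 e7).trans (le_of_eq ?_)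
  rw [← ENNReal.ofReal_add (by positivity) (by positivity)]
  congr 1
  ring

lemma N_mul_le (hsd : s < d) (hd : (0 : ℝ) < d) {N : ℕ} (hN : 1 ≤ N) :
    (N : ℝ≥0∞) * ENNReal.ofReal ((1 + ((d : ℝ) - s)⁻¹) * (k0 d N : ℝ) ^ (-((d : ℝ) - s))) ≤
        ENNReal.ofReal (1 + ((d : ℝ) - s)⁻¹) * ENNReal.ofReal ((N : ℝ) ^ (s / d)) := by
  have hN0 : (0 : ℝ) < N := by exact_mod_cast hN
  have hβ0 : 0 < (d : ℝ) - s := by linarith
  rw [← ENNReal.ofReal_natCast N, ← ENNReal.ofReal_mul hN0.le, ← ENNReal.ofReal_mul (by positivity)]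
  apply ENNReal.ofReal_le_ofReal
  have e10 : (k0 d N : ℝ) ^ (-((d : ℝ) - s)) ≤ ((N : ℝ) ^ ((d : ℝ)⁻¹)) ^ (-((d : ℝ) - s)) :=
    Real.rpow_le_rpow_of_nonpos (by positivity) (k0_ge d N) (by linarith)
  have e11 : (N : ℝ) * ((N : ℝ) ^ ((d : ℝ)⁻¹)) ^ (-((d : ℝ) - s)) = (N : ℝ) ^ (s / d) := by
    rw [← Real.rpow_mul hN0.le]
    nth_rewrite 1 [← Real.rpow_one (N : ℝ)]
    rw [← Real.rpow_add hN0]
    congr 1
    field_simp
    ring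
  calc (N : ℝ) * ((1 + ((d : ℝ) - s)⁻¹) * (k0 d N : ℝ) ^ (-((d : ℝ) - s)))
      = (1 + ((d : ℝ) - s)⁻¹) * (N * (k0 d N : ℝ) ^ (-((d : ℝ) - s))) := by ring
    _ ≤ (1 + ((d : ℝ) - s)⁻¹) * (N * ((N : ℝ) ^ ((d : ℝ)⁻¹)) ^ (-((d : ℝ) - s))) := by
        gcongr
    _ = _ := by rw [e11]

lemma tail_term_le (hs : 0 < s) (W : Wts s) {ρ : Measure (SS d)} [IsFiniteMeasure ρ]
    {N : ℕ} (hρ : ρ ≤ (N : ℝ≥0∞) • sig d) {δ : ℝ≥0∞} (k : ℕ) (hk : 1 ≤ k)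
    (h2 : W.h k ≤ δ * acE s k) :
    W.h k * Uk ρ k ≤ (δ * ρ univ * N * CU d *
        ENNReal.ofReal (s * Real.exp s)) * ENNReal.ofReal ((k : ℝ) ^ (-1 - ((d : ℝ) - s))) := by
  have hk0 : (0 : ℝ) < k := by exact_mod_cast hk
  calc W.h k * Uk ρ k ≤ (δ * acE s k) * (ρ univ * (N * (CU d *
        ENNReal.ofReal ((((k : ℝ) + 1) ^ d)⁻¹)))) := mul_le_mul' h2 (Uk_le_of_le hρ _)
    _ = (δ * ρ univ * N * CU d) *
        ENNReal.ofReal (ac s k * (((k : ℝ) + 1) ^ d)⁻¹) := by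
        rw [ENNReal.ofReal_mul (ac_nonneg hs _), acE]
        ring
    _ ≤ (δ * ρ univ * N * CU d) *
        ENNReal.ofReal (s * Real.exp s * (k : ℝ) ^ (-1 - ((d : ℝ) - s))) := by
        refine mul_le_mul_right (ENNReal.ofReal_le_ofReal ?_) _
        exact ac_mul_le hs _ hk
    _ = _ := by
        rw [ENNReal.ofReal_mul (by positivity)]
        ring

lemma second_le (hs : 0 < s) (hsd : s < d) (W : Wts s) {ρ : Measure (SS d)} [IsFiniteMeasure ρ]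
    {N : ℕ} (hN : 1 ≤ N) (hρ : ρ ≤ (N : ℝ≥0∞) • sig d) {δ : ℝ≥0∞}
    (h2 : ∀ k, k0 d N ≤ k → W.h k ≤ δ * acE s k) :
    ∑' j, W.h (k0 d N + j) * Uk ρ (k0 d N + j) ≤
      δ * (CU d * ENNReal.ofReal (s * Real.exp s * (1 + ((d : ℝ) - s)⁻¹))) *
        ENNReal.ofReal ((N : ℝ) ^ (s / d)) * ρ univ := by
  have hd0 : (0 : ℝ) < d := hs.trans hsd
  have hK1 : 1 ≤ k0 d N := k0_pos hN
  have hβ0 : 0 < (d : ℝ) - s := by linarith
  refine (ENNReal.tsum_le_tsum fun j => tail_term_le hs W hρ (k0 d N + j) (by omega)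
    (h2 _ (by omega))).trans ?_
  rw [ENNReal.tsum_mul_left]
  calc (δ * ρ univ * N * CU d * ENNReal.ofReal (s * Real.exp s)) *
        ∑' j : ℕ, ENNReal.ofReal (((k0 d N + j : ℕ) : ℝ) ^ (-1 - ((d : ℝ) - s)))
      ≤ (δ * ρ univ * N * CU d * ENNReal.ofReal (s * Real.exp s)) *
        ENNReal.ofReal ((1 + ((d : ℝ) - s)⁻¹) * (k0 d N : ℝ) ^ (-((d : ℝ) - s))) :=
        mul_le_mul_right (tail_sum_le hβ0 _ hK1) _
    _ = (δ * ρ univ * CU d * ENNReal.ofReal (s * Real.exp s)) *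
        (N * ENNReal.ofReal ((1 + ((d : ℝ) - s)⁻¹) * (k0 d N : ℝ) ^ (-((d : ℝ) - s)))) := by ring
    _ ≤ (δ * ρ univ * CU d * ENNReal.ofReal (s * Real.exp s)) *
        (ENNReal.ofReal (1 + ((d : ℝ) - s)⁻¹) * ENNReal.ofReal ((N : ℝ) ^ (s / d))) :=
        mul_le_mul_right (N_mul_le hsd hd0 hN) _
    _ = _ := by
        rw [ENNReal.ofReal_mul (p := s * Real.exp s) (by positivity)]
        ring

/-- The error estimate. -/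
lemma Err_le (hs : 0 < s) (hsd : s < d) (W : Wts s) {ρ : Measure (SS d)} [IsFiniteMeasure ρ]
    {N : ℕ} (hN : 1 ≤ N) (hρ : ρ ≤ (N : ℝ≥0∞) • sig d) {δ : ℝ≥0∞}
    (h1 : ∑ k ∈ Finset.range (k0 d N), W.h k ≤ δ * acE (s + 1) (k0 d N - 1))
    (h2 : ∀ k, k0 d N ≤ k → W.h k ≤ δ * acE s k) :
    Err W ρ (k0 d N) ≤ δ * CE s d * ENNReal.ofReal ((N : ℝ) ^ (s / d)) * ρ univ := by
  rw [Err, sum_split]
  refine (mul_le_mul_right (add_le_add (first_le hs W hN h1) (second_le hs hsd W hN hρ h2)) _).trans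
    (le_of_eq ?_)
  rw [CE]
  ring

end

end Pool.Agent.Lib.MP_1fcdcf_an
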