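import Mathlib
import Pool.Agent.Lib.MP_1fcdcf_an.Bound

open MeasureTheory Set Metric
open scoped ENNReal NNReal symmDiff

namespace Pool.Agent.Lib.MP_1fcdcf_an

section

variable {s : ℝ} {d : ℕ}

lemma KK_rot (g : EE d ≃ₗᵢ[ℝ] EE d) (x y : SS d) : KK s (rot g x) (rot g y) = KK s x y := by
  rw [KK, KK, edist_rot]

/-- The potential of the uniform measure. -/
noncomputable def WW (s : ℝ) (d : ℕ) : ℝ≥0∞ := ∫⁻ y, KK s (e0 d) y ∂(sig d)

lemma measurable_KK_right (x : SS d) : Measurable fun y : SS d => KK s x y := by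
  unfold KK
  apply Measurable.pow_const
  exact measurable_edist_right

lemma lintegral_KK_sig (x : SS d) : ∫⁻ y, KK s x y ∂(sig d) = WW s d := by
  obtain ⟨g, hg⟩ := exists_rot_eq (e0 d) x
  have hm : Measurable fun y => KK s x y := measurable_KK_right x
  have h1 : ∫⁻ y, KK s x (rot g y) ∂(sig d) = ∫⁻ y, KK s x y ∂(sig d) :=
    (measurePreserving_rot g).lintegral_comp hm
  rw [← h1, WW]
  refine lintegral_congr fun y => ?_
  rw [← hg, KK_rot]

lemma WW_ne_top (hs : 0 < s) (hd : 1 ≤ d) (hsd : s < d) : WW s d ≠ ⊤ := by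
  have h := lintegral_KK_closedBall_le hs hd (e0 d) (R := 2) (by norm_num)
  have h2 : closedBall (e0 d) 2 = univ := by
    ext x
    simp [dist_le_two]
  rw [h2, Measure.restrict_univ] at h
  exact ne_top_of_le_ne_top (ENNReal.mul_ne_top (CK_ne_top hsd) ENNReal.ofReal_ne_top) h

lemma II_smul_left (c : ℝ≥0∞) (ρ ρ' : Measure (SS d)) : II s (c • ρ) ρ' = c * II s ρ ρ' := by
  simp [II]

lemma II_smul_right (c : ℝ≥0∞) (hc : c ≠ ⊤) (ρ ρ' : Measure (SS d)) :
    II s ρ (c • ρ') = c * II s ρ ρ' := by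
  simp only [II, lintegral_smul_measure, smul_eq_mul]
  rw [lintegral_const_mul' _ _ hc]

lemma II_sig_right (ρ : Measure (SS d)) : II s ρ (sig d) = WW s d * ρ univ := by
  simp only [II, lintegral_KK_sig, lintegral_const]

lemma II_Nsig_right (ρ : Measure (SS d)) (N : ℕ) :
    II s ρ ((N : ℝ≥0∞) • sig d) = N * (WW s d * ρ univ) := by
  rw [II_smul_right _ (ENNReal.natCast_ne_top N), II_sig_right]

lemma II_Nsig (N : ℕ) :
    II s ((N : ℝ≥0∞) • sig d) ((N : ℝ≥0∞) • sig d) = (N : ℝ≥0∞) ^ 2 * WW s d := by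
  rw [II_Nsig_right, Measure.smul_apply, measure_univ, smul_eq_mul]
  ring

lemma II_le_of_le {ρ ρ' : Measure (SS d)} {N : ℕ} (h : ρ' ≤ (N : ℝ≥0∞) • sig d) :
    II s ρ ρ' ≤ N * (WW s d * ρ univ) :=
  (II_mono le_rfl h).trans (II_Nsig_right ρ N).le

lemma II_ne_top (hs : 0 < s) (hd : 1 ≤ d) (hsd : s < d) {ρ ρ' : Measure (SS d)} [IsFiniteMeasure ρ]
    {N : ℕ} (h : ρ' ≤ (N : ℝ≥0∞) • sig d) : II s ρ ρ' ≠ ⊤ :=
  ne_top_of_le_ne_top (ENNReal.mul_ne_top (ENNReal.natCast_ne_top N)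
    (ENNReal.mul_ne_top (WW_ne_top hs hd hsd) (measure_ne_top ρ univ))) (II_le_of_le h)

lemma finite_of_le {ρ : Measure (SS d)} {N : ℕ} (h : ρ ≤ (N : ℝ≥0∞) • sig d) :
    IsFiniteMeasure ρ := by
  refine ⟨lt_of_le_of_lt (h univ) ?_⟩
  rw [Measure.smul_apply, measure_univ, smul_eq_mul, mul_one]
  exact ENNReal.natCast_lt_top N

instance (N : ℕ) : IsFiniteMeasure ((N : ℝ≥0∞) • sig d) := finite_of_le le_rfl

/-- Monotonicity of the gain. -/
lemma DD_mono (hs : 0 < s) (hd : 1 ≤ d) (hsd : s < d) {ρ ρ' : Measure (SS d)} {N : ℕ}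
    (h : ρ ≤ ρ') (h' : ρ' ≤ (N : ℝ≥0∞) • sig d) : DD s ρ ≤ DD s ρ' := by
  have f1 : IsFiniteMeasure ρ' := finite_of_le h'
  have f2 : IsFiniteMeasure ρ := finite_of_le (h.trans h')
  have e1 : ρ + (ρ' - ρ) = ρ' := (add_comm _ _).trans (Measure.sub_add_cancel_of_le h)
  have h1 := DD_add_le (s := s) ρ (ρ' - ρ) (by rw [e1]; exact II_ne_top hs hd hsd h')
  rw [e1] at h1
  exact le_self_add.trans h1

lemma DD_zero : DD s (0 : Measure (SS d)) = 0 := by
  have : DD s (0 : Measure (SS d)) ≤ 0 := by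
    refine (DD_le_II _).trans ?_
    simp [II]
  simpa using this

lemma DD_restrict_zero {ρ : Measure (SS d)} {A : Set (SS d)} (h : ρ A = 0) :
    DD s (ρ.restrict A) = 0 := by
  rw [Measure.restrict_eq_zero.2 h, DD_zero]

/-- The a priori bound for the gain. -/
lemma DD_le (hs : 0 < s) (hsd : s < d) {ρ : Measure (SS d)}
    {N : ℕ} (hN : 1 ≤ N) (hρ : ρ ≤ (N : ℝ≥0∞) • sig d) :
    DD s ρ ≤ CE s d * ENNReal.ofReal ((N : ℝ) ^ (s / d)) * ρ univ := by
  have f1 : IsFiniteMeasure ρ := finite_of_le hρ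
  let W : Wts s := ⟨∅, fun _ => 0, 1, acE s, fun k => by simp⟩
  have hE := Err_le hs hsd W hN hρ (δ := 1) (by
    rw [one_mul]
    change ∑ k ∈ Finset.range (k0 d N), acE s k ≤ _
    simp only [acE]
    rw [← ENNReal.ofReal_sum_of_nonneg fun k _ => ac_nonneg hs k]
    apply ENNReal.ofReal_le_ofReal
    have h1 := k0_pos (d := d) hN
    obtain ⟨j, hj⟩ : ∃ j, k0 d N = j + 1 := ⟨k0 d N - 1, by omega⟩
    rw [hj, sum_ac]
    simp) (fun k _ => by rw [one_mul])
  rw [one_mul] at hE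
  refine le_trans ?_ hE
  have h1 : II s ρ ρ = Gc s d * ∑' k, W.h k * Uk ρ k := by
    rw [II_eq]
    have h2 : ∀ p : SS d × SS d, KK s p.1 p.2 = Gc s d * ∑' k, acE s k * uu p.1 p.2 ^ k :=
      fun p => KK_eq hs _ _
    simp_rw [h2]
    rw [lintegral_const_mul _ (Measurable.tsum fun k => (measurable_uu_pow k).const_mul _),
      lintegral_tsum fun k => ((measurable_uu_pow k).const_mul _).aemeasurable]
    congr 1
    refine tsum_congr fun k => ?_
    rw [lintegral_const_mul _ (measurable_uu_pow k)]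
    rfl
  refine tsub_le_iff_right.2 ?_
  rw [eR, ENNReal.add_iInf]
  refine le_iInf fun ρ₂ => ?_
  have h3 := lower_aux hs W ρ₂.2 one_ne_zero (k0 d N)
  rw [h1]
  refine le_trans (le_trans le_add_self h3) ?_
  change 1 * _ + _ ≤ _
  rw [one_mul, add_comm]

end

end Pool.Agent.Lib.MP_1fcdcf_an
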