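import Mathlib
import Pool.Agent.Lib.MP_1fcdcf_an.Gain

open MeasureTheory Set Metric
open scoped ENNReal NNReal symmDiff

namespace Pool.Agent.Lib.MP_1fcdcf_an

/-- Functionals of sets which are Lipschitz for the measure of the symmetric difference are
measurable along measurable families of sets. -/
lemma measurable_of_lip {V X : Type} [MeasurableSpace V] [MeasurableSpace X]
    (μ : Measure X) [IsFiniteMeasure μ] [IsSeparable μ] (Ψ : Set X → ℝ≥0∞) (C : ℝ≥0∞) (hC : C ≠ ⊤)
    (hΨ : ∀ A B, MeasurableSet A → MeasurableSet B → Ψ A ≤ Ψ B + C * μ (A ∆ B))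
    {S : Set (V × X)} (hS : MeasurableSet S) : Measurable fun v => Ψ (Prod.mk v ⁻¹' S) := by
  obtain ⟨𝒜, hc, hd⟩ := exists_countable_measureDense μ
  have h1 : ∀ v, Ψ (Prod.mk v ⁻¹' S) = ⨅ D ∈ 𝒜, (Ψ D + C * μ ((Prod.mk v ⁻¹' S) ∆ D)) := by
    intro v
    have hm : MeasurableSet (Prod.mk v ⁻¹' S) := measurable_prodMk_left hS
    apply le_antisymm
    · exact le_iInf₂ fun D hD => hΨ _ _ hm (hd.measurable D hD)
    · refine ENNReal.le_of_forall_pos_le_add fun ε hε _ => ?_
      set η : ℝ := ε / (2 * (C.toReal + 1)) with hη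
      have hε' : (0 : ℝ) < ε := by exact_mod_cast hε
      have hη0 : 0 < η := by positivity
      obtain ⟨D, hD, hD2⟩ := hd.approx _ hm (measure_ne_top μ _) η hη0
      refine (iInf₂_le D hD).trans ?_
      have h2 := hΨ D _ (hd.measurable D hD) hm
      have h3 : C * μ (D ∆ (Prod.mk v ⁻¹' S)) ≤ C * ENNReal.ofReal η := by
        rw [symmDiff_comm]
        gcongr
      have h4 : C * μ ((Prod.mk v ⁻¹' S) ∆ D) ≤ C * ENNReal.ofReal η := by gcongr
      calc Ψ D + C * μ ((Prod.mk v ⁻¹' S) ∆ D)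
          ≤ (Ψ (Prod.mk v ⁻¹' S) + C * ENNReal.ofReal η) + C * ENNReal.ofReal η := by
            refine add_le_add (h2.trans ?_) h4
            gcongr
        _ = Ψ (Prod.mk v ⁻¹' S) + ENNReal.ofReal (2 * (C.toReal * η)) := by
            rw [ENNReal.ofReal_mul (by norm_num), ENNReal.ofReal_mul ENNReal.toReal_nonneg,
              ENNReal.ofReal_toReal hC, ENNReal.ofReal_ofNat]
            ring
        _ ≤ _ := by
            gcongr
            rw [← ENNReal.ofReal_coe_nnreal]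
            apply ENNReal.ofReal_le_ofReal
            have h5 : 0 ≤ C.toReal := ENNReal.toReal_nonneg
            rw [hη]
            have h6 : C.toReal / (C.toReal + 1) ≤ 1 := by
              rw [div_le_one (by positivity)]; linarith
            calc 2 * (C.toReal * (ε / (2 * (C.toReal + 1)))) =
                  (C.toReal / (C.toReal + 1)) * ε := by
                  field_simp
              _ ≤ 1 * ε := by gcongr
              _ = ε := one_mul _
  simp_rw [h1]
  refine Measurable.biInf 𝒜 hc fun D hD => ?_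
  have h2 : ∀ v, (Prod.mk v ⁻¹' S) ∆ D = Prod.mk v ⁻¹' (S ∆ (univ ×ˢ D)) := by
    intro v
    ext x
    simp [Set.mem_symmDiff]
  simp_rw [h2]
  have hm : MeasurableSet (S ∆ ((univ : Set V) ×ˢ D)) :=
    hS.symmDiff ((MeasurableSet.univ : MeasurableSet (univ : Set V)).prod (hd.measurable D hD))
  exact ((measurable_measure_prodMk_left hm).const_mul C).const_add _

section

variable {s : ℝ} {d : ℕ}

/-- Functionals which are measurable along measurable families. -/
def MF (Θ : Set (SS d) → ℝ≥0∞) : Prop :=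
  ∀ (V : Type) [MeasurableSpace V] (S : Set (V × SS d)), MeasurableSet S →
    Measurable fun v => Θ (Prod.mk v ⁻¹' S)

lemma MF_sig : MF (fun A : Set (SS d) => sig d A) := fun _ _ _ hS =>
  measurable_measure_prodMk_left hS

lemma MF.div {Θ Θ' : Set (SS d) → ℝ≥0∞} (h : MF Θ) (h' : MF Θ') : MF (fun A => Θ A / Θ' A) :=
  fun V _ S hS => (h V S hS).div (h' V S hS)

lemma DD_restrict_le (hs : 0 < s) (hd : 1 ≤ d) (hsd : s < d) {ρ : Measure (SS d)} {N : ℕ}
    (hρ : ρ ≤ (N : ℝ≥0∞) • sig d) {A B : Set (SS d)} (hB : MeasurableSet B) :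
    DD s (ρ.restrict A) ≤ DD s (ρ.restrict B) + 2 * II s (ρ.restrict (A \ B)) (ρ.restrict A) := by
  have f1 : IsFiniteMeasure ρ := finite_of_le hρ
  have e : ρ.restrict A = ρ.restrict (A ∩ B) + ρ.restrict (A \ B) :=
    (Measure.restrict_inter_add_sdiff A hB).symm
  have h1 : II s (ρ.restrict A) (ρ.restrict A) ≤
      II s (ρ.restrict (A ∩ B)) (ρ.restrict (A ∩ B)) +
        2 * II s (ρ.restrict (A \ B)) (ρ.restrict A) := by
    have h3 : II s (ρ.restrict (A \ B)) (ρ.restrict A) =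
        II s (ρ.restrict (A \ B)) (ρ.restrict (A ∩ B)) +
        II s (ρ.restrict (A \ B)) (ρ.restrict (A \ B)) := by
      conv_lhs => rw [e]
      rw [II_add_right]
    rw [h3]
    conv_lhs => rw [e]
    rw [II_add_left, II_add_right, II_add_right,
      II_comm (ρ := ρ.restrict (A \ B)) (ρ' := ρ.restrict (A ∩ B))]
    calc II s (ρ.restrict (A ∩ B)) (ρ.restrict (A ∩ B)) +
          II s (ρ.restrict (A ∩ B)) (ρ.restrict (A \ B)) +
          (II s (ρ.restrict (A ∩ B)) (ρ.restrict (A \ B)) +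
            II s (ρ.restrict (A \ B)) (ρ.restrict (A \ B)))
        ≤ II s (ρ.restrict (A ∩ B)) (ρ.restrict (A ∩ B)) +
          II s (ρ.restrict (A ∩ B)) (ρ.restrict (A \ B)) +
          (II s (ρ.restrict (A ∩ B)) (ρ.restrict (A \ B)) +
            II s (ρ.restrict (A \ B)) (ρ.restrict (A \ B))) +
            II s (ρ.restrict (A \ B)) (ρ.restrict (A \ B)) := le_self_add
      _ = _ := by ring
  have h2 : eR s (ρ.restrict (A ∩ B)) ≤ eR s (ρ.restrict A) := by
    have := eR_restrict_le (s := s) (ρ.restrict A) hB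
    rwa [Measure.restrict_restrict hB, inter_comm] at this
  have h4 : DD s (ρ.restrict (A ∩ B)) ≤ DD s (ρ.restrict B) := by
    refine DD_mono hs hd hsd (N := N) (Measure.restrict_mono inter_subset_right le_rfl) ?_
    exact Measure.restrict_le_self.trans hρ
  have h5 : DD s (ρ.restrict A) ≤
      DD s (ρ.restrict (A ∩ B)) + 2 * II s (ρ.restrict (A \ B)) (ρ.restrict A) := by
    rw [DD, DD, tsub_le_iff_right]
    refine h1.trans ?_
    calc II s (ρ.restrict (A ∩ B)) (ρ.restrict (A ∩ B)) +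
          2 * II s (ρ.restrict (A \ B)) (ρ.restrict A)
        ≤ (II s (ρ.restrict (A ∩ B)) (ρ.restrict (A ∩ B)) - eR s (ρ.restrict (A ∩ B)) +
          eR s (ρ.restrict (A ∩ B))) + 2 * II s (ρ.restrict (A \ B)) (ρ.restrict A) := by
          gcongr
          exact le_tsub_add
      _ = II s (ρ.restrict (A ∩ B)) (ρ.restrict (A ∩ B)) - eR s (ρ.restrict (A ∩ B)) +
          2 * II s (ρ.restrict (A \ B)) (ρ.restrict A) + eR s (ρ.restrict (A ∩ B)) := by ring
      _ ≤ _ := by gcongr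
  exact h5.trans (by gcongr)

/-- The gain of a set at density `N`. -/
noncomputable def DN (s : ℝ) {d : ℕ} (N : ℕ) (A : Set (SS d)) : ℝ≥0∞ :=
  DD s (((N : ℝ≥0∞) • sig d).restrict A)

lemma DN_lip (hs : 0 < s) (hd : 1 ≤ d) (hsd : s < d) (N : ℕ) {A B : Set (SS d)}
    (hB : MeasurableSet B) :
    DN s N A ≤ DN s N B + 2 * (N * (WW s d * (N * sig d (A \ B)))) := by
  refine (DD_restrict_le hs hd hsd le_rfl hB).trans ?_
  rw [DN]
  gcongr
  refine (II_le_of_le Measure.restrict_le_self).trans (le_of_eq ?_)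
  rw [Measure.restrict_apply_univ, Measure.smul_apply, smul_eq_mul]

lemma MF_DN (hs : 0 < s) (hd : 1 ≤ d) (hsd : s < d) (N : ℕ) :
    MF (fun A : Set (SS d) => DN s N A) := by
  intro V _ S hS
  refine measurable_of_lip (sig d) (fun A => DN s N A) (2 * (N * (WW s d * N))) ?_ ?_ hS
  · exact ENNReal.mul_ne_top (by norm_num) (ENNReal.mul_ne_top (ENNReal.natCast_ne_top N)
      (ENNReal.mul_ne_top (WW_ne_top hs hd hsd) (ENNReal.natCast_ne_top N)))
  · intro A B hA hB
    refine (DN_lip hs hd hsd N hB).trans ?_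
    have h1 : sig d (A \ B) ≤ sig d (A ∆ B) := measure_mono fun x hx => Or.inl hx
    calc DN s N B + 2 * (N * (WW s d * (N * sig d (A \ B))))
        ≤ DN s N B + 2 * (N * (WW s d * (N * sig d (A ∆ B)))) := by gcongr
      _ = _ := by ring

/-! ### Maps -/

lemma eR_map_le {ρ : Measure (SS d)} {B : Set (SS d)} (hB : MeasurableSet B)
    (hρ : ρ.restrict B = ρ) {T : SS d → SS d} (hT : Measurable T) {c : ℝ≥0∞} (hc0 : c ≠ 0)
    (hc : c ≠ ⊤) (h : ∀ x ∈ B, ∀ y ∈ B, KK s (T x) (T y) ≤ c * KK s x y) :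
    eR s (ρ.map T) ≤ c * eR s ρ := by
  rw [eR, eR, ENNReal.mul_iInf_of_ne hc0 hc]
  refine le_iInf fun ρ₂ => ?_
  have h1 := ρ₂.2.restrict hB
  rw [hρ] at h1
  refine (eR_le (h1.map hT)).trans ?_
  rw [lintegral_map (measurable_KK s d) (hT.prodMap hT)]
  calc ∫⁻ p in B ×ˢ B, KK s (Prod.map T T p).1 (Prod.map T T p).2 ∂ρ₂.1
      ≤ ∫⁻ p in B ×ˢ B, c * KK s p.1 p.2 ∂ρ₂.1 := by
        refine setLIntegral_mono' (hB.prod hB) fun p hp => ?_
        exact h _ hp.1 _ hp.2
    _ ≤ ∫⁻ p, c * KK s p.1 p.2 ∂ρ₂.1 := lintegral_mono' Measure.restrict_le_self le_rfl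
    _ = _ := lintegral_const_mul _ (measurable_KK s d)

lemma II_map {ρ : Measure (SS d)} {T : SS d → SS d} [SFinite ρ] (hT : Measurable T) :
    II s (ρ.map T) (ρ.map T) = ∫⁻ x, ∫⁻ y, KK s (T x) (T y) ∂ρ ∂ρ := by
  rw [II, lintegral_map (measurable_lintegral_KK _) hT]
  refine lintegral_congr fun x => ?_
  rw [lintegral_map (measurable_KK_right _) hT]

lemma II_map_ge {ρ : Measure (SS d)} [SFinite ρ] {B : Set (SS d)} (hB : MeasurableSet B)
    (hρ : ρ.restrict B = ρ) {T : SS d → SS d} (hT : Measurable T) {c : ℝ≥0∞}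
    (h : ∀ x ∈ B, ∀ y ∈ B, c * KK s x y ≤ KK s (T x) (T y)) :
    c * II s ρ ρ ≤ II s (ρ.map T) (ρ.map T) := by
  rw [II_map hT, II, ← lintegral_const_mul _ (measurable_lintegral_KK ρ)]
  conv_lhs => rw [← hρ]
  conv_rhs => rw [← hρ]
  refine setLIntegral_mono' hB fun x hx => ?_
  rw [← lintegral_const_mul _ (measurable_KK_right x)]
  refine setLIntegral_mono' hB fun y hy => ?_
  exact h x hx y hy

lemma eR_map_rot (g : EE d ≃ₗᵢ[ℝ] EE d) (ρ : Measure (SS d)) :
    eR s (ρ.map (rot g)) = eR s ρ := by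
  have h1 : ∀ (g : EE d ≃ₗᵢ[ℝ] EE d) (ρ : Measure (SS d)), eR s (ρ.map (rot g)) ≤ eR s ρ := by
    intro g ρ
    have := eR_map_le (s := s) (ρ := ρ) MeasurableSet.univ Measure.restrict_univ (measurable_rot g)
      (c := 1) one_ne_zero ENNReal.one_ne_top (fun x _ y _ => by rw [KK_rot, one_mul])
    rwa [one_mul] at this
  apply le_antisymm (h1 g ρ)
  have h2 := h1 g.symm (ρ.map (rot g))
  rw [Measure.map_map (measurable_rot _) (measurable_rot _)] at h2
  have h3 : rot g.symm ∘ rot g = id := by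
    ext x
    simp [rot_symm_rot]
  rwa [h3, Measure.map_id] at h2

lemma DD_map_rot (g : EE d ≃ₗᵢ[ℝ] EE d) (ρ : Measure (SS d)) [SFinite ρ] :
    DD s (ρ.map (rot g)) = DD s ρ := by
  rw [DD, DD, eR_map_rot, II_map (measurable_rot g)]
  simp only [KK_rot]
  rfl

lemma map_rot_restrict (g : EE d ≃ₗᵢ[ℝ] EE d) (N : ℕ) {A : Set (SS d)} (hA : MeasurableSet A) :
    (((N : ℝ≥0∞) • sig d).restrict (rot g ⁻¹' A)).map (rot g) =
      ((N : ℝ≥0∞) • sig d).restrict A := by
  rw [← Measure.restrict_map (measurable_rot g) hA, Measure.map_smul,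
    (measurePreserving_rot g).map_eq]

lemma DN_rot (g : EE d ≃ₗᵢ[ℝ] EE d) (N : ℕ) {A : Set (SS d)} (hA : MeasurableSet A) :
    DN s N (rot g ⁻¹' A) = DN s N A := by
  rw [DN, DN, ← map_rot_restrict g N hA, DD_map_rot]

end

end Pool.Agent.Lib.MP_1fcdcf_an
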