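import Mathlib
import Pool.Agent.Lib.MP_1fcdcf_an.Meas

open MeasureTheory Set Metric
open scoped ENNReal NNReal symmDiff

namespace Pool.Agent.Lib.MP_1fcdcf_an

section

variable {s : ℝ} {d : ℕ}

lemma DN_union (hs : 0 < s) (hd : 1 ≤ d) (hsd : s < d) (N : ℕ) {A B : Set (SS d)}
    (hB : MeasurableSet B) (hAB : Disjoint A B) :
    DN s N A + DN s N B ≤ DN s N (A ∪ B) := by
  have h1 := DD_add_le (s := s) (((N : ℝ≥0∞) • sig d).restrict A)
    (((N : ℝ≥0∞) • sig d).restrict B)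
  rw [← Measure.restrict_union hAB hB] at h1
  exact h1 (II_ne_top hs hd hsd Measure.restrict_le_self)

lemma DN_biUnion (hs : 0 < s) (hd : 1 ≤ d) (hsd : s < d) (N : ℕ) {ι : Type*} [DecidableEq ι]
    (A : ι → Set (SS d)) (hA : ∀ i, MeasurableSet (A i)) (hdis : Pairwise (Function.onFun Disjoint A))
    (F : Finset ι) : ∑ i ∈ F, DN s N (A i) ≤ DN s N (⋃ i ∈ F, A i) := by
  induction F using Finset.induction_on with
  | empty => simp
  | insert i F hi ih =>
    rw [Finset.sum_insert hi, Finset.set_biUnion_insert]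
    refine le_trans ?_ (DN_union hs hd hsd N (F.measurableSet_biUnion fun j _ => hA j) ?_)
    · gcongr
    · rw [Set.disjoint_iUnion₂_right]
      intro j hj
      exact hdis (by rintro rfl; exact hi hj)

lemma cell_disjoint {n : ℕ} (ω : Fin n → HH d) : Pairwise (Function.onFun Disjoint (cell ω)) := by
  intro ε ε' hne
  refine Set.disjoint_left.2 fun x hx hx' => hne ?_
  rw [mem_cell] at hx hx'
  rw [← hx, ← hx']

/-- The mean gain of the cells of a random tessellation. -/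
noncomputable def Phi (s : ℝ) (d N n : ℕ) : ℝ≥0∞ :=
  ∫⁻ ω : Fin n → HH d, ∑ ε : Fin n → Bool, DN s N (cell ω ε) ∂(piHn d n)

lemma DN_univ (N : ℕ) : DN s N (univ : Set (SS d)) = DD s ((N : ℝ≥0∞) • sig d) := by
  rw [DN, Measure.restrict_univ]

lemma DN_mono (hs : 0 < s) (hd : 1 ≤ d) (hsd : s < d) (N : ℕ) {A B : Set (SS d)} (h : A ⊆ B) :
    DN s N A ≤ DN s N B :=
  DD_mono hs hd hsd (Measure.restrict_mono h le_rfl) Measure.restrict_le_self

lemma Phi_le (hs : 0 < s) (hd : 1 ≤ d) (hsd : s < d) (N n : ℕ) :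
    Phi s d N n ≤ DD s ((N : ℝ≥0∞) • sig d) := by
  rw [Phi]
  calc ∫⁻ ω : Fin n → HH d, ∑ ε : Fin n → Bool, DN s N (cell ω ε) ∂(piHn d n)
      ≤ ∫⁻ ω : Fin n → HH d, DD s ((N : ℝ≥0∞) • sig d) ∂(piHn d n) := by
        refine lintegral_mono fun ω => ?_
        refine (DN_biUnion hs hd hsd N (cell ω) (measurableSet_cell ω) (cell_disjoint ω)
          Finset.univ).trans ?_
        rw [← DN_univ]
        exact DN_mono hs hd hsd N (subset_univ _)
    _ = _ := by simp

lemma measurable_DN_cell (hs : 0 < s) (hd : 1 ≤ d) (hsd : s < d) (N n : ℕ) (ε : Fin n → Bool) :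
    Measurable fun ω : Fin n → HH d => DN s N (cell ω ε) :=
  MF_DN hs hd hsd N _ _ (measurableSet_cell2 d n ε)

/-- The integrated kernel identity. -/
lemma A_mul_II (hs : 0 < s) (hd : 1 ≤ d) (hsd : s < d) (W : Wts s) (N : ℕ) :
    W.A * II s ((N : ℝ≥0∞) • sig d) ((N : ℝ≥0∞) • sig d) =
      ∑ n ∈ W.F, W.ν n * (Phi s d N n + ∫⁻ ω, cellE s ((N : ℝ≥0∞) • sig d) ω ∂(piHn d n)) +
        Gc s d * ∑' k, W.h k * Uk ((N : ℝ≥0∞) • sig d) k := by
  set ρ : Measure (SS d) := (N : ℝ≥0∞) • sig d with hρ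
  have hm : ∀ n, Measurable fun p : SS d × SS d => KK s p.1 p.2 * uu p.1 p.2 ^ n := fun n =>
    (measurable_KK s d).mul (measurable_uu_pow n)
  have hfin : IsFiniteMeasure ρ := by rw [hρ]; infer_instance
  rw [II_eq, ← lintegral_const_mul _ (measurable_KK s d)]
  simp_rw [W.kernel_eq hs]
  rw [lintegral_add_left, lintegral_finsetSum, lintegral_const_mul, lintegral_tsum]
  · congr 1
    · refine Finset.sum_congr rfl fun n _ => ?_
      rw [lintegral_const_mul _ (hm n), ← lintegral_cells (ρ.prod ρ) (measurable_KK s d), Phi,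
        ← lintegral_add_left]
      · congr 1
        refine lintegral_congr fun ω => ?_
        rw [cellE, ← Finset.sum_add_distrib]
        refine Finset.sum_congr rfl fun ε _ => ?_
        rw [DN, DD_add_eR, II_eq, Measure.prod_restrict]
      · exact Finset.measurable_sum _ fun ε _ => measurable_DN_cell hs hd hsd N n ε
    · congr 1
      refine tsum_congr fun k => ?_
      rw [lintegral_const_mul _ (measurable_uu_pow k)]
      rfl
  · exact fun k => ((measurable_uu_pow k).const_mul _).aemeasurable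
  · exact Measurable.tsum fun k => (measurable_uu_pow k).const_mul _
  · exact fun n _ => (hm n).const_mul _
  · exact Finset.measurable_sum _ fun n _ => (hm n).const_mul _

/-- The main inequality. -/
lemma A_mul_DD_le (hs : 0 < s) (hd : 1 ≤ d) (hsd : s < d) (W : Wts s) (hA : W.A ≠ 0)
    (hA' : W.A ≠ ⊤) (N k₀ : ℕ) :
    W.A * DD s ((N : ℝ≥0∞) • sig d) ≤
      Err W ((N : ℝ≥0∞) • sig d) k₀ + ∑ n ∈ W.F, W.ν n * Phi s d N n := by
  set ρ : Measure (SS d) := (N : ℝ≥0∞) • sig d with hρ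
  have hfin : IsFiniteMeasure ρ := by rw [hρ]; infer_instance
  have hII : II s ρ ρ ≠ ⊤ := II_ne_top hs hd hsd le_rfl
  have heR : eR s ρ ≠ ⊤ := ne_top_of_le_ne_top hII (eR_le_II ρ)
  have h1 : W.A * II s ρ ρ ≤
      (Err W ρ k₀ + ∑ n ∈ W.F, W.ν n * Phi s d N n) + W.A * eR s ρ := by
    rw [eR, ENNReal.mul_iInf_of_ne hA hA', ENNReal.add_iInf]
    refine le_iInf fun ρ₂ => ?_
    have h2 := lower_aux hs W ρ₂.2 hA k₀
    rw [A_mul_II hs hd hsd]
    simp only [mul_add, Finset.sum_add_distrib]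
    calc ∑ n ∈ W.F, W.ν n * Phi s d N n + ∑ n ∈ W.F, W.ν n * ∫⁻ ω, cellE s ρ ω ∂(piHn d n) +
          Gc s d * ∑' k, W.h k * Uk ρ k
        = ∑ n ∈ W.F, W.ν n * Phi s d N n + (∑ n ∈ W.F, W.ν n * ∫⁻ ω, cellE s ρ ω ∂(piHn d n) +
          Gc s d * ∑' k, W.h k * Uk ρ k) := by rw [add_assoc]
      _ ≤ ∑ n ∈ W.F, W.ν n * Phi s d N n + (W.A * ∫⁻ p, KK s p.1 p.2 ∂ρ₂.1 + Err W ρ k₀) := by
          gcongr
      _ = _ := by ring
  rw [← DD_add_eR, mul_add] at h1
  exact (ENNReal.add_le_add_iff_right (ENNReal.mul_ne_top hA' heR)).1 h1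

end

end Pool.Agent.Lib.MP_1fcdcf_an
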