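import Mathlib
import Pool.Agent.Lib.MP_1fcdcf_an.Cellsum

open MeasureTheory Set Metric
open scoped ENNReal NNReal symmDiff RealInnerProductSpace

namespace Pool.Agent.Lib.MP_1fcdcf_an

section

variable {s : ℝ} {d : ℕ}

/-- The gain per unit area. -/
noncomputable def Jn (s : ℝ) {d : ℕ} (N : ℕ) (A : Set (SS d)) : ℝ≥0∞ := DN s N A / sig d A

lemma MF_Jn (hs : 0 < s) (hd : 1 ≤ d) (hsd : s < d) (N : ℕ) :
    MF (fun A : Set (SS d) => Jn s N A) := (MF_DN hs hd hsd N).div MF_sig

lemma DN_zero {N : ℕ} {A : Set (SS d)} (h : sig d A = 0) : DN s N A = 0 := by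
  apply DD_restrict_zero
  rw [Measure.smul_apply, h, smul_zero]

lemma Jn_mul {N : ℕ} {A : Set (SS d)} : Jn s N A * sig d A = DN s N A := by
  rcases eq_or_ne (sig d A) 0 with h | h
  · rw [h, mul_zero, DN_zero h]
  · exact ENNReal.div_mul_cancel h (measure_ne_top _ _)

/-- The a priori bound. -/
lemma Jn_le (hs : 0 < s) (hsd : s < d) {N : ℕ} (hN : 1 ≤ N) (A : Set (SS d)) :
    Jn s N A ≤ CE s d * ENNReal.ofReal ((N : ℝ) ^ (s / d)) * N := by
  refine ENNReal.div_le_of_le_mul ?_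
  refine (DD_le hs hsd hN Measure.restrict_le_self).trans (le_of_eq ?_)
  rw [Measure.restrict_apply_univ, Measure.smul_apply, smul_eq_mul]
  ring

/-- The side of `e0`. -/
def sd (h : HH d) : Set (SS d) := {y | side h (y : EE d) = side h (e0 d : EE d)}

/-- The cell of `e0`. -/
def c0 {n : ℕ} (ω : Fin n → HH d) : Set (SS d) := ⋂ i, sd (ω i)

lemma c0_eq {n : ℕ} (ω : Fin n → HH d) : c0 ω = cell ω (pat ω (e0 d : EE d)) := by
  ext y
  simp [c0, sd, cell, pat, funext_iff]

lemma measurableSet_sd (h : HH d) : MeasurableSet (sd h) :=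
  measurableSet_eq_fun ((measurable_side2 d).comp measurable_prodMk_left) measurable_const

lemma measurableSet_c0 {n : ℕ} (ω : Fin n → HH d) : MeasurableSet (c0 ω) :=
  MeasurableSet.iInter fun _ => measurableSet_sd _

lemma sum_DN_eq {n : ℕ} (N : ℕ) (ω : Fin n → HH d) :
    ∑ ε : Fin n → Bool, DN s N (cell ω ε) =
      ∫⁻ x : SS d, Jn s N (cell ω (pat ω (x : EE d))) ∂(sig d) := by
  have hm : Measurable fun ε : Fin n → Bool => Jn s N (cell ω ε) := measurable_of_finite _
  have h1 := (lintegral_map (μ := sig d) hm (measurable_pat' ω)).symm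
  rw [h1, lintegral_fintype]
  refine Finset.sum_congr rfl fun ε _ => ?_
  rw [Measure.map_apply (measurable_pat' ω) (measurableSet_singleton ε)]
  exact Jn_mul.symm

/-- The action of rotations on hyperplanes. -/
noncomputable def rotH (g : EE d ≃ₗᵢ[ℝ] EE d) (h : HH d) : HH d := (rot g h.1, h.2)

lemma measurePreserving_rotH (g : EE d ≃ₗᵢ[ℝ] EE d) :
    MeasurePreserving (rotH g) (piH d) (piH d) :=
  (measurePreserving_rot g).prod (MeasurePreserving.id unif)

lemma side_rotH (g : EE d ≃ₗᵢ[ℝ] EE d) (h : HH d) (x : EE d) :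
    side (rotH g h) (g x) = side h x := by
  simp [side, rotH, g.inner_map_map]

lemma rot_preimage_sd (g : EE d ≃ₗᵢ[ℝ] EE d) (ω : HH d) (x : SS d) :
    {y : SS d | side (rotH g ω) (y : EE d) = side (rotH g ω) ((rot g x : SS d) : EE d)} =
      rot g.symm ⁻¹' {y : SS d | side ω (y : EE d) = side ω (x : EE d)} := by
  ext y
  simp only [mem_ofPred_eq, mem_preimage, coe_rot]
  rw [side_rotH]
  have h1 : (y : EE d) = g (g.symm (y : EE d)) := by simp
  conv_lhs => rw [h1, side_rotH]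

lemma cell_rot {n : ℕ} (g : EE d ≃ₗᵢ[ℝ] EE d) (ω : Fin n → HH d) (x : SS d) :
    cell (fun i => rotH g (ω i)) (pat (fun i => rotH g (ω i)) ((rot g x : SS d) : EE d)) =
      rot g.symm ⁻¹' cell ω (pat ω (x : EE d)) := by
  ext y
  simp only [cell, pat, mem_ofPred_eq, mem_preimage, funext_iff]
  refine forall_congr' fun i => ?_
  have := Set.ext_iff.1 (rot_preimage_sd g (ω i) x) y
  exact this

lemma Jn_rot (g : EE d ≃ₗᵢ[ℝ] EE d) (N : ℕ) {A : Set (SS d)} (hA : MeasurableSet A) :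
    Jn s N (rot g ⁻¹' A) = Jn s N A := by
  rw [Jn, Jn, DN_rot g N hA, (measurePreserving_rot g).measure_preimage hA.nullMeasurableSet]

lemma measurableSet_graph (n : ℕ) : MeasurableSet {p : ((Fin n → HH d) × SS d) × SS d |
    pat p.1.1 (p.2 : EE d) = pat p.1.1 (p.1.2 : EE d)} := by
  refine measurableSet_eq_fun ?_ ?_
  · exact (measurable_pat d n).comp
      (f := fun p : ((Fin n → HH d) × SS d) × SS d => (p.1.1, p.2)) (by fun_prop)
  · exact (measurable_pat d n).comp
      (f := fun p : ((Fin n → HH d) × SS d) × SS d => (p.1.1, p.1.2)) (by fun_prop)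

lemma measurable_Jn_cell (hs : 0 < s) (hd : 1 ≤ d) (hsd : s < d) (N n : ℕ) :
    Measurable fun p : (Fin n → HH d) × SS d => Jn s N (cell p.1 (pat p.1 (p.2 : EE d))) :=
  MF_Jn hs hd hsd N _ _ (measurableSet_graph n)

lemma meas_right {α β : Type*} [MeasurableSpace α] [MeasurableSpace β] {f : α × β → ℝ≥0∞}
    (hf : Measurable f) (y : β) : Measurable fun x => f (x, y) := hf.comp measurable_prodMk_right

/-- Mass transport. -/
lemma Phi_eq (hs : 0 < s) (hd : 1 ≤ d) (hsd : s < d) (N n : ℕ) :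
    Phi s d N n = ∫⁻ ω : Fin n → HH d, Jn s N (c0 ω) ∂(piHn d n) := by
  have h1 : ∀ x : SS d, ∫⁻ ω : Fin n → HH d, Jn s N (cell ω (pat ω (x : EE d))) ∂(piHn d n) =
      ∫⁻ ω : Fin n → HH d, Jn s N (c0 ω) ∂(piHn d n) := by
    intro x
    obtain ⟨g, rfl⟩ := exists_rot_eq (e0 d) x
    have hmp : MeasurePreserving (fun (ω : Fin n → HH d) i => rotH g (ω i)) (piHn d n)
        (piHn d n) := measurePreserving_pi _ _ fun _ => measurePreserving_rotH g
    have hm : Measurable fun ω : Fin n → HH d =>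
        Jn s N (cell ω (pat ω ((rot g (e0 d) : SS d) : EE d))) := by
      have h := meas_right (measurable_Jn_cell hs hd hsd N n) (rot g (e0 d))
      exact h
    have h2 := hmp.lintegral_comp hm
    rw [← h2]
    refine lintegral_congr fun ω => ?_
    rw [cell_rot, Jn_rot _ _ (measurableSet_cell _ _), c0_eq]
  rw [Phi]
  simp_rw [sum_DN_eq]
  rw [lintegral_lintegral_swap (measurable_Jn_cell hs hd hsd N n).aemeasurable]
  simp_rw [h1]
  simp

end

end Pool.Agent.Lib.MP_1fcdcf_an
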