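import Mathlib
import Pool.Agent.Lib.MP_1fcdcf_an.Transport

open MeasureTheory Set Metric
open scoped ENNReal NNReal symmDiff RealInnerProductSpace

namespace Pool.Agent.Lib.MP_1fcdcf_an

lemma lintegral_pi_succ {X : Type} [MeasurableSpace X] (μ : Measure X) [SigmaFinite μ] {n : ℕ}
    {f : (Fin (n + 1) → X) → ℝ≥0∞} (hf : Measurable f) :
    ∫⁻ v, f v ∂(Measure.pi fun _ => μ) =
      ∫⁻ x, ∫⁻ v, f (Fin.cons x v) ∂(Measure.pi fun _ : Fin n => μ) ∂μ := by
  have h1 := (measurePreserving_piFinSuccAbove (fun _ : Fin (n + 1) => μ) 0).symm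
  have h2 := h1.lintegral_comp hf
  rw [← h2, lintegral_prod]
  · refine lintegral_congr fun x => lintegral_congr fun v => ?_
    congr 1
    change Fin.insertNth (α := fun _ => X) 0 x v = _
    rw [Fin.insertNth_zero']
  · exact (hf.comp h1.measurable).aemeasurable

section

variable {s : ℝ} {d : ℕ}

/-- The uniform distribution on `[-h, h]`. -/
noncomputable def unifh (h : ℝ) : Measure ℝ :=
  (ENNReal.ofReal (2 * h))⁻¹ • volume.restrict (Icc (-h) h)

lemma isProb_unifh {h : ℝ} (hh : 0 < h) : IsProbabilityMeasure (unifh h) where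
  measure_univ := by
    rw [unifh, Measure.smul_apply, Measure.restrict_apply_univ, Real.volume_Icc, smul_eq_mul]
    have h1 : h - -h = 2 * h := by ring
    rw [h1]
    refine ENNReal.inv_mul_cancel ?_ ENNReal.ofReal_ne_top
    simp only [ne_eq, ENNReal.ofReal_eq_zero, not_le]
    positivity

/-- The law of a local hyperplane. -/
noncomputable def piL (d : ℕ) (h : ℝ) : Measure (SS d × ℝ) := (sig d).prod (unifh h)

lemma isProb_piL {h : ℝ} (hh : 0 < h) : IsProbabilityMeasure (piL d h) := by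
  have := isProb_unifh hh
  unfold piL
  infer_instance

/-- The local parametrisation. -/
noncomputable def loc (ϱ : ℝ) (v : SS d × ℝ) : HH d :=
  (v.1, ⟪(v.1 : EE d), (e0 d : EE d)⟫ + v.2 / ϱ)

lemma measurable_loc (ϱ : ℝ) : Measurable (loc (d := d) ϱ) := by
  unfold loc
  apply Continuous.measurable
  fun_prop

lemma abs_inner_e0_le (w : SS d) : |⟪(w : EE d), (e0 d : EE d)⟫| ≤ 1 := by
  refine (abs_real_inner_le_norm _ _).trans ?_
  simp

lemma abs_inner_sub_le (w x : SS d) :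
    |⟪(w : EE d), (x : EE d)⟫ - ⟪(w : EE d), (e0 d : EE d)⟫| ≤ dist x (e0 d) := by
  rw [← inner_sub_right, Subtype.dist_eq, dist_eq_norm]
  refine (abs_real_inner_le_norm _ _).trans ?_
  simp

lemma inter_sd_far {A : Set (SS d)} {r : ℝ} (hA : ∀ x ∈ A, dist x (e0 d) ≤ r) {w : SS d} {t : ℝ}
    (ht : t ∉ Icc (⟪(w : EE d), (e0 d : EE d)⟫ - r) (⟪(w : EE d), (e0 d : EE d)⟫ + r)) :
    A ∩ sd (w, t) = A := by
  apply inter_eq_left.2
  intro x hx
  have h1 := abs_le.1 ((abs_inner_sub_le w x).trans (hA x hx))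
  have h0 : 0 ≤ r := dist_nonneg.trans (hA x hx)
  change side (w, t) (x : EE d) = side (w, t) (e0 d : EE d)
  rw [side_eq_iff]
  simp only
  rw [mem_Icc, not_and_or, not_le, not_le] at ht
  rcases ht with h | h
  · constructor <;> intro _ <;> linarith
  · constructor <;> intro _ <;> linarith

/-- The integral over one hyperplane parameter. -/
lemma lintegral_unif_split {F : ℝ → ℝ≥0∞} {a ϱ h : ℝ} {c : ℝ≥0∞} (ha : |a| ≤ 1) (hh : 0 < h)
    (hϱ : h ≤ ϱ) (hF : ∀ t, t ∉ Icc (a - h / ϱ) (a + h / ϱ) → F t = c) :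
    ∫⁻ t, F t ∂unif = ENNReal.ofReal (1 - h / (2 * ϱ)) * c +
      ENNReal.ofReal (h / (2 * ϱ)) * ∫⁻ τ, F (a + τ / ϱ) ∂(unifh h) := by
  have hϱ0 : 0 < ϱ := hh.trans_le hϱ
  have hr1 : h / ϱ ≤ 1 := (div_le_one hϱ0).2 hϱ
  have hr0 : 0 < h / ϱ := by positivity
  have ha' := abs_le.1 ha
  set I := Icc (a - h / ϱ) (a + h / ϱ) with hI
  have hsub : I ⊆ Icc (-2) 2 := Icc_subset_Icc (by linarith) (by linarith)
  have h1 : ∫⁻ t in Icc (-2) 2, F t = (∫⁻ t in I, F t) + ∫⁻ t in Icc (-2) 2 \ I, F t := by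
    have := lintegral_inter_add_sdiff (μ := volume) F (Icc (-2) 2) (measurableSet_Icc : MeasurableSet I)
    rw [inter_eq_right.2 hsub] at this
    exact this.symm
  have h2 : ∫⁻ t in Icc (-2) 2 \ I, F t = c * ENNReal.ofReal (4 - 2 * (h / ϱ)) := by
    rw [setLIntegral_congr_fun (g := fun _ => c) (measurableSet_Icc.diff measurableSet_Icc)
      (fun t ht => hF t ht.2), setLIntegral_const,
      measure_sdiff hsub measurableSet_Icc.nullMeasurableSet (by simp [hI]),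
      Real.volume_Icc, hI, Real.volume_Icc, ← ENNReal.ofReal_sub _ (by linarith)]
    congr 2
    ring
  have h3 : ∫⁻ t in I, F t = ENNReal.ofReal ϱ⁻¹ * ∫⁻ τ in Icc (-h) h, F (a + τ / ϱ) := by
    have himg : (fun τ : ℝ => a + τ / ϱ) '' Icc (-h) h = I := by
      ext t
      simp only [mem_image, hI, mem_Icc]
      constructor
      · rintro ⟨τ, ⟨h4, h5⟩, rfl⟩
        have h6 : -(h / ϱ) ≤ τ / ϱ := by
          rw [← neg_div]; gcongr
        have h7 : τ / ϱ ≤ h / ϱ := by gcongr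
        constructor <;> linarith
      · rintro ⟨h4, h5⟩
        refine ⟨(t - a) * ϱ, ⟨?_, ?_⟩, by field_simp; ring⟩
        · have : -(h / ϱ) * ϱ ≤ (t - a) * ϱ := by gcongr; linarith
          rwa [neg_mul, div_mul_cancel₀ _ hϱ0.ne'] at this
        · have : (t - a) * ϱ ≤ (h / ϱ) * ϱ := by gcongr; linarith
          rwa [div_mul_cancel₀ _ hϱ0.ne'] at this
    have h4 := lintegral_image_eq_lintegral_abs_deriv_mul (s := Icc (-h) h)
      (f := fun τ : ℝ => a + τ / ϱ) (f' := fun _ => ϱ⁻¹) measurableSet_Icc (fun x _ => by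
        have := ((hasDerivAt_id x).div_const ϱ).const_add a
        simpa [one_div] using this.hasDerivWithinAt) (by
        intro x _ y _ hxy
        simpa [hϱ0.ne'] using hxy) F
    rw [himg] at h4
    rw [h4, abs_of_pos (by positivity), lintegral_const_mul' _ _ ENNReal.ofReal_ne_top]
  rw [unif, lintegral_smul_measure, h1, h2, h3, unifh, lintegral_smul_measure, smul_eq_mul,
    smul_eq_mul]
  set J := ∫⁻ τ in Icc (-h) h, F (a + τ / ϱ) with hJ
  have e4 : (4 : ℝ≥0∞)⁻¹ = ENNReal.ofReal (4⁻¹) := by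
    rw [ENNReal.ofReal_inv_of_pos (by norm_num), ENNReal.ofReal_ofNat]
  have e5 : (ENNReal.ofReal (2 * h))⁻¹ = ENNReal.ofReal ((2 * h)⁻¹) :=
    (ENNReal.ofReal_inv_of_pos (by positivity)).symm
  rw [e4, e5, mul_add]
  have e6 : ENNReal.ofReal 4⁻¹ * (ENNReal.ofReal ϱ⁻¹ * J) =
      ENNReal.ofReal (h / (2 * ϱ)) * (ENNReal.ofReal (2 * h)⁻¹ * J) := by
    rw [← mul_assoc, ← mul_assoc, ← ENNReal.ofReal_mul (by norm_num),
      ← ENNReal.ofReal_mul (by positivity)]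
    congr 2
    field_simp
    norm_num
  have e7 : ENNReal.ofReal 4⁻¹ * (c * ENNReal.ofReal (4 - 2 * (h / ϱ))) =
      ENNReal.ofReal (1 - h / (2 * ϱ)) * c := by
    rw [mul_comm c, ← mul_assoc, ← ENNReal.ofReal_mul (by norm_num)]
    congr 2
    field_simp
    ring
  rw [e6, e7, add_comm]

/-- One hyperplane. -/
lemma single {Θ : Set (SS d) → ℝ≥0∞} (hΘ : MF Θ) {A : Set (SS d)} (hA : MeasurableSet A)
    {ϱ h : ℝ} (hh : 0 < h) (hϱ : h ≤ ϱ) (hAB : ∀ x ∈ A, dist x (e0 d) ≤ h / ϱ) :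
    ∫⁻ w, Θ (A ∩ sd w) ∂(piH d) = ENNReal.ofReal (1 - h / (2 * ϱ)) * Θ A +
      ENNReal.ofReal (h / (2 * ϱ)) * ∫⁻ v, Θ (A ∩ sd (loc ϱ v)) ∂(piL d h) := by
  have := isProb_unifh hh
  have hm1 : MeasurableSet {p : HH d × SS d | p.2 ∈ A ∩ sd p.1} := by
    refine (measurable_snd hA).inter ?_
    refine measurableSet_eq_fun (measurable_side2 d) ?_
    exact (measurable_side (e0 d : EE d)).comp measurable_fst
  have hf1 : Measurable fun w : HH d => Θ (A ∩ sd w) := hΘ _ _ hm1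
  have hf2 : Measurable fun v : SS d × ℝ => Θ (A ∩ sd (loc ϱ v)) := hf1.comp (measurable_loc ϱ)
  rw [piH, lintegral_prod _ hf1.aemeasurable, piL, lintegral_prod _ hf2.aemeasurable]
  have h1 : ∀ w : SS d, ∫⁻ t, Θ (A ∩ sd (w, t)) ∂unif =
      ENNReal.ofReal (1 - h / (2 * ϱ)) * Θ A +
      ENNReal.ofReal (h / (2 * ϱ)) * ∫⁻ τ, Θ (A ∩ sd (loc ϱ (w, τ))) ∂(unifh h) := by
    intro w
    refine lintegral_unif_split (F := fun t => Θ (A ∩ sd (w, t)))
      (a := ⟪(w : EE d), (e0 d : EE d)⟫) (abs_inner_e0_le w) hh hϱ fun t ht => ?_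
    rw [inter_sd_far hAB ht]
  simp_rw [h1]
  rw [lintegral_add_left measurable_const, lintegral_const, measure_univ, mul_one]
  congr 1
  exact lintegral_const_mul' _ _ ENNReal.ofReal_ne_top

/-- Intersection of the local half-spaces. -/
def cL {n : ℕ} (ϱ : ℝ) (v : Fin n → SS d × ℝ) : Set (SS d) := ⋂ i, sd (loc ϱ (v i))

lemma measurableSet_cL2 (n : ℕ) (ϱ : ℝ) :
    MeasurableSet {p : (Fin n → SS d × ℝ) × SS d | p.2 ∈ cL ϱ p.1} := by
  have : {p : (Fin n → SS d × ℝ) × SS d | p.2 ∈ cL ϱ p.1} =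
      ⋂ i, {p : (Fin n → SS d × ℝ) × SS d | p.2 ∈ sd (loc ϱ (p.1 i))} := by
    ext p
    simp [cL]
  rw [this]
  refine MeasurableSet.iInter fun i => measurableSet_eq_fun ?_ ?_
  · exact (measurable_side2 d).comp (f := fun p : (Fin n → SS d × ℝ) × SS d =>
      (loc ϱ (p.1 i), p.2)) (((measurable_loc ϱ).comp (by fun_prop)).prodMk measurable_snd)
  · exact (measurable_side (e0 d : EE d)).comp ((measurable_loc ϱ).comp (by fun_prop))

lemma measurableSet_cL {n : ℕ} (ϱ : ℝ) (v : Fin n → SS d × ℝ) : MeasurableSet (cL ϱ v) :=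
  MeasurableSet.iInter fun _ => measurableSet_sd _

/-- The average over `j` local hyperplanes. -/
noncomputable def LL (Θ : Set (SS d) → ℝ≥0∞) (ϱ h : ℝ) (j : ℕ) (A : Set (SS d)) : ℝ≥0∞ :=
  ∫⁻ v : Fin j → SS d × ℝ, Θ (A ∩ cL ϱ v) ∂(Measure.pi fun _ => piL d h)

lemma MF_LL {Θ : Set (SS d) → ℝ≥0∞} (hΘ : MF Θ) {ϱ h : ℝ} (hh : 0 < h) (j : ℕ) :
    MF (LL Θ ϱ h j) := by
  intro V _ S hS
  have := isProb_piL (d := d) hh
  have h1 : Measurable fun p : V × (Fin j → SS d × ℝ) => Θ ((Prod.mk p.1 ⁻¹' S) ∩ cL ϱ p.2) := by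
    have h2 : MeasurableSet {q : (V × (Fin j → SS d × ℝ)) × SS d |
        (q.1.1, q.2) ∈ S ∧ q.2 ∈ cL ϱ q.1.2} := by
      refine MeasurableSet.inter ?_ ?_
      · have hm : Measurable fun q : (V × (Fin j → SS d × ℝ)) × SS d => (q.1.1, q.2) := by fun_prop
        exact hm hS
      · have hm : Measurable fun q : (V × (Fin j → SS d × ℝ)) × SS d => (q.1.2, q.2) := by fun_prop
        exact hm (measurableSet_cL2 j ϱ)
    exact hΘ _ _ h2
  exact h1.lintegral_prod_right'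

lemma LL_succ {Θ : Set (SS d) → ℝ≥0∞} (hΘ : MF Θ) {ϱ h : ℝ} (hh : 0 < h) (j : ℕ)
    {A : Set (SS d)} (hA : MeasurableSet A) :
    LL Θ ϱ h (j + 1) A = ∫⁻ v, LL Θ ϱ h j (A ∩ sd (loc ϱ v)) ∂(piL d h) := by
  have := isProb_piL (d := d) hh
  have hm : Measurable fun v : Fin (j + 1) → SS d × ℝ => Θ (A ∩ cL ϱ v) :=
    hΘ _ {p | p.2 ∈ A ∧ p.2 ∈ cL ϱ p.1} ((measurable_snd hA).inter (measurableSet_cL2 _ ϱ))
  rw [LL, lintegral_pi_succ _ hm]
  refine lintegral_congr fun v => ?_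
  rw [LL]
  refine lintegral_congr fun v' => ?_
  congr 1
  ext x
  simp [cL, Fin.forall_fin_succ, and_assoc]

/-- The binomial expansion. -/
lemma binomial {Θ : Set (SS d) → ℝ≥0∞} (hΘ : MF Θ) {ϱ h : ℝ} (hh : 0 < h) (hϱ : h ≤ ϱ) (n : ℕ) :
    ∀ {A : Set (SS d)}, MeasurableSet A → (∀ x ∈ A, dist x (e0 d) ≤ h / ϱ) →
    ∫⁻ ω : Fin n → HH d, Θ (A ∩ c0 ω) ∂(piHn d n) = ∑ j ∈ Finset.range (n + 1),
      (n.choose j : ℝ≥0∞) * (ENNReal.ofReal (h / (2 * ϱ)) ^ j *
        ENNReal.ofReal (1 - h / (2 * ϱ)) ^ (n - j) * LL Θ ϱ h j A) := by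
  induction n with
  | zero =>
    intro A hA hAB
    simp [LL, cL, c0]
  | succ n ih =>
    intro A hA hAB
    have hm : Measurable fun ω : Fin (n + 1) → HH d => Θ (A ∩ c0 ω) := by
      have h2 : MeasurableSet {q : (Fin (n + 1) → HH d) × SS d | q.2 ∈ A ∧ q.2 ∈ c0 q.1} := by
        refine (measurable_snd hA).inter ?_
        have : {p : (Fin (n + 1) → HH d) × SS d | p.2 ∈ c0 p.1} =
            {p | pat p.1 (p.2 : EE d) = pat p.1 (e0 d : EE d)} := by
          ext p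
          simp only [c0_eq]
          rfl
        change MeasurableSet {p : (Fin (n + 1) → HH d) × SS d | p.2 ∈ c0 p.1}
        rw [this]
        refine measurableSet_eq_fun (measurable_pat d _) ?_
        exact (measurable_pat'' (e0 d)).comp measurable_fst
      exact hΘ _ _ h2
    rw [piHn, lintegral_pi_succ _ hm]
    have h1 : ∀ w : HH d, ∫⁻ ω : Fin n → HH d, Θ (A ∩ c0 (Fin.cons w ω : Fin (n + 1) → HH d))
        ∂(Measure.pi fun _ => piH d) = ∑ j ∈ Finset.range (n + 1),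
      (n.choose j : ℝ≥0∞) * (ENNReal.ofReal (h / (2 * ϱ)) ^ j *
        ENNReal.ofReal (1 - h / (2 * ϱ)) ^ (n - j) * LL Θ ϱ h j (A ∩ sd w)) := by
      intro w
      rw [← ih (hA.inter (measurableSet_sd w)) fun x hx => hAB x hx.1]
      refine lintegral_congr fun ω => ?_
      congr 1
      ext x
      simp [c0, Fin.forall_fin_succ, and_assoc]
    simp_rw [h1]
    have hmLL : ∀ j, Measurable fun w : HH d => LL Θ ϱ h j (A ∩ sd w) := by
      intro j
      have hm1 : MeasurableSet {p : HH d × SS d | p.2 ∈ A ∩ sd p.1} := by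
        refine (measurable_snd hA).inter ?_
        refine measurableSet_eq_fun (measurable_side2 d) ?_
        exact (measurable_side (e0 d : EE d)).comp measurable_fst
      exact MF_LL hΘ hh j _ _ hm1
    rw [lintegral_finsetSum _ fun j _ => ((hmLL j).const_mul _).const_mul _]
    have h2 : ∀ j, ∫⁻ w, (n.choose j : ℝ≥0∞) * (ENNReal.ofReal (h / (2 * ϱ)) ^ j *
        ENNReal.ofReal (1 - h / (2 * ϱ)) ^ (n - j) * LL Θ ϱ h j (A ∩ sd w)) ∂(piH d) =
        (n.choose j : ℝ≥0∞) * (ENNReal.ofReal (h / (2 * ϱ)) ^ j *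
        ENNReal.ofReal (1 - h / (2 * ϱ)) ^ (n + 1 - j) * LL Θ ϱ h j A) +
        (n.choose j : ℝ≥0∞) * (ENNReal.ofReal (h / (2 * ϱ)) ^ (j + 1) *
        ENNReal.ofReal (1 - h / (2 * ϱ)) ^ (n - j) * LL Θ ϱ h (j + 1) A) := by
      intro j
      rw [lintegral_const_mul _ ((hmLL j).const_mul _), lintegral_const_mul _ (hmLL j),
        single (MF_LL hΘ hh j) hA hh hϱ hAB, ← LL_succ hΘ hh j hA]
      rcases le_or_gt j n with hj | hj
      · rw [Nat.succ_sub hj, pow_succ (ENNReal.ofReal (1 - h / (2 * ϱ))), pow_succ]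
        ring
      · rw [Nat.choose_eq_zero_of_lt hj]
        simp
    simp_rw [h2]
    rw [Finset.sum_add_distrib]
    exact (Finset.sum_choose_succ_mul (fun i j => ENNReal.ofReal (h / (2 * ϱ)) ^ i *
        ENNReal.ofReal (1 - h / (2 * ϱ)) ^ j * LL Θ ϱ h i A) n).symm

end

end Pool.Agent.Lib.MP_1fcdcf_an
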