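import Mathlib
import Pool.Agent.Lib.MP_1fcdcf_an.LocalRec

open MeasureTheory Set Metric
open scoped ENNReal NNReal symmDiff RealInnerProductSpace

namespace Pool.Agent.Lib.MP_1fcdcf_an

section

variable {s : ℝ} {d : ℕ}

lemma dist_le_of_mem_GB {r : ℝ} (hr : 0 ≤ r) {x : SS d} (hx : x ∈ GB r) : dist x (e0 d) ≤ r := by
  have h1 := sq_coord_of_mem hx
  have h2 := coord_le_one x
  have h3 := hx.1
  have h4 := dist_e0_sq x
  refine abs_le_of_sq_le_sq' ?_ hr |>.2
  rw [h4]
  set c := (x : EE d) 0 with hc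
  nlinarith [mul_nonneg (sub_nonneg.2 h2) h3.le, sq_nonneg r, mul_nonneg (mul_nonneg (sub_nonneg.2 h2) h3.le) h3.le, sq_nonneg (1 - c)]

/-- The signed basis vectors. -/
noncomputable def bv (d : ℕ) (i : Fin (d + 1)) (b : Bool) : SS d :=
  ⟨if b then EuclideanSpace.single i 1 else -EuclideanSpace.single i 1, by
    cases b <;> simp⟩

lemma inner_bv (i : Fin (d + 1)) (b : Bool) (z : EE d) :
    ⟪(bv d i b : EE d), z⟫ = if b then z i else -z i := by
  cases b <;> simp [bv, EuclideanSpace.inner_single_left, inner_neg_left]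

/-- The radius of the classes of directions. -/
noncomputable def eta (d : ℕ) : ℝ := (2 * ((d : ℝ) + 1))⁻¹

lemma eta_pos (d : ℕ) : 0 < eta d := by unfold eta; positivity

/-- Classes of hyperplanes. -/
def Hcl (d : ℕ) (i : Fin (d + 1)) (b : Bool) (a : ℝ) : Set (HH d) :=
  {h | dist h.1 (bv d i b) < eta d ∧ ⟪(h.1 : EE d), (e0 d : EE d)⟫ < h.2 ∧
    h.2 ≤ ⟪(h.1 : EE d), (e0 d : EE d)⟫ + a}

lemma norm_le_sum_coord (z : EE d) : ‖z‖ ≤ ∑ i, |z i| := by
  rw [EuclideanSpace.norm_eq]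
  refine Real.sqrt_le_iff.2 ⟨Finset.sum_nonneg fun i _ => abs_nonneg _, ?_⟩
  simp only [Real.norm_eq_abs]
  exact Finset.sum_sq_le_sq_sum_of_nonneg fun i _ => abs_nonneg _

lemma c0_subset {n : ℕ} (ω : Fin n → HH d) {a : ℝ} (H : ∀ i b, ∃ k, ω k ∈ Hcl d i b a) :
    c0 ω ⊆ closedBall (e0 d) (2 * ((d : ℝ) + 1) * a) := by
  intro x hx
  rw [mem_closedBall]
  have hx' : ∀ k, x ∈ sd (ω k) := by simpa [c0] using hx
  set z : EE d := (x : EE d) - (e0 d : EE d) with hz
  have hdist : dist x (e0 d) = ‖z‖ := by rw [Subtype.dist_eq, dist_eq_norm]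
  have key : ∀ i b, ⟪(bv d i b : EE d), z⟫ ≤ a + eta d * ‖z‖ := by
    intro i b
    obtain ⟨k, hk1, hk2, hk3⟩ := H i b
    have h1 := (side_eq_iff (ω k) (x : EE d) (e0 d : EE d)).1 (hx' k)
    have h2 := h1.2 hk2
    have h3 : ⟪((ω k).1 : EE d), z⟫ ≤ a := by
      rw [hz, inner_sub_right]; linarith
    have h4 : ⟪(bv d i b : EE d) - ((ω k).1 : EE d), z⟫ ≤ eta d * ‖z‖ := by
      refine (real_inner_le_norm _ _).trans ?_
      gcongr
      rw [← dist_eq_norm, ← Subtype.dist_eq, dist_comm]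
      exact hk1.le
    rw [inner_sub_left] at h4
    linarith
  have h5 : ∀ i, |z i| ≤ a + eta d * ‖z‖ := by
    intro i
    rw [abs_le]
    have h6 := key i true
    have h7 := key i false
    rw [inner_bv] at h6 h7
    simp only [if_true, Bool.false_eq_true, if_false] at h6 h7
    constructor <;> linarith
  have h6 : ‖z‖ ≤ ((d : ℝ) + 1) * (a + eta d * ‖z‖) := by
    calc ‖z‖ ≤ ∑ i, |z i| := norm_le_sum_coord z
      _ ≤ ∑ i : Fin (d + 1), (a + eta d * ‖z‖) := Finset.sum_le_sum fun i _ => h5 i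
      _ = _ := by simp [mul_add]
  have h7 : ((d : ℝ) + 1) * eta d = 1 / 2 := by
    unfold eta
    have : (0 : ℝ) < (d : ℝ) + 1 := by positivity
    field_simp
  rw [hdist]
  have h8 : ((d : ℝ) + 1) * (a + eta d * ‖z‖) = ((d : ℝ) + 1) * a + ‖z‖ / 2 := by
    rw [mul_add, ← mul_assoc, h7]; ring
  rw [h8] at h6
  linarith

lemma measurableSet_Hcl (i : Fin (d + 1)) (b : Bool) (a : ℝ) : MeasurableSet (Hcl d i b a) := by
  have h1 : Measurable fun h : HH d => ⟪(h.1 : EE d), (e0 d : EE d)⟫ := measurable_inner_prod _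
  refine MeasurableSet.inter ?_ (MeasurableSet.inter ?_ ?_)
  · exact measurableSet_lt (measurable_fst.dist measurable_const) measurable_const
  · exact measurableSet_lt h1 measurable_snd
  · exact measurableSet_le measurable_snd (h1.add_const a)

/-- The measure of the small caps. -/
noncomputable def ccap (d : ℕ) : ℝ := (sig d (ball (e0 d) (eta d))).toReal

lemma sig_ball_eq (x : SS d) (r : ℝ) : sig d (ball x r) = sig d (ball (e0 d) r) := by
  obtain ⟨g, rfl⟩ := exists_rot_eq (e0 d) x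
  rw [← (measurePreserving_rot g).measure_preimage measurableSet_ball.nullMeasurableSet]
  congr 1
  ext y
  simp only [mem_preimage, mem_ball, dist_rot]

lemma ofReal_ccap (x : SS d) : sig d (ball x (eta d)) = ENNReal.ofReal (ccap d) := by
  rw [sig_ball_eq, ccap, ENNReal.ofReal_toReal (measure_ne_top _ _)]

lemma ccap_pos (d : ℕ) : 0 < ccap d := by
  refine ENNReal.toReal_pos ?_ (measure_ne_top _ _)
  exact (isOpen_ball.measure_pos _ ⟨e0 d, mem_ball_self (eta_pos d)⟩).ne'

lemma ccap_le_one (d : ℕ) : ccap d ≤ 1 := by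
  rw [ccap]
  exact ENNReal.toReal_le_of_le_ofReal zero_le_one (by rw [ENNReal.ofReal_one]; exact prob_le_one)

lemma piH_Hcl (i : Fin (d + 1)) (b : Bool) {a : ℝ} (ha : 0 ≤ a) (ha1 : a ≤ 1) :
    piH d (Hcl d i b a) = ENNReal.ofReal (ccap d * (a / 4)) := by
  rw [piH, Measure.prod_apply (measurableSet_Hcl i b a)]
  have h1 : ∀ w : SS d, unif (Prod.mk w ⁻¹' (Hcl d i b a)) =
      (ball (bv d i b) (eta d)).indicator (fun _ => ENNReal.ofReal (a / 4)) w := by
    intro w
    by_cases hw : w ∈ ball (bv d i b) (eta d)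
    · rw [indicator_of_mem hw]
      have hpre : Prod.mk w ⁻¹' (Hcl d i b a) = Ioc (⟪(w : EE d), (e0 d : EE d)⟫)
          (⟪(w : EE d), (e0 d : EE d)⟫ + a) := by
        ext t
        simp only [mem_preimage, Hcl, mem_ofPred_eq, mem_Ioc]
        rw [mem_ball] at hw
        simp [hw]
      have habs := abs_le.1 (abs_inner_e0_le w)
      rw [hpre, unif, Measure.smul_apply, Measure.restrict_apply measurableSet_Ioc,
        inter_eq_left.2, Real.volume_Ioc, smul_eq_mul]
      · rw [add_sub_cancel_left, ENNReal.ofReal_div_of_pos (by norm_num), ENNReal.ofReal_ofNat,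
          ENNReal.div_eq_inv_mul]
      · intro t ht
        constructor
        · linarith [ht.1]
        · linarith [ht.2]
    · rw [indicator_of_notMem hw]
      have hpre : Prod.mk w ⁻¹' (Hcl d i b a) = ∅ := by
        ext t
        simp only [mem_preimage, Hcl, mem_ofPred_eq, mem_empty_iff_false, iff_false]
        rintro ⟨h, _⟩
        exact hw h
      rw [hpre, measure_empty]
  simp_rw [h1]
  rw [lintegral_indicator measurableSet_ball, setLIntegral_const, ofReal_ccap,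
    ← ENNReal.ofReal_mul (by positivity), mul_comm]

lemma prob_miss (i : Fin (d + 1)) (b : Bool) {a : ℝ} (ha : 0 ≤ a) (ha1 : a ≤ 1) (n : ℕ) :
    piHn d n {ω | ∀ k, ω k ∉ Hcl d i b a} ≤
      ENNReal.ofReal (Real.exp (-(ccap d * (a / 4)) * n)) := by
  have h1 : {ω : Fin n → HH d | ∀ k, ω k ∉ Hcl d i b a} = Set.pi univ fun _ => (Hcl d i b a)ᶜ := by
    ext ω
    simp
  rw [h1, Measure.pi_pi, prob_compl_eq_one_sub (measurableSet_Hcl i b a), piH_Hcl i b ha ha1,
    Finset.prod_const, Finset.card_univ, Fintype.card_fin, ← ENNReal.ofReal_one,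
    ← ENNReal.ofReal_sub _ (by have := ccap_pos d; positivity), ← ENNReal.ofReal_pow]
  · apply ENNReal.ofReal_le_ofReal
    have h2 : Real.exp (-(ccap d * (a / 4)) * n) = Real.exp (-(ccap d * (a / 4))) ^ n := by
      rw [← Real.exp_nat_mul]; ring_nf
    rw [h2]
    have := ccap_pos d
    have := ccap_le_one d
    apply pow_le_pow_left₀
    · nlinarith
    · linarith [Real.add_one_le_exp (-(ccap d * (a / 4)))]
  · have := ccap_pos d
    have := ccap_le_one d
    nlinarith

/-- The event that some class of hyperplanes is missed. -/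
def Miss (d n : ℕ) (a : ℝ) : Set (Fin n → HH d) := ⋃ i, ⋃ b, {ω | ∀ k, ω k ∉ Hcl d i b a}

lemma measurableSet_Miss (n : ℕ) (a : ℝ) : MeasurableSet (Miss d n a) := by
  refine MeasurableSet.iUnion fun i => MeasurableSet.iUnion fun b => ?_
  have h1 : {ω : Fin n → HH d | ∀ k, ω k ∉ Hcl d i b a} = Set.pi univ fun _ => (Hcl d i b a)ᶜ := by
    ext ω
    simp
  rw [h1]
  exact MeasurableSet.univ_pi fun _ => (measurableSet_Hcl i b a).compl

lemma prob_Miss {a : ℝ} (ha : 0 ≤ a) (ha1 : a ≤ 1) (n : ℕ) :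
    piHn d n (Miss d n a) ≤
      (2 * ((d : ℝ≥0∞) + 1)) * ENNReal.ofReal (Real.exp (-(ccap d * (a / 4)) * n)) := by
  calc piHn d n (Miss d n a) ≤ ∑ i : Fin (d + 1), ∑ b : Bool, piHn d n {ω | ∀ k, ω k ∉ Hcl d i b a} := by
        refine (measure_iUnion_fintype_le _ _).trans ?_
        exact Finset.sum_le_sum fun i _ => measure_iUnion_fintype_le _ _
    _ ≤ ∑ i : Fin (d + 1), ∑ b : Bool, ENNReal.ofReal (Real.exp (-(ccap d * (a / 4)) * n)) :=
        Finset.sum_le_sum fun i _ => Finset.sum_le_sum fun b _ => prob_miss i b ha ha1 n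
    _ = _ := by
        simp
        ring

lemma c0_subset_GB {n : ℕ} {a : ℝ} (ha : 0 ≤ a) (ha1 : 4 * ((d : ℝ) + 1) * a ≤ 1)
    {ω : Fin n → HH d} (hω : ω ∉ Miss d n a) : c0 ω ⊆ GB (4 * ((d : ℝ) + 1) * a) := by
  have H : ∀ i b, ∃ k, ω k ∈ Hcl d i b a := by
    intro i b
    by_contra hcon
    push Not at hcon
    exact hω (mem_iUnion.2 ⟨i, mem_iUnion.2 ⟨b, hcon⟩⟩)
  refine (c0_subset ω H).trans ?_
  have := closedBall_subset_GB (d := d) (r := 2 * ((d : ℝ) + 1) * a) (by positivity) (by linarith)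
  refine this.trans (le_of_eq ?_)
  congr 1
  ring

end

end Pool.Agent.Lib.MP_1fcdcf_an
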