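import Mathlib
import Pool.Agent.Lib.MP_1fcdcf_an.Trunc
import Pool.Agent.Lib.MP_1fcdcf_an.Geom2

open MeasureTheory Set Metric Filter
open scoped ENNReal NNReal symmDiff RealInnerProductSpace Topology

namespace Pool.Agent.Lib.MP_1fcdcf_an

section

variable {s : ℝ} {d : ℕ}

/-- The image of a set under `Tq q`. -/
noncomputable def TT (q : ℝ) (A : Set (SS d)) : Set (SS d) := Tq q⁻¹ ⁻¹' A

lemma measurableSet_TT {q : ℝ} (hq : 0 < q) {A : Set (SS d)} (hA : MeasurableSet A) :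
    MeasurableSet (TT q A) := measurable_Tq (inv_pos.2 hq) hA

lemma preimage_TT {q : ℝ} (hq : 0 < q) (A : Set (SS d)) : Tq q ⁻¹' (TT q A) = A := by
  ext x
  simp [TT, Tq_inv_Tq hq]

lemma TT_preimage {q : ℝ} (hq : 0 < q) (A : Set (SS d)) : TT q (Tq q ⁻¹' A) = A := by
  ext x
  simp [TT, Tq_Tq_inv hq]

lemma preimage_TT_mul {q r : ℝ} (hq : 0 < q) (hr : 0 < r) (A : Set (SS d)) :
    Tq q ⁻¹' (TT (r * q) A) = TT r A := by
  ext x
  simp only [TT, mem_preimage]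
  rw [Tq_Tq (by positivity) hq]
  have : q * (r * q)⁻¹ = r⁻¹ := by field_simp
  rw [this]

lemma TT_TT {q r : ℝ} (hq : 0 < q) (hr : 0 < r) (A : Set (SS d)) :
    TT q (TT r A) = TT (r * q) A := by
  ext x
  simp only [TT, mem_preimage]
  rw [Tq_Tq (by positivity) (by positivity)]
  have : q⁻¹ * r⁻¹ = (r * q)⁻¹ := by field_simp
  rw [this]

lemma TT_GB {q r : ℝ} (hq : 0 < q) : TT q (GB r : Set (SS d)) = GB (r / q) := by
  ext x
  rw [TT, mem_preimage, Tq_mem_GB (inv_pos.2 hq), inv_mul_eq_div]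

lemma TT_mono (q : ℝ) {A B : Set (SS d)} (h : A ⊆ B) : TT q A ⊆ TT q B := preimage_mono h

lemma TT_sub_GB {q r : ℝ} (hq : 0 < q) {A : Set (SS d)} (h : A ⊆ GB r) : TT q A ⊆ GB (r / q) := by
  rw [← TT_GB hq]
  exact TT_mono q h

lemma TT_diff (q : ℝ) (A B : Set (SS d)) : TT q (A \ B) = TT q A \ TT q B := rfl

/-- Transplantation of the uniform measure. -/
lemma map_restrict_le {q : ℝ} (hq : 1 ≤ q) {N N' : ℕ} (hN : (N : ℝ) * q ^ d = N')
    {B : Set (SS d)} (hB : MeasurableSet B) :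
    (((N : ℝ≥0∞) • sig d).restrict B).map (Tq q) ≤ ((N' : ℝ≥0∞) • sig d).restrict (TT q B) := by
  have hq0 : 0 < q := by linarith
  refine Measure.le_iff.2 fun E hE => ?_
  rw [Measure.map_apply (measurable_Tq hq0) hE, Measure.restrict_apply hE,
    Measure.restrict_apply (measurable_Tq hq0 hE), Measure.smul_apply, Measure.smul_apply,
    smul_eq_mul, smul_eq_mul]
  have h1 : Tq q ⁻¹' E ∩ B = Tq q ⁻¹' (E ∩ TT q B) := by
    rw [preimage_inter, preimage_TT hq0]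
  rw [h1]
  calc (N : ℝ≥0∞) * sig d (Tq q ⁻¹' (E ∩ TT q B))
      ≤ (N : ℝ≥0∞) * (ENNReal.ofReal (q ^ d) * sig d (E ∩ TT q B)) := by
        gcongr
        exact sig_preimage_le hq (hE.inter (measurableSet_TT hq0 hB))
    _ = (N' : ℝ≥0∞) * sig d (E ∩ TT q B) := by
        rw [← mul_assoc, ← ENNReal.ofReal_natCast N, ← ENNReal.ofReal_mul (by positivity), hN,
          ENNReal.ofReal_natCast]

lemma KK_ne_zero (hs : 0 < s) (x y : SS d) : KK s x y ≠ 0 := by
  have h := KK_ge hs x y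
  intro h0
  rw [h0, nonpos_iff_eq_zero, ENNReal.ofReal_eq_zero] at h
  have : (0 : ℝ) < 2 ^ (-s) := by positivity
  linarith

lemma Tq_injective {q : ℝ} (hq : 0 < q) : Function.Injective (Tq (d := d) q) := fun x y h => by
  rw [← Tq_inv_Tq hq x, h, Tq_inv_Tq hq]

lemma KK_Tq_le (hs : 0 < s) {q r : ℝ} (hq : 1 ≤ q) (hr : 0 ≤ r) (hr1 : r < 1) {x y : SS d}
    (hx : x ∈ GB r) (hy : y ∈ GB r) :
    KK s (Tq q x) (Tq q y) ≤ ENNReal.ofReal ((1 - r ^ 2) ^ (-s) * q ^ s) * KK s x y := by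
  have hq0 : 0 < q := by linarith
  have hr2 : 0 < 1 - r ^ 2 := by nlinarith
  rcases eq_or_ne x y with rfl | hxy
  · rw [KK_self hs x, ENNReal.mul_top]
    · exact le_top
    · simp only [ne_eq, ENNReal.ofReal_eq_zero, not_le]
      positivity
  · have hne : Tq q x ≠ Tq q y := fun h => hxy (Tq_injective hq0 h)
    have hd0 : 0 < dist x y := dist_pos.2 hxy
    rw [KK_of_ne hne, KK_of_ne hxy, ← ENNReal.ofReal_mul (by positivity)]
    apply ENNReal.ofReal_le_ofReal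
    have h1 := le_dist_Tq hq hr hr1 hx hy
    calc dist (Tq q x) (Tq q y) ^ (-s) ≤ ((1 - r ^ 2) * (q⁻¹ * dist x y)) ^ (-s) :=
          Real.rpow_le_rpow_of_nonpos (by positivity) h1 (by linarith)
      _ = _ := by
          rw [Real.mul_rpow hr2.le (by positivity), Real.mul_rpow (by positivity) hd0.le,
            Real.inv_rpow hq0.le, Real.rpow_neg hq0.le, inv_inv]
          ring

lemma le_KK_Tq (hs : 0 < s) {q r : ℝ} (hq : 1 ≤ q) (hr : 0 ≤ r) (hr1 : r < 1) {x y : SS d}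
    (hx : x ∈ GB r) (hy : y ∈ GB r) :
    ENNReal.ofReal ((1 - r ^ 2) ^ s * q ^ s) * KK s x y ≤ KK s (Tq q x) (Tq q y) := by
  have hq0 : 0 < q := by linarith
  have hr2 : 0 < 1 - r ^ 2 := by nlinarith
  rcases eq_or_ne x y with rfl | hxy
  · rw [KK_self hs (Tq q x)]
    exact le_top
  · have hne : Tq q x ≠ Tq q y := fun h => hxy (Tq_injective hq0 h)
    have hd0 : 0 < dist x y := dist_pos.2 hxy
    have hd1 : 0 < dist (Tq q x) (Tq q y) := dist_pos.2 hne
    rw [KK_of_ne hne, KK_of_ne hxy, ← ENNReal.ofReal_mul (by positivity)]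
    apply ENNReal.ofReal_le_ofReal
    have h1 := dist_Tq_le hq hr hr1 hx hy
    have h2 : dist (Tq q x) (Tq q y) ≤ (1 - r ^ 2)⁻¹ * (q⁻¹ * dist x y) := by
      rw [← div_eq_inv_mul, le_div_iff₀ hr2, mul_comm]
      exact h1
    refine le_trans (le_of_eq ?_) (Real.rpow_le_rpow_of_nonpos hd1 h2 (by linarith : -s ≤ 0))
    rw [Real.mul_rpow (by positivity) (by positivity), Real.mul_rpow (by positivity) hd0.le,
      Real.inv_rpow hq0.le, Real.rpow_neg hq0.le, inv_inv, Real.inv_rpow hr2.le,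
      Real.rpow_neg hr2.le, inv_inv]
    ring

/-- The relative error of transplantation. -/
noncomputable def dlt (s r : ℝ) : ℝ := (1 - r ^ 2) ^ (-s) - (1 - r ^ 2) ^ s

lemma dlt_nonneg (hs : 0 < s) {r : ℝ} (hr : 0 ≤ r) (hr1 : r < 1) : 0 ≤ dlt s r := by
  have hr2 : 0 < 1 - r ^ 2 := by nlinarith
  have hr3 : 1 - r ^ 2 ≤ 1 := by nlinarith
  have h1 := Real.rpow_le_one hr2.le hr3 hs.le
  have h2 := Real.one_le_rpow_of_pos_of_le_one_of_nonpos hr2 hr3 (by linarith : -s ≤ 0)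
  unfold dlt
  linarith

/-- Transplantation of the gain. -/
lemma transplant (hs : 0 < s) (hd : 1 ≤ d) (hsd : s < d) {q r : ℝ} (hq : 1 ≤ q) (hr : 0 ≤ r)
    (hr1 : r < 1) {N N' : ℕ} (hN : (N : ℝ) * q ^ d = N') {B : Set (SS d)} (hB : MeasurableSet B)
    (hBr : B ⊆ GB r) :
    ENNReal.ofReal (q ^ s) * DN s N B ≤ DN s N' (TT q B) + ENNReal.ofReal (q ^ s) *
      (ENNReal.ofReal (dlt s r) * II s (((N : ℝ≥0∞) • sig d).restrict B)
        (((N : ℝ≥0∞) • sig d).restrict B)) := by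
  have hq0 : 0 < q := by linarith
  have hr2 : 0 < 1 - r ^ 2 := by nlinarith
  set ρ : Measure (SS d) := ((N : ℝ≥0∞) • sig d).restrict B with hρ
  have hle : ρ ≤ (N : ℝ≥0∞) • sig d := Measure.restrict_le_self
  have f1 : IsFiniteMeasure ρ := finite_of_le hle
  have hII : II s ρ ρ ≠ ⊤ := II_ne_top hs hd hsd hle
  have heR : eR s ρ ≠ ⊤ := ne_top_of_le_ne_top hII (eR_le_II ρ)
  have hρB : ρ.restrict B = ρ := by
    rw [hρ, Measure.restrict_restrict hB, inter_self]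
  have hmap := map_restrict_le hq hN hB
  rw [← hρ] at hmap
  have h1 : DD s (ρ.map (Tq q)) ≤ DN s N' (TT q B) :=
    DD_mono hs hd hsd hmap Measure.restrict_le_self
  set c1 : ℝ := (1 - r ^ 2) ^ (-s) * q ^ s with hc1
  set c2 : ℝ := (1 - r ^ 2) ^ s * q ^ s with hc2
  have hc1p : 0 < c1 := by positivity
  have hc2p : 0 < c2 := by positivity
  have h2 : eR s (ρ.map (Tq q)) ≤ ENNReal.ofReal c1 * eR s ρ := by
    refine eR_map_le hB hρB (measurable_Tq hq0) ?_ ENNReal.ofReal_ne_top fun x hx y hy => ?_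
    · simpa using hc1p
    · exact KK_Tq_le hs hq hr hr1 (hBr hx) (hBr hy)
  have h3 : ENNReal.ofReal c2 * II s ρ ρ ≤ II s (ρ.map (Tq q)) (ρ.map (Tq q)) :=
    II_map_ge hB hρB (measurable_Tq hq0) fun x hx y hy =>
      le_KK_Tq hs hq hr hr1 (hBr hx) (hBr hy)
  -- combine
  have h4 : ENNReal.ofReal c2 * II s ρ ρ ≤ DN s N' (TT q B) + ENNReal.ofReal c1 * eR s ρ := by
    refine h3.trans ?_
    have f2 : IsFiniteMeasure (ρ.map (Tq q)) := by infer_instance
    rw [← DD_add_eR]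
    exact add_le_add h1 h2
  have h5 : ENNReal.ofReal c1 * II s ρ ρ = ENNReal.ofReal c2 * II s ρ ρ +
      ENNReal.ofReal (q ^ s) * (ENNReal.ofReal (dlt s r) * II s ρ ρ) := by
    rw [← mul_assoc, ← ENNReal.ofReal_mul (by positivity), ← add_mul,
      ← ENNReal.ofReal_add hc2p.le (mul_nonneg (by positivity) (dlt_nonneg hs hr hr1))]
    congr 2
    rw [hc1, hc2, dlt]
    ring
  have h6 : ENNReal.ofReal c1 * DD s ρ + ENNReal.ofReal c1 * eR s ρ ≤
      (DN s N' (TT q B) + ENNReal.ofReal (q ^ s) * (ENNReal.ofReal (dlt s r) * II s ρ ρ)) +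
        ENNReal.ofReal c1 * eR s ρ := by
    rw [← mul_add, DD_add_eR, h5]
    calc ENNReal.ofReal c2 * II s ρ ρ + ENNReal.ofReal (q ^ s) *
          (ENNReal.ofReal (dlt s r) * II s ρ ρ)
        ≤ (DN s N' (TT q B) + ENNReal.ofReal c1 * eR s ρ) + ENNReal.ofReal (q ^ s) *
          (ENNReal.ofReal (dlt s r) * II s ρ ρ) := by gcongr
      _ = _ := by ring
  have h7 := (ENNReal.add_le_add_iff_right (ENNReal.mul_ne_top ENNReal.ofReal_ne_top heR)).1 h6
  refine le_trans ?_ h7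
  change ENNReal.ofReal (q ^ s) * DD s ρ ≤ _
  gcongr
  rw [hc1]
  have h8 := Real.one_le_rpow_of_pos_of_le_one_of_nonpos hr2 (by nlinarith : 1 - r ^ 2 ≤ 1)
    (by linarith : -s ≤ 0)
  have h9 : 0 < q ^ s := by positivity
  nlinarith

end

end Pool.Agent.Lib.MP_1fcdcf_an
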