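import Mathlib
import Pool.Agent.Lib.MP_1fcdcf_an.Scale

open MeasureTheory Set Metric Filter
open scoped ENNReal NNReal symmDiff RealInnerProductSpace Topology

namespace Pool.Agent.Lib.MP_1fcdcf_an

section

variable {s : ℝ} {d : ℕ}

/-- The inverse local length. -/
noncomputable def rr (d N : ℕ) : ℝ := (N : ℝ) ^ ((d : ℝ)⁻¹)

lemma one_le_rr {N : ℕ} (hN : 1 ≤ N) : 1 ≤ rr d N := one_le_root hN

lemma rr_pos {N : ℕ} (hN : 1 ≤ N) : 0 < rr d N := zero_lt_one.trans_le (one_le_rr hN)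

lemma rr_pow (hd : 1 ≤ d) (N : ℕ) : rr d N ^ d = N := by
  have hd0 : (d : ℝ) ≠ 0 := by positivity
  rw [rr, ← Real.rpow_natCast, ← Real.rpow_mul (by positivity), inv_mul_cancel₀ hd0, Real.rpow_one]

lemma rr_rpow (hd : 1 ≤ d) (N : ℕ) (t : ℝ) : rr d N ^ t = (N : ℝ) ^ (t / d) := by
  rw [rr, ← Real.rpow_mul (by positivity)]
  congr 1
  field_simp

lemma rr_mono {N N' : ℕ} (h : N ≤ N') : rr d N ≤ rr d N' := by
  unfold rr
  gcongr

lemma tendsto_rr (hd : 1 ≤ d) : Tendsto (rr d) atTop atTop := by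
  unfold rr
  have hd0 : (0 : ℝ) < d := by exact_mod_cast hd
  exact (tendsto_rpow_atTop (inv_pos.2 hd0)).comp tendsto_natCast_atTop_atTop

/-- Rescaled area. -/
noncomputable def alph {d : ℕ} (N : ℕ) (A : Set (SS d)) : ℝ≥0∞ := N * sig d (TT (rr d N) A)

/-- Rescaled gain. -/
noncomputable def bet (s : ℝ) {d : ℕ} (N : ℕ) (A : Set (SS d)) : ℝ≥0∞ :=
  ENNReal.ofReal ((N : ℝ) ^ (-(s / d))) * DN s N (TT (rr d N) A)

lemma alph_mono (hd : 1 ≤ d) {N N' : ℕ} (hN : 1 ≤ N) (h : N ≤ N') {A : Set (SS d)}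
    (hA : MeasurableSet A) : alph N A ≤ alph N' A := by
  have hr := rr_pos (d := d) hN
  have hr' := rr_pos (d := d) (hN.trans h)
  set q := rr d N' / rr d N with hq
  have hq1 : 1 ≤ q := (one_le_div hr).2 (rr_mono h)
  have hq0 : 0 < q := by positivity
  have e1 : rr d N * q = rr d N' := by rw [hq]; field_simp
  have e2 : (N : ℝ) * q ^ d = N' := by
    rw [← rr_pow hd N, ← mul_pow, e1, rr_pow hd]
  have h1 := sig_preimage_le hq1 (measurableSet_TT hr' hA)
  rw [← e1, preimage_TT_mul hq0 hr, e1] at h1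
  rw [alph, alph]
  calc (N : ℝ≥0∞) * sig d (TT (rr d N) A)
      ≤ (N : ℝ≥0∞) * (ENNReal.ofReal (q ^ d) * sig d (TT (rr d N') A)) := by gcongr
    _ = _ := by
        rw [← mul_assoc, ← ENNReal.ofReal_natCast N, ← ENNReal.ofReal_mul (by positivity), e2,
          ENNReal.ofReal_natCast]

/-- The constant in the area bound. -/
noncomputable def Ca (d : ℕ) (h : ℝ) : ℝ≥0∞ := ENNReal.ofReal ((1 + h ^ 2) ^ (d + 1))

lemma alph_le (hd : 1 ≤ d) {N : ℕ} (hN : 1 ≤ N) {h : ℝ} {A : Set (SS d)}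
    (hA : MeasurableSet A) (hAh : A ⊆ GB h) : alph N A ≤ Ca d h * sig d A := by
  have hr := rr_pos (d := d) hN
  have h1 := sig_le_preimage (one_le_rr hN) (measurableSet_TT hr hA) (TT_sub_GB hr hAh)
  rw [preimage_TT hr, rr_pow hd, ENNReal.ofReal_natCast] at h1
  exact h1

lemma le_alph (hd : 1 ≤ d) {N : ℕ} (hN : 1 ≤ N) {A : Set (SS d)}
    (hA : MeasurableSet A) : sig d A ≤ alph N A := by
  have hr := rr_pos (d := d) hN
  have h1 := sig_preimage_le (one_le_rr (d := d) hN) (measurableSet_TT hr hA)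
  rw [preimage_TT hr, rr_pow hd, ENNReal.ofReal_natCast] at h1
  exact h1

lemma ofReal_rpow_mul {N : ℕ} (hN : 1 ≤ N) (t : ℝ) :
    ENNReal.ofReal ((N : ℝ) ^ (-t)) * ENNReal.ofReal ((N : ℝ) ^ t) = 1 := by
  have hN0 : (0 : ℝ) < N := by exact_mod_cast hN
  rw [← ENNReal.ofReal_mul (by positivity), ← Real.rpow_add hN0]
  simp

lemma bet_le (hs : 0 < s) (hsd : s < d) {N : ℕ} (hN : 1 ≤ N) (A : Set (SS d)) :
    bet s N A ≤ CE s d * alph N A := by
  rw [bet, alph]
  calc ENNReal.ofReal ((N : ℝ) ^ (-(s / d))) * DN s N (TT (rr d N) A)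
      ≤ ENNReal.ofReal ((N : ℝ) ^ (-(s / d))) * (CE s d * ENNReal.ofReal ((N : ℝ) ^ (s / d)) *
          (((N : ℝ≥0∞) • sig d).restrict (TT (rr d N) A)) univ) := by
        gcongr
        exact DD_le hs hsd hN Measure.restrict_le_self
    _ = (ENNReal.ofReal ((N : ℝ) ^ (-(s / d))) * ENNReal.ofReal ((N : ℝ) ^ (s / d))) *
          (CE s d * (N * sig d (TT (rr d N) A))) := by
        rw [Measure.restrict_apply_univ, Measure.smul_apply, smul_eq_mul]
        ring
    _ = _ := by rw [ofReal_rpow_mul hN, one_mul]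

/-- The constant in the local energy bound. -/
noncomputable def CI (s : ℝ) (d : ℕ) (h : ℝ) : ℝ≥0∞ :=
  CK s d * ENNReal.ofReal ((2 * h) ^ ((d : ℝ) - s))

lemma CI_ne_top (hsd : s < d) (h : ℝ) : CI s d h ≠ ⊤ :=
  ENNReal.mul_ne_top (CK_ne_top hsd) ENNReal.ofReal_ne_top

lemma II_local (hs : 0 < s) (hd : 1 ≤ d) {N : ℕ} (hN : 1 ≤ N) {h : ℝ} (hh : 0 < h)
    {B B' : Set (SS d)} (hB : MeasurableSet B)
    (hBh : B ⊆ GB (h / rr d N)) (hBh' : B' ⊆ GB (h / rr d N)) :
    ENNReal.ofReal ((N : ℝ) ^ (-(s / d))) * II s (((N : ℝ≥0∞) • sig d).restrict B)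
      (((N : ℝ≥0∞) • sig d).restrict B') ≤ CI s d h * (N * sig d B) := by
  have hr := rr_pos (d := d) hN
  have hN0 : (0 : ℝ) < N := by exact_mod_cast hN
  have hd0 : (0 : ℝ) < d := by exact_mod_cast hd
  set R : ℝ := 2 * h / rr d N with hR
  have hR0 : 0 < R := by positivity
  have h1 : ∀ x ∈ B, ∫⁻ y in B', KK s x y ∂(sig d) ≤
      CK s d * ENNReal.ofReal (R ^ ((d : ℝ) - s)) := by
    intro x hx
    refine le_trans ?_ (lintegral_KK_closedBall_le hs hd x hR0)
    refine lintegral_mono' (Measure.restrict_mono ?_ le_rfl) le_rfl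
    intro y hy
    have h2 := dist_le_of_mem_GB (by positivity) (hBh hx)
    have h3 := dist_le_of_mem_GB (by positivity) (hBh' hy)
    rw [mem_closedBall]
    calc dist y x ≤ dist y (e0 d) + dist x (e0 d) := dist_triangle_right _ _ _
      _ ≤ h / rr d N + h / rr d N := by gcongr
      _ = R := by rw [hR]; ring
  have h2 : II s (((N : ℝ≥0∞) • sig d).restrict B) (((N : ℝ≥0∞) • sig d).restrict B') ≤
      N * (N * (CK s d * ENNReal.ofReal (R ^ ((d : ℝ) - s)))) * sig d B := by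
    rw [Measure.restrict_smul, Measure.restrict_smul, II_smul_left,
      II_smul_right _ (ENNReal.natCast_ne_top N), II]
    calc (N : ℝ≥0∞) * (N * ∫⁻ x in B, ∫⁻ y in B', KK s x y ∂(sig d) ∂(sig d))
        ≤ (N : ℝ≥0∞) * (N * ∫⁻ x in B, CK s d * ENNReal.ofReal (R ^ ((d : ℝ) - s)) ∂(sig d)) := by
          refine mul_le_mul_right (mul_le_mul_right ?_ _) _
          exact setLIntegral_mono' hB h1
      _ = _ := by
          rw [setLIntegral_const]
          ring
  have h3 : (N : ℝ) ^ (-(s / d)) * (N * R ^ ((d : ℝ) - s)) = (2 * h) ^ ((d : ℝ) - s) := by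
    rw [hR, Real.div_rpow (by positivity) hr.le, rr_rpow hd]
    have e1 : (N : ℝ) ^ (-(s / d)) * N = (N : ℝ) ^ (((d : ℝ) - s) / d) := by
      nth_rewrite 2 [← Real.rpow_one (N : ℝ)]
      rw [← Real.rpow_add hN0]
      congr 1
      field_simp
      ring
    rw [← mul_assoc, e1, mul_div_cancel₀]
    positivity
  calc ENNReal.ofReal ((N : ℝ) ^ (-(s / d))) * II s (((N : ℝ≥0∞) • sig d).restrict B)
        (((N : ℝ≥0∞) • sig d).restrict B')
      ≤ ENNReal.ofReal ((N : ℝ) ^ (-(s / d))) *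
        (N * (N * (CK s d * ENNReal.ofReal (R ^ ((d : ℝ) - s)))) * sig d B) := by gcongr
    _ = (CK s d * (ENNReal.ofReal ((N : ℝ) ^ (-(s / d))) * (N * ENNReal.ofReal
          (R ^ ((d : ℝ) - s))))) * (N * sig d B) := by ring
    _ = _ := by
        rw [← ENNReal.ofReal_natCast N, ← ENNReal.ofReal_mul hN0.le,
          ← ENNReal.ofReal_mul (by positivity), h3, CI]

lemma bet_near_mono (hs : 0 < s) (hd : 1 ≤ d) (hsd : s < d) {N N' : ℕ} (hN : 1 ≤ N) (hNN : N ≤ N')
    {h : ℝ} (hh : 0 < h) (hhr : h < rr d N) {A : Set (SS d)} (hA : MeasurableSet A)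
    (hAh : A ⊆ GB h) :
    bet s N A ≤ bet s N' A + ENNReal.ofReal (dlt s (h / rr d N)) * (CI s d h * Ca d h) := by
  have hr := rr_pos (d := d) hN
  have hr' := rr_pos (d := d) (hN.trans hNN)
  have hN0 : (0 : ℝ) < N := by exact_mod_cast hN
  have hN0' : (0 : ℝ) < N' := by exact_mod_cast hN.trans hNN
  set q := rr d N' / rr d N with hq
  have hq1 : 1 ≤ q := (one_le_div hr).2 (rr_mono hNN)
  have hq0 : 0 < q := by positivity
  have e1 : rr d N * q = rr d N' := by rw [hq]; field_simp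
  have e2 : (N : ℝ) * q ^ d = N' := by
    rw [← rr_pow hd N, ← mul_pow, e1, rr_pow hd]
  have e3 : q ^ s = (N' : ℝ) ^ (s / d) * (N : ℝ) ^ (-(s / d)) := by
    rw [hq, Real.div_rpow hr'.le hr.le, rr_rpow hd, rr_rpow hd, Real.rpow_neg hN0.le]
    rfl
  have hsub : TT (rr d N) A ⊆ GB (h / rr d N) := TT_sub_GB hr hAh
  have hm : MeasurableSet (TT (rr d N) A) := measurableSet_TT hr hA
  have h1 := transplant hs hd hsd hq1 (by positivity : 0 ≤ h / rr d N) ((div_lt_one hr).2 hhr) e2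
    hm hsub
  rw [TT_TT hq0 hr, e1] at h1
  have h2 := II_local hs hd hN hh hm hsub hsub
  have e4 : ENNReal.ofReal ((N' : ℝ) ^ (-(s / d))) * ENNReal.ofReal (q ^ s) =
      ENNReal.ofReal ((N : ℝ) ^ (-(s / d))) := by
    rw [← ENNReal.ofReal_mul (by positivity), e3, ← mul_assoc, ← Real.rpow_add hN0']
    simp
  calc bet s N A = ENNReal.ofReal ((N' : ℝ) ^ (-(s / d))) *
        (ENNReal.ofReal (q ^ s) * DN s N (TT (rr d N) A)) := by
        rw [bet, ← mul_assoc, e4]
    _ ≤ ENNReal.ofReal ((N' : ℝ) ^ (-(s / d))) * (DN s N' (TT (rr d N') A) +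
        ENNReal.ofReal (q ^ s) * (ENNReal.ofReal (dlt s (h / rr d N)) *
          II s (((N : ℝ≥0∞) • sig d).restrict (TT (rr d N) A))
            (((N : ℝ≥0∞) • sig d).restrict (TT (rr d N) A)))) := by gcongr
    _ = bet s N' A + ENNReal.ofReal (dlt s (h / rr d N)) *
        (ENNReal.ofReal ((N : ℝ) ^ (-(s / d))) *
          II s (((N : ℝ≥0∞) • sig d).restrict (TT (rr d N) A))
            (((N : ℝ≥0∞) • sig d).restrict (TT (rr d N) A))) := by
        rw [← e4, bet]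
        ring
    _ ≤ bet s N' A + ENNReal.ofReal (dlt s (h / rr d N)) *
        (CI s d h * (N * sig d (TT (rr d N) A))) := by gcongr
    _ ≤ bet s N' A + ENNReal.ofReal (dlt s (h / rr d N)) * (CI s d h * Ca d h) := by
        gcongr
        refine (alph_le hd hN hA hAh).trans ?_
        exact mul_le_of_le_one_right zero_le prob_le_one

lemma bet_lip (hs : 0 < s) (hd : 1 ≤ d) (hsd : s < d) {N : ℕ} (hN : 1 ≤ N)
    {h : ℝ} (hh : 0 < h) {A A' : Set (SS d)} (hA : MeasurableSet A) (hA' : MeasurableSet A')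
    (hAh : A ⊆ GB h) :
    bet s N A ≤ bet s N A' + 2 * CI s d h * Ca d h * sig d (A \ A') := by
  have hr := rr_pos (d := d) hN
  have hsub : TT (rr d N) A ⊆ GB (h / rr d N) := TT_sub_GB hr hAh
  have hm : MeasurableSet (TT (rr d N) A) := measurableSet_TT hr hA
  have hm' : MeasurableSet (TT (rr d N) A') := measurableSet_TT hr hA'
  have h1 := DD_restrict_le (s := s) hs hd hsd (ρ := (N : ℝ≥0∞) • sig d) le_rfl
    (A := TT (rr d N) A) hm'
  have h2 := II_local hs hd hN hh (hm.diff hm') (sdiff_subset.trans hsub) hsub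
  have h3 : alph N (A \ A') ≤ Ca d h * sig d (A \ A') :=
    alph_le hd hN (hA.diff hA') (sdiff_subset.trans hAh)
  calc bet s N A ≤ ENNReal.ofReal ((N : ℝ) ^ (-(s / d))) * (DN s N (TT (rr d N) A') +
        2 * II s (((N : ℝ≥0∞) • sig d).restrict (TT (rr d N) A \ TT (rr d N) A'))
          (((N : ℝ≥0∞) • sig d).restrict (TT (rr d N) A))) := by
        rw [bet]
        exact mul_le_mul_right h1 _
    _ = bet s N A' + 2 * (ENNReal.ofReal ((N : ℝ) ^ (-(s / d))) *
        II s (((N : ℝ≥0∞) • sig d).restrict (TT (rr d N) A \ TT (rr d N) A'))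
          (((N : ℝ≥0∞) • sig d).restrict (TT (rr d N) A))) := by
        rw [bet]
        ring
    _ ≤ bet s N A' + 2 * (CI s d h * (Ca d h * sig d (A \ A'))) := by
        refine add_le_add le_rfl (mul_le_mul_right (h2.trans ?_) _)
        exact mul_le_mul_right h3 _
    _ = _ := by ring

end

end Pool.Agent.Lib.MP_1fcdcf_an
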