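import Mathlib
import Pool.Agent.Lib.MP_1fcdcf_an.AlphBet

open MeasureTheory Set Metric Filter
open scoped ENNReal NNReal symmDiff RealInnerProductSpace Topology

namespace Pool.Agent.Lib.MP_1fcdcf_an

lemma tendsto_of_near_mono {a η : ℕ → ℝ≥0∞} (hη : Tendsto η atTop (𝓝 0)) (n₀ : ℕ)
    (h : ∀ n m, n₀ ≤ n → n ≤ m → a n ≤ a m + η n) : ∃ L, Tendsto a atTop (𝓝 L) := by
  refine ⟨liminf a atTop, tendsto_of_le_liminf_of_limsup_le le_rfl ?_⟩
  have h1 : ∀ n, n₀ ≤ n → a n ≤ liminf a atTop + η n := by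
    intro n hn
    rw [← tsub_le_iff_right]
    refine le_liminf_of_le (by isBoundedDefault) ?_
    filter_upwards [eventually_ge_atTop n] with m hm
    rw [tsub_le_iff_right]
    exact h n m hn hm
  have h2 : Tendsto (fun n => liminf a atTop + η n) atTop (𝓝 (liminf a atTop + 0)) :=
    tendsto_const_nhds.add hη
  rw [add_zero] at h2
  calc limsup a atTop ≤ limsup (fun n => liminf a atTop + η n) atTop := by
        refine limsup_le_limsup ?_
        filter_upwards [eventually_ge_atTop n₀] with n hn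
        exact h1 n hn
    _ = liminf a atTop := h2.limsup_eq

lemma tendsto_of_close {ι : Type*} {l : Filter ι} {a b ε : ι → ℝ≥0∞} {L : ℝ≥0∞}
    (hb : Tendsto b l (𝓝 L)) (hε : Tendsto ε l (𝓝 0)) (h1 : ∀ᶠ n in l, a n ≤ b n + ε n)
    (h2 : ∀ᶠ n in l, b n ≤ a n + ε n) : Tendsto a l (𝓝 L) := by
  have h3 : Tendsto (fun n => b n + ε n) l (𝓝 L) := by simpa using hb.add hε
  have h4 : Tendsto (fun n => b n - ε n) l (𝓝 L) := by
    simpa using ENNReal.Tendsto.sub hb hε (Or.inr ENNReal.zero_ne_top)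
  refine tendsto_of_tendsto_of_tendsto_of_le_of_le' h4 h3 ?_ h1
  filter_upwards [h2] with n hn
  rwa [tsub_le_iff_right]

section

variable {s : ℝ} {d : ℕ}

lemma tendsto_dlt {ι : Type*} {l : Filter ι} {r : ι → ℝ} (hr : Tendsto r l (𝓝 0)) :
    Tendsto (fun i => ENNReal.ofReal (dlt s (r i))) l (𝓝 0) := by
  have h1 : Tendsto (fun i => 1 - r i ^ 2) l (𝓝 1) := by
    have := (hr.pow 2).const_sub 1
    simpa using this
  have h2 : Tendsto (fun i => dlt s (r i)) l (𝓝 0) := by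
    unfold dlt
    have h3 := h1.rpow_const (p := -s) (Or.inl one_ne_zero)
    have h4 := h1.rpow_const (p := s) (Or.inl one_ne_zero)
    have := h3.sub h4
    simpa using this
  have := ENNReal.tendsto_ofReal h2
  simpa using this

lemma tendsto_h_div_rr (hd : 1 ≤ d) (h : ℝ) : Tendsto (fun N => h / rr d N) atTop (𝓝 0) :=
  Tendsto.div_atTop tendsto_const_nhds (tendsto_rr hd)

lemma Ca_ne_top (h : ℝ) : Ca d h ≠ ⊤ := ENNReal.ofReal_ne_top

lemma eventually_lt_rr (hd : 1 ≤ d) (h : ℝ) : ∀ᶠ N in atTop, h < rr d N :=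
  (tendsto_rr hd).eventually_gt_atTop h

lemma tendsto_alph (hd : 1 ≤ d) {A : Set (SS d)} (hA : MeasurableSet A) :
    ∃ L, Tendsto (fun N => alph N A) atTop (𝓝 L) := by
  refine tendsto_of_near_mono (η := fun _ => 0) tendsto_const_nhds 1 fun n m hn hm => ?_
  rw [add_zero]
  exact alph_mono hd hn hm hA

lemma tendsto_bet (hs : 0 < s) (hd : 1 ≤ d) (hsd : s < d) {h : ℝ} (hh : 0 < h) {A : Set (SS d)}
    (hA : MeasurableSet A) (hAh : A ⊆ GB h) :
    ∃ L, Tendsto (fun N => bet s N A) atTop (𝓝 L) := by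
  obtain ⟨n₁, hn₁⟩ := eventually_atTop.1 (eventually_lt_rr hd h)
  refine tendsto_of_near_mono
    (η := fun N => ENNReal.ofReal (dlt s (h / rr d N)) * (CI s d h * Ca d h)) ?_ (max 1 n₁)
    fun n m hn hm => ?_
  · have h1 := ENNReal.Tendsto.mul_const (b := CI s d h * Ca d h)
      (tendsto_dlt (s := s) (tendsto_h_div_rr hd h))
      (Or.inr (ENNReal.mul_ne_top (CI_ne_top hsd h) (Ca_ne_top h)))
    simpa using h1
  · exact bet_near_mono hs hd hsd (le_trans (le_max_left _ _) hn) hm hh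
      (hn₁ n (le_trans (le_max_right _ _) hn)) hA hAh

lemma measurable_Tq' (q : ℝ) : Measurable (Tq (d := d) q) := by
  by_cases hq : 0 < q
  · exact measurable_Tq hq
  · have : Tq (d := d) q = id := by
      ext1 x
      rw [Tq, dif_neg hq]
      rfl
    rw [this]
    exact measurable_id

/-! ### The limit of the local cells -/

/-- The limit half-space. -/
def Sinf (v : SS d × ℝ) : Set (SS d) :=
  {x | ⟪(v.1 : EE d), tl (x : EE d)⟫ < v.2 * (x : EE d) 0 ↔ 0 < v.2}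

lemma tendsto_norm_Lq (hd : 1 ≤ d) {x : SS d} (hx : 0 < (x : EE d) 0) :
    Tendsto (fun N => ‖Lq (rr d N) (x : EE d)‖) atTop (𝓝 ((x : EE d) 0)) := by
  have h1 : Tendsto (fun N => (x : EE d) 0 ^ 2 + (rr d N)⁻¹ ^ 2 * ‖tl (x : EE d)‖ ^ 2) atTop
      (𝓝 ((x : EE d) 0 ^ 2)) := by
    have h2 : Tendsto (fun N => (rr d N)⁻¹) atTop (𝓝 0) := (tendsto_rr hd).inv_tendsto_atTop
    have h3 := ((h2.pow 2).mul_const (‖tl (x : EE d)‖ ^ 2)).const_add ((x : EE d) 0 ^ 2)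
    simpa using h3
  have h2 : Tendsto (fun N => ‖Lq (rr d N) (x : EE d)‖ ^ 2) atTop (𝓝 ((x : EE d) 0 ^ 2)) := by
    simpa only [norm_Lq_sq] using h1
  have h3 := h2.sqrt
  rw [Real.sqrt_sq hx.le] at h3
  refine h3.congr fun N => ?_
  exact Real.sqrt_sq (norm_nonneg _)

lemma tendsto_inner (hd : 1 ≤ d) (w : SS d) {x : SS d} (hx : 0 < (x : EE d) 0) :
    Tendsto (fun N => rr d N * (⟪(w : EE d), ((Tq (rr d N) x : SS d) : EE d)⟫ -
      ⟪(w : EE d), (e0 d : EE d)⟫)) atTop (𝓝 (⟪(w : EE d), tl (x : EE d)⟫ / (x : EE d) 0)) := by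
  have hg := tendsto_norm_Lq hd hx
  have hinv : Tendsto (fun N => (rr d N)⁻¹) atTop (𝓝 0) := (tendsto_rr hd).inv_tendsto_atTop
  have h1 : Tendsto (fun N => -((rr d N)⁻¹ * ‖tl (x : EE d)‖ ^ 2 /
      (‖Lq (rr d N) (x : EE d)‖ * ((x : EE d) 0 + ‖Lq (rr d N) (x : EE d)‖))) *
        ⟪(w : EE d), (e0 d : EE d)⟫ + ⟪(w : EE d), tl (x : EE d)⟫ / ‖Lq (rr d N) (x : EE d)‖) atTop
      (𝓝 (-(0 * ‖tl (x : EE d)‖ ^ 2 / ((x : EE d) 0 * ((x : EE d) 0 + (x : EE d) 0))) *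
        ⟪(w : EE d), (e0 d : EE d)⟫ + ⟪(w : EE d), tl (x : EE d)⟫ / (x : EE d) 0)) := by
    refine Tendsto.add ?_ ?_
    · refine (Tendsto.neg ?_).mul_const _
      refine (hinv.mul_const _).div (hg.mul (tendsto_const_nhds.add hg)) ?_
      positivity
    · exact tendsto_const_nhds.div hg hx.ne'
  simp only [zero_mul, zero_div, neg_zero, zero_add] at h1
  refine h1.congr' ?_
  filter_upwards [eventually_ge_atTop 1] with N hN
  have hr := rr_pos (d := d) hN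
  have hgp := norm_Lq_pos hr x
  have hgsq := norm_Lq_sq (rr d N) (x : EE d)
  rw [coe_Tq hr, inner_smul_right, Lq_apply, inner_add_right, inner_smul_right, inner_smul_right,
    ← Lq_apply]
  set g := ‖Lq (rr d N) (x : EE d)‖ with hgdef
  set a := (x : EE d) 0 with ha
  set W := ⟪(w : EE d), (e0 d : EE d)⟫ with hW
  set T := ⟪(w : EE d), tl (x : EE d)⟫ with hT
  have h2 : (rr d N)⁻¹ * ‖tl (x : EE d)‖ ^ 2 = rr d N * (g ^ 2 - a ^ 2) := by
    rw [hgsq]
    field_simp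
    ring
  rw [h2]
  have h3 : a + g ≠ 0 := by positivity
  field_simp
  ring

lemma eventually_mem_sd (hd : 1 ≤ d) {v : SS d × ℝ} {x : SS d} (hx : 0 < (x : EE d) 0)
    (hne : ⟪(v.1 : EE d), tl (x : EE d)⟫ ≠ v.2 * (x : EE d) 0) :
    ∀ᶠ N in atTop, (Tq (rr d N) x ∈ sd (loc (rr d N) v) ↔ x ∈ Sinf v) := by
  have h1 := tendsto_inner hd v.1 hx
  have h2 : ∀ᶠ N in atTop, (rr d N * (⟪(v.1 : EE d), ((Tq (rr d N) x : SS d) : EE d)⟫ -
      ⟪(v.1 : EE d), (e0 d : EE d)⟫) < v.2 ↔ ⟪(v.1 : EE d), tl (x : EE d)⟫ / (x : EE d) 0 < v.2) := by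
    rcases lt_or_gt_of_ne (a := ⟪(v.1 : EE d), tl (x : EE d)⟫ / (x : EE d) 0) (b := v.2) (by
      rw [ne_eq, div_eq_iff hx.ne']; exact hne) with h3 | h3
    · filter_upwards [h1.eventually_lt_const h3] with N hN
      simp [hN, h3]
    · filter_upwards [h1.eventually_const_lt h3] with N hN
      simp [not_lt.2 hN.le, not_lt.2 h3.le]
  filter_upwards [h2, eventually_ge_atTop 1] with N hN hN1
  have hr := rr_pos (d := d) hN1
  change side (loc (rr d N) v) ((Tq (rr d N) x : SS d) : EE d) =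
    side (loc (rr d N) v) (e0 d : EE d) ↔ _
  rw [side_eq_iff]
  simp only [loc, Sinf, mem_ofPred_eq]
  have h4 : (⟪(v.1 : EE d), ((Tq (rr d N) x : SS d) : EE d)⟫ <
      ⟪(v.1 : EE d), (e0 d : EE d)⟫ + v.2 / rr d N) ↔
      ⟪(v.1 : EE d), tl (x : EE d)⟫ < v.2 * (x : EE d) 0 := by
    rw [← div_lt_iff₀ hx, ← hN, ← sub_lt_iff_lt_add', lt_div_iff₀ hr, mul_comm (rr d N)]
  have h5 : (⟪(v.1 : EE d), (e0 d : EE d)⟫ < ⟪(v.1 : EE d), (e0 d : EE d)⟫ + v.2 / rr d N) ↔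
      0 < v.2 := by
    rw [lt_add_iff_pos_right, div_pos_iff_of_pos_right hr]
  rw [h4, h5]

end

end Pool.Agent.Lib.MP_1fcdcf_an
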