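import Mathlib
import Pool.Agent.Lib.MP_1fcdcf_an.LocalLim

open MeasureTheory Set Metric Filter
open scoped ENNReal NNReal symmDiff RealInnerProductSpace Topology

namespace Pool.Agent.Lib.MP_1fcdcf_an

section

variable {s : ℝ} {d : ℕ}

lemma sig_hyperplane {u : EE d} (hu : u ≠ 0) : sig d {x : SS d | ⟪u, (x : EE d)⟫ = 0} = 0 := by
  have hm : MeasurableSet {x : SS d | ⟪u, (x : EE d)⟫ = 0} := by
    apply IsClosed.measurableSet
    apply isClosed_eq <;> fun_prop
  rw [sig_apply hm]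
  have h1 : (ℝ ∙ u)ᗮ ≠ (⊤ : Submodule ℝ (EE d)) := by
    intro h
    have h2 : u ∈ (ℝ ∙ u)ᗮ := by rw [h]; trivial
    rw [Submodule.mem_orthogonal_singleton_iff_inner_right] at h2
    exact hu (inner_self_eq_zero.1 h2)
  have h2 : volume (cone {x : SS d | ⟪u, (x : EE d)⟫ = 0}) = 0 := by
    refine measure_mono_null ?_ (Measure.addHaar_submodule volume _ h1)
    intro z hz
    obtain ⟨r, _, x, hx, rfl⟩ := mem_cone.1 hz
    rw [SetLike.mem_coe, Submodule.mem_orthogonal_singleton_iff_inner_right, inner_smul_right]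
    have hx' : ⟪u, (x : EE d)⟫ = 0 := hx
    rw [hx', mul_zero]
  rw [h2, mul_zero]

lemma inner_tl (w z : EE d) : ⟪w, tl z⟫ = ⟪tl w, z⟫ := by
  simp only [tl, inner_sub_right, inner_sub_left, inner_smul_left, inner_smul_right, inner_e0,
    inner_e0']
  simp [mul_comm]

lemma sig_exceptional (w : SS d) {τ : ℝ} (hτ : τ ≠ 0) :
    sig d {x : SS d | ⟪(w : EE d), tl (x : EE d)⟫ = τ * (x : EE d) 0} = 0 := by
  have hu : tl (w : EE d) - τ • (e0 d : EE d) ≠ 0 := by
    intro h
    have h1 : (tl (w : EE d) - τ • (e0 d : EE d)) 0 = 0 := by rw [h]; rfl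
    simp [tl_zero, e0_zero, hτ] at h1
  have h1 : {x : SS d | ⟪(w : EE d), tl (x : EE d)⟫ = τ * (x : EE d) 0} =
      {x : SS d | ⟪tl (w : EE d) - τ • (e0 d : EE d), (x : EE d)⟫ = 0} := by
    ext x
    simp only [mem_ofPred_eq]
    rw [inner_sub_left, inner_smul_left, inner_e0, inner_tl, sub_eq_zero]
    simp
  rw [h1]
  exact sig_hyperplane hu

/-- The truncated local cell. -/
def AN {j : ℕ} (N : ℕ) (h : ℝ) (v : Fin j → SS d × ℝ) : Set (SS d) :=
  GB (h / rr d N) ∩ cL (rr d N) v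

/-- The truncated local cell, rescaled. -/
noncomputable def At {j : ℕ} (N : ℕ) (h : ℝ) (v : Fin j → SS d × ℝ) : Set (SS d) :=
  Tq (rr d N) ⁻¹' (AN N h v)

/-- The limit of the rescaled cells. -/
def Ai {j : ℕ} (h : ℝ) (v : Fin j → SS d × ℝ) : Set (SS d) := GB h ∩ ⋂ i, Sinf (v i)

lemma measurableSet_AN {j : ℕ} (N : ℕ) (h : ℝ) (v : Fin j → SS d × ℝ) :
    MeasurableSet (AN N h v) := (measurableSet_GB _).inter (measurableSet_cL _ _)

lemma measurableSet_At {j : ℕ} (N : ℕ) (h : ℝ) (v : Fin j → SS d × ℝ) :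
    MeasurableSet (At N h v) := measurable_Tq' _ (measurableSet_AN N h v)

lemma measurableSet_Sinf (v : SS d × ℝ) : MeasurableSet (Sinf v) := by
  by_cases hv : 0 < v.2
  · have : Sinf v = {x : SS d | ⟪(v.1 : EE d), tl (x : EE d)⟫ < v.2 * (x : EE d) 0} := by
      ext x
      simp [Sinf, hv]
    rw [this]
    apply measurableSet_lt
    · exact ((continuous_const.inner (continuous_tl.comp continuous_subtype_val))).measurable
    · exact measurable_coord.const_mul _
  · have : Sinf v = {x : SS d | v.2 * (x : EE d) 0 ≤ ⟪(v.1 : EE d), tl (x : EE d)⟫} := by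
      ext x
      simp [Sinf, hv]
    rw [this]
    apply measurableSet_le
    · exact measurable_coord.const_mul _
    · exact ((continuous_const.inner (continuous_tl.comp continuous_subtype_val))).measurable

lemma measurableSet_Ai {j : ℕ} (h : ℝ) (v : Fin j → SS d × ℝ) : MeasurableSet (Ai h v) :=
  (measurableSet_GB _).inter (MeasurableSet.iInter fun _ => measurableSet_Sinf _)

lemma At_sub_GB {j : ℕ} {N : ℕ} (hN : 1 ≤ N) (h : ℝ) (v : Fin j → SS d × ℝ) :
    At N h v ⊆ GB h := by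
  intro x hx
  have hr := rr_pos (d := d) hN
  have h1 : Tq (rr d N) x ∈ GB (h / rr d N) := hx.1
  rw [Tq_mem_GB hr] at h1
  rwa [mul_div_cancel₀ _ hr.ne'] at h1

lemma tendsto_sig_At (hd : 1 ≤ d) {j : ℕ} (h : ℝ) {v : Fin j → SS d × ℝ}
    (hv : ∀ i, (v i).2 ≠ 0) :
    Tendsto (fun N => sig d ((At N h v) ∆ (Ai h v))) atTop (𝓝 0) := by
  have key := tendsto_measure_of_ae_tendsto_indicator_of_isFiniteMeasure (μ := sig d) atTop
    (A := ∅) (As := fun N => (At N h v) ∆ (Ai h v)) MeasurableSet.empty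
    (fun N => (measurableSet_At N h v).symmDiff (measurableSet_Ai h v)) ?_
  · simpa using key
  · have h1 : ∀ᵐ x : SS d ∂(sig d), ∀ i, ⟪((v i).1 : EE d), tl (x : EE d)⟫ ≠ (v i).2 * (x : EE d) 0 := by
      rw [ae_all_iff]
      intro i
      rw [ae_iff]
      simp only [ne_eq, not_not]
      exact sig_exceptional _ (hv i)
    filter_upwards [h1] with x hx
    by_cases hxG : x ∈ GB h
    · have h2 : ∀ᶠ N in atTop, ∀ i, (Tq (rr d N) x ∈ sd (loc (rr d N) (v i)) ↔ x ∈ Sinf (v i)) :=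
        eventually_all.2 fun i => eventually_mem_sd hd hxG.1 (hx i)
      filter_upwards [h2, eventually_ge_atTop 1] with N hN hN1
      have hr := rr_pos (d := d) hN1
      have h3 : x ∈ At N h v ↔ x ∈ Ai h v := by
        rw [At, mem_preimage, AN, mem_inter_iff, Tq_mem_GB hr, mul_div_cancel₀ _ hr.ne', Ai,
          mem_inter_iff, cL, mem_iInter, mem_iInter]
        simp only [hN]
      simp only [mem_symmDiff, mem_empty_iff_false, iff_false]
      tauto
    · filter_upwards [eventually_ge_atTop 1] with N hN1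
      simp only [mem_symmDiff, mem_empty_iff_false, iff_false]
      have h3 : x ∉ At N h v := fun hx' => hxG (At_sub_GB hN1 h v hx')
      have h4 : x ∉ Ai h v := fun hx' => hxG hx'.1
      tauto

lemma sig_Ai_pos {j : ℕ} {h : ℝ} (hh : 0 < h) {v : Fin j → SS d × ℝ}
    (hv : ∀ i, (v i).2 ≠ 0) : sig d (Ai h v) ≠ 0 := by
  have hopen : IsOpen {x : SS d | 0 < (x : EE d) 0 ∧ ‖tl (x : EE d)‖ < h * (x : EE d) 0 ∧
      ∀ i, |⟪((v i).1 : EE d), tl (x : EE d)⟫| < |(v i).2| * (x : EE d) 0} := by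
    have hc0 : Continuous fun x : SS d => (x : EE d) 0 := by fun_prop
    have hct : Continuous fun x : SS d => tl (x : EE d) := continuous_tl.comp continuous_subtype_val
    refine (isOpen_lt continuous_const hc0).inter ((isOpen_lt hct.norm (hc0.const_mul h)).inter ?_)
    have : {x : SS d | ∀ i, |⟪((v i).1 : EE d), tl (x : EE d)⟫| < |(v i).2| * (x : EE d) 0} =
        ⋂ i, {x : SS d | |⟪((v i).1 : EE d), tl (x : EE d)⟫| < |(v i).2| * (x : EE d) 0} := by
      ext x; simp
    change IsOpen {x : SS d | ∀ i, |⟪((v i).1 : EE d), tl (x : EE d)⟫| < |(v i).2| * (x : EE d) 0}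
    rw [this]
    refine isOpen_iInter_of_finite fun i => ?_
    exact isOpen_lt ((continuous_const.inner hct).abs) (hc0.const_mul _)
  have hne : (e0 d) ∈ {x : SS d | 0 < (x : EE d) 0 ∧ ‖tl (x : EE d)‖ < h * (x : EE d) 0 ∧
      ∀ i, |⟪((v i).1 : EE d), tl (x : EE d)⟫| < |(v i).2| * (x : EE d) 0} := by
    simp [e0_zero, tl_e0, hh, hv]
  have hpos := hopen.measure_pos (sig d) ⟨_, hne⟩
  refine (hpos.trans_le (measure_mono ?_)).ne'
  rintro x ⟨hx1, hx2, hx3⟩
  refine ⟨⟨hx1, hx2.le⟩, mem_iInter.2 fun i => ?_⟩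
  have h4 := abs_lt.1 (hx3 i)
  simp only [Sinf, mem_ofPred_eq]
  rcases lt_or_gt_of_ne (hv i) with h5 | h5
  · rw [abs_of_neg h5] at h4
    constructor
    · intro h6; linarith
    · intro h6; linarith
  · rw [abs_of_pos h5] at h4
    exact ⟨fun _ => h5, fun _ => h4.2⟩

lemma tendsto_alph_At (hd : 1 ≤ d) {j : ℕ} {h : ℝ} {v : Fin j → SS d × ℝ}
    (hv : ∀ i, (v i).2 ≠ 0) {L : ℝ≥0∞} (hL : Tendsto (fun N => alph N (Ai h v)) atTop (𝓝 L)) :
    Tendsto (fun N => alph N (At N h v)) atTop (𝓝 L) := by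
  have h0 := tendsto_sig_At hd h hv
  have hε : Tendsto (fun N => Ca d h * sig d (At N h v ∆ Ai h v)) atTop (𝓝 0) := by
    have := ENNReal.Tendsto.const_mul (a := Ca d h) h0 (Or.inr (Ca_ne_top h))
    simpa using this
  have hgen : ∀ N, 1 ≤ N → ∀ A B : Set (SS d), MeasurableSet A → MeasurableSet B → A ⊆ GB h →
      alph N A ≤ alph N B + Ca d h * sig d (A ∆ B) := by
    intro N hN A B hA hB hAh
    have h1 : alph N A ≤ alph N B + alph N (A \ B) := by
      rw [alph, alph, alph, ← mul_add]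
      gcongr
      refine (measure_mono ?_).trans (measure_union_le _ _)
      rw [TT_diff]
      intro x hx
      by_cases hxB : x ∈ TT (rr d N) B
      · exact Or.inl hxB
      · exact Or.inr ⟨hx, hxB⟩
    refine h1.trans ?_
    gcongr
    refine (alph_le hd hN (hA.diff hB) (sdiff_subset.trans hAh)).trans ?_
    gcongr
    exact fun x hx => Or.inl hx
  refine tendsto_of_close hL hε ?_ ?_
  · filter_upwards [eventually_ge_atTop 1] with N hN
    exact hgen N hN _ _ (measurableSet_At N h v) (measurableSet_Ai h v) (At_sub_GB hN h v)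
  · filter_upwards [eventually_ge_atTop 1] with N hN
    rw [symmDiff_comm]
    exact hgen N hN _ _ (measurableSet_Ai h v) (measurableSet_At N h v) inter_subset_left

lemma tendsto_bet_At (hs : 0 < s) (hd : 1 ≤ d) (hsd : s < d) {j : ℕ} {h : ℝ} (hh : 0 < h)
    {v : Fin j → SS d × ℝ} (hv : ∀ i, (v i).2 ≠ 0) {L : ℝ≥0∞}
    (hL : Tendsto (fun N => bet s N (Ai h v)) atTop (𝓝 L)) :
    Tendsto (fun N => bet s N (At N h v)) atTop (𝓝 L) := by
  have h0 := tendsto_sig_At hd h hv
  have hC : 2 * CI s d h * Ca d h ≠ ⊤ :=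
    ENNReal.mul_ne_top (ENNReal.mul_ne_top (by norm_num) (CI_ne_top hsd h)) (Ca_ne_top h)
  have hε : Tendsto (fun N => (2 * CI s d h * Ca d h) * sig d (At N h v ∆ Ai h v)) atTop
      (𝓝 0) := by
    have := ENNReal.Tendsto.const_mul (a := 2 * CI s d h * Ca d h) h0 (Or.inr hC)
    simpa using this
  have hgen : ∀ N, 1 ≤ N → ∀ A B : Set (SS d), MeasurableSet A → MeasurableSet B → A ⊆ GB h →
      bet s N A ≤ bet s N B + (2 * CI s d h * Ca d h) * sig d (A ∆ B) := by
    intro N hN A B hA hB hAh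
    refine (bet_lip hs hd hsd hN hh hA hB hAh).trans ?_
    gcongr
    exact fun x hx => Or.inl hx
  refine tendsto_of_close hL hε ?_ ?_
  · filter_upwards [eventually_ge_atTop 1] with N hN
    exact hgen N hN _ _ (measurableSet_At N h v) (measurableSet_Ai h v) (At_sub_GB hN h v)
  · filter_upwards [eventually_ge_atTop 1] with N hN
    rw [symmDiff_comm]
    exact hgen N hN _ _ (measurableSet_Ai h v) (measurableSet_At N h v) inter_subset_left

/-- The normalised gain per unit area. -/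
noncomputable def JJ (s : ℝ) {d : ℕ} (N : ℕ) (A : Set (SS d)) : ℝ≥0∞ :=
  (ENNReal.ofReal ((N : ℝ) ^ (-(s / d))) * DN s N A) / (N * sig d A)

lemma JJ_le (hs : 0 < s) (hsd : s < d) {N : ℕ} (hN : 1 ≤ N) (A : Set (SS d)) :
    JJ s N A ≤ CE s d := by
  refine ENNReal.div_le_of_le_mul ?_
  calc ENNReal.ofReal ((N : ℝ) ^ (-(s / d))) * DN s N A
      ≤ ENNReal.ofReal ((N : ℝ) ^ (-(s / d))) * (CE s d * ENNReal.ofReal ((N : ℝ) ^ (s / d)) *
          (((N : ℝ≥0∞) • sig d).restrict A) univ) := by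
        gcongr
        exact DD_le hs hsd hN Measure.restrict_le_self
    _ = (ENNReal.ofReal ((N : ℝ) ^ (-(s / d))) * ENNReal.ofReal ((N : ℝ) ^ (s / d))) *
          (CE s d * (N * sig d A)) := by
        rw [Measure.restrict_apply_univ, Measure.smul_apply, smul_eq_mul]
        ring
    _ = _ := by rw [ofReal_rpow_mul hN, one_mul]

lemma MF_JJ (hs : 0 < s) (hd : 1 ≤ d) (hsd : s < d) (N : ℕ) :
    MF (fun A : Set (SS d) => JJ s N A) := by
  intro V _ S hS
  exact ((MF_DN hs hd hsd N V S hS).const_mul _).div ((MF_sig V S hS).const_mul _)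

lemma JJ_AN {j : ℕ} {N : ℕ} (hN : 1 ≤ N) (h : ℝ) (v : Fin j → SS d × ℝ) :
    JJ s N (AN N h v) = bet s N (At N h v) / alph N (At N h v) := by
  have hr := rr_pos (d := d) hN
  rw [JJ, bet, alph, At, TT_preimage hr]

lemma exists_tendsto_JJ (hs : 0 < s) (hd : 1 ≤ d) (hsd : s < d) {j : ℕ} {h : ℝ} (hh : 0 < h)
    {v : Fin j → SS d × ℝ} (hv : ∀ i, (v i).2 ≠ 0) :
    ∃ L, Tendsto (fun N => JJ s N (AN N h v)) atTop (𝓝 L) := by
  obtain ⟨a, ha⟩ := tendsto_alph hd (measurableSet_Ai (d := d) h v)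
  obtain ⟨b, hb⟩ := tendsto_bet hs hd hsd hh (measurableSet_Ai (d := d) h v) inter_subset_left
  have ha0 : a ≠ 0 := by
    have h1 : sig d (Ai h v) ≤ a := by
      refine ge_of_tendsto ha ?_
      filter_upwards [eventually_ge_atTop 1] with N hN
      exact le_alph hd hN (measurableSet_Ai h v)
    intro h0
    rw [h0] at h1
    exact sig_Ai_pos hh hv (le_antisymm h1 zero_le)
  have hatop : a ≠ ⊤ := by
    have h1 : a ≤ Ca d h * sig d (Ai h v) := by
      refine le_of_tendsto ha ?_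
      filter_upwards [eventually_ge_atTop 1] with N hN
      exact alph_le hd hN (measurableSet_Ai h v) inter_subset_left
    exact ne_top_of_le_ne_top (ENNReal.mul_ne_top (Ca_ne_top h) (measure_ne_top _ _)) h1
  refine ⟨b / a, ?_⟩
  have h1 := ENNReal.Tendsto.div (tendsto_bet_At hs hd hsd hh hv hb) (Or.inr ha0)
    (tendsto_alph_At hd hv ha) (Or.inl hatop)
  refine h1.congr' ?_
  filter_upwards [eventually_ge_atTop 1] with N hN
  rw [JJ_AN hN]

end

end Pool.Agent.Lib.MP_1fcdcf_an
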