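import Mathlib
import Pool.Agent.Lib.MP_1fcdcf_an.LocalSets

open MeasureTheory Set Metric Filter
open scoped ENNReal NNReal symmDiff RealInnerProductSpace Topology

namespace Pool.Agent.Lib.MP_1fcdcf_an

lemma tendsto_one_sub_pow {ι : Type*} {l : Filter ι} {n : ι → ℕ} {p : ι → ℝ} {r : ℝ}
    (hp : Tendsto p l (𝓝 0)) (hp0 : ∀ᶠ i in l, 0 ≤ p i)
    (hr : Tendsto (fun i => (n i : ℝ) * p i) l (𝓝 r)) :
    Tendsto (fun i => (1 - p i) ^ n i) l (𝓝 (Real.exp (-r))) := by
  have hp1 : ∀ᶠ i in l, p i < 1 := hp.eventually_lt_const one_pos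
  have h1 : Tendsto (fun i => Real.exp (-((n i : ℝ) * p i))) l (𝓝 (Real.exp (-r))) :=
    (Real.continuous_exp.tendsto _).comp hr.neg
  have h2 : Tendsto (fun i => Real.exp (-((n i : ℝ) * p i / (1 - p i)))) l (𝓝 (Real.exp (-r))) := by
    refine (Real.continuous_exp.tendsto _).comp (Tendsto.neg ?_)
    have h3 : Tendsto (fun i => 1 - p i) l (𝓝 1) := by simpa using hp.const_sub 1
    have := hr.div h3 one_ne_zero
    rw [div_one] at this
    exact this
  refine tendsto_of_tendsto_of_tendsto_of_le_of_le' h2 h1 ?_ ?_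
  · filter_upwards [hp0, hp1] with i hi hi1
    have h3 : 0 < 1 - p i := by linarith
    have h4 : Real.exp (-(p i / (1 - p i))) ≤ 1 - p i := by
      rw [Real.exp_neg]
      refine inv_le_of_inv_le₀ h3 ?_
      have h5 : (1 - p i)⁻¹ = p i / (1 - p i) + 1 := by field_simp; ring
      rw [h5]
      exact Real.add_one_le_exp _
    calc Real.exp (-((n i : ℝ) * p i / (1 - p i))) = Real.exp (-(p i / (1 - p i))) ^ n i := by
          rw [← Real.exp_nat_mul]
          congr 1
          ring
      _ ≤ _ := by gcongr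
  · filter_upwards [hp0, hp1] with i hi hi1
    have h3 : 0 ≤ 1 - p i := by linarith
    calc (1 - p i) ^ n i ≤ Real.exp (-(p i)) ^ n i := by
          gcongr
          linarith [Real.add_one_le_exp (-(p i))]
      _ = _ := by
          rw [← Real.exp_nat_mul]
          congr 1
          ring

lemma tendsto_binom {ι : Type*} {l : Filter ι} {n : ι → ℕ} {p : ι → ℝ} {r : ℝ}
    (hn : Tendsto n l atTop) (hp : Tendsto p l (𝓝 0)) (hp0 : ∀ᶠ i in l, 0 ≤ p i)
    (hr : Tendsto (fun i => (n i : ℝ) * p i) l (𝓝 r)) (j : ℕ) :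
    Tendsto (fun i => ((n i).choose j : ℝ) * (p i ^ j * (1 - p i) ^ (n i - j))) l
      (𝓝 (Real.exp (-r) * r ^ j / j.factorial)) := by
  have h1 : Tendsto (fun i => ((n i).choose j : ℝ) * p i ^ j) l (𝓝 (r ^ j / j.factorial)) := by
    have h2 := (isEquivalent_choose j).comp_tendsto hn
    have h3 : Asymptotics.IsEquivalent l (fun i => ((n i).choose j : ℝ) * p i ^ j)
        (fun i => ((n i : ℝ) * p i) ^ j / j.factorial) := by
      have h4 := h2.mul (Asymptotics.IsEquivalent.refl (u := fun i => p i ^ j))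
      refine h4.trans (EventuallyEq.isEquivalent (Eventually.of_forall fun i => ?_))
      simp only [Function.comp_apply, Pi.mul_apply]
      ring
    refine h3.symm.tendsto_nhds ?_
    exact (hr.pow j).div_const _
  have h5 : Tendsto (fun i => (1 - p i) ^ (n i - j)) l (𝓝 (Real.exp (-r))) := by
    have h6 := tendsto_one_sub_pow hp hp0 hr
    have h7 : Tendsto (fun i => ((1 - p i) ^ j)⁻¹) l (𝓝 1) := by
      have h3 : Tendsto (fun i => 1 - p i) l (𝓝 1) := by simpa using hp.const_sub 1
      have := (h3.pow j).inv₀ (by simp)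
      simpa using this
    have h8 := h6.mul h7
    rw [mul_one] at h8
    refine h8.congr' ?_
    filter_upwards [hn.eventually_ge_atTop j, hp.eventually_lt_const one_pos] with i hi hi1
    rw [pow_sub₀ _ (by linarith) hi]
  have h9 := h1.mul h5
  have e : Real.exp (-r) * r ^ j / j.factorial = r ^ j / j.factorial * Real.exp (-r) := by ring
  rw [e]
  refine h9.congr fun i => ?_
  ring

lemma tendsto_tsum_dom {ι : Type*} {l : Filter ι} [l.IsCountablyGenerated] {f : ι → ℕ → ℝ≥0∞}
    {g bound : ℕ → ℝ≥0∞} (h1 : ∀ᶠ i in l, ∀ j, f i j ≤ bound j) (h2 : ∑' j, bound j ≠ ⊤)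
    (h3 : ∀ j, Tendsto (fun i => f i j) l (𝓝 (g j))) :
    Tendsto (fun i => ∑' j, f i j) l (𝓝 (∑' j, g j)) := by
  simp_rw [← MeasureTheory.lintegral_count]
  refine tendsto_lintegral_filter_of_dominated_convergence bound
    (Eventually.of_forall fun i => measurable_of_countable _) ?_ ?_ ?_
  · filter_upwards [h1] with i hi
    exact Eventually.of_forall hi
  · rwa [MeasureTheory.lintegral_count]
  · exact Eventually.of_forall h3

end Pool.Agent.Lib.MP_1fcdcf_an
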