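import Mathlib
import Pool.Agent.Lib.MP_1fcdcf_an.Poisson

open MeasureTheory Set Metric Filter
open scoped ENNReal NNReal symmDiff RealInnerProductSpace Topology

namespace Pool.Agent.Lib.MP_1fcdcf_an

section

variable {s : ℝ} {d : ℕ}

/-- The normalised mean gain. -/
noncomputable def phi (s : ℝ) (d N n : ℕ) : ℝ≥0∞ :=
  ∫⁻ ω : Fin n → HH d, JJ s N (c0 ω) ∂(piHn d n)

lemma Jn_eq {N : ℕ} (hN : 1 ≤ N) (A : Set (SS d)) :
    Jn s N A = (ENNReal.ofReal ((N : ℝ) ^ (s / d)) * N) * JJ s N A := by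
  have hN1 : (N : ℝ≥0∞) ≠ 0 := by
    have : N ≠ 0 := by omega
    exact_mod_cast this
  have hN2 : (N : ℝ≥0∞) ≠ ⊤ := ENNReal.natCast_ne_top N
  rw [Jn, JJ, ENNReal.div_eq_inv_mul, ENNReal.div_eq_inv_mul,
    ENNReal.mul_inv (Or.inl hN1) (Or.inl hN2)]
  calc (sig d A)⁻¹ * DN s N A
      = (ENNReal.ofReal ((N : ℝ) ^ (-(s / d))) * ENNReal.ofReal ((N : ℝ) ^ (s / d))) *
          ((N : ℝ≥0∞)⁻¹ * N) * ((sig d A)⁻¹ * DN s N A) := by
        rw [ofReal_rpow_mul hN, ENNReal.inv_mul_cancel hN1 hN2, one_mul, one_mul]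
    _ = _ := by ring

lemma Phi_eq_phi (hs : 0 < s) (hd : 1 ≤ d) (hsd : s < d) {N : ℕ} (hN : 1 ≤ N) (n : ℕ) :
    Phi s d N n = (ENNReal.ofReal ((N : ℝ) ^ (s / d)) * N) * phi s d N n := by
  rw [Phi_eq hs hd hsd, phi]
  simp_rw [Jn_eq hN]
  exact lintegral_const_mul' _ _ (ENNReal.mul_ne_top ENNReal.ofReal_ne_top (ENNReal.natCast_ne_top N))

/-- The truncated normalised mean gain. -/
noncomputable def phih (s : ℝ) (d : ℕ) (h : ℝ) (N n : ℕ) : ℝ≥0∞ :=
  ∫⁻ ω : Fin n → HH d, JJ s N (GB (h / rr d N) ∩ c0 ω) ∂(piHn d n)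

lemma phi_close (hs : 0 < s) (hsd : s < d) {N : ℕ} (hN : 1 ≤ N) (n : ℕ) {h : ℝ} (hh : 0 < h)
    (hhr : h ≤ rr d N) :
    phi s d N n ≤ phih s d h N n + CE s d * ((2 * ((d : ℝ≥0∞) + 1)) *
      ENNReal.ofReal (Real.exp (-(ccap d * h / (16 * ((d : ℝ) + 1))) * (n / rr d N)))) ∧
    phih s d h N n ≤ phi s d N n + CE s d * ((2 * ((d : ℝ≥0∞) + 1)) *
      ENNReal.ofReal (Real.exp (-(ccap d * h / (16 * ((d : ℝ) + 1))) * (n / rr d N)))) := by
  have hr := rr_pos (d := d) hN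
  have hd1 : (0 : ℝ) < (d : ℝ) + 1 := by positivity
  set a : ℝ := h / (4 * ((d : ℝ) + 1) * rr d N) with ha
  have ha0 : 0 ≤ a := by positivity
  have ha2 : 4 * ((d : ℝ) + 1) * a = h / rr d N := by rw [ha]; field_simp
  have ha3 : 4 * ((d : ℝ) + 1) * a ≤ 1 := by rw [ha2]; exact (div_le_one hr).2 hhr
  have ha1 : a ≤ 1 := by
    have : (0 : ℝ) ≤ d := by positivity
    nlinarith
  have hprob := prob_Miss (d := d) ha0 ha1 n
  have e1 : -(ccap d * (a / 4)) * (n : ℝ) =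
      -(ccap d * h / (16 * ((d : ℝ) + 1))) * (n / rr d N) := by
    rw [ha]
    field_simp
    ring
  rw [e1] at hprob
  set P := (2 * ((d : ℝ≥0∞) + 1)) *
      ENNReal.ofReal (Real.exp (-(ccap d * h / (16 * ((d : ℝ) + 1))) * (n / rr d N))) with hP
  have hM := measurableSet_Miss (d := d) n a
  have hint : ∀ F : (Fin n → HH d) → ℝ≥0∞,
      ∫⁻ ω, (F ω + (Miss d n a).indicator (fun _ => CE s d) ω) ∂(piHn d n) ≤
        ∫⁻ ω, F ω ∂(piHn d n) + CE s d * P := by
    intro F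
    rw [lintegral_add_right _ (measurable_const.indicator hM), lintegral_indicator hM,
      setLIntegral_const]
    gcongr
  constructor
  · refine le_trans (lintegral_mono fun ω => ?_) (hint _)
    by_cases hω : ω ∈ Miss d n a
    · rw [indicator_of_mem hω]
      exact (JJ_le hs hsd hN _).trans le_add_self
    · have h1 := c0_subset_GB ha0 ha3 hω
      rw [ha2] at h1
      rw [inter_eq_right.2 h1]
      exact le_self_add
  · refine le_trans (lintegral_mono fun ω => ?_) (hint _)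
    by_cases hω : ω ∈ Miss d n a
    · rw [indicator_of_mem hω]
      exact (JJ_le hs hsd hN _).trans le_add_self
    · have h1 := c0_subset_GB ha0 ha3 hω
      rw [ha2] at h1
      rw [inter_eq_right.2 h1]
      exact le_self_add

/-- The average over `j` local hyperplanes. -/
noncomputable def Kj (s : ℝ) (d : ℕ) (h : ℝ) (j N : ℕ) : ℝ≥0∞ :=
  LL (fun A : Set (SS d) => JJ s N A) (rr d N) h j (GB (h / rr d N))

lemma Kj_le (hs : 0 < s) (hsd : s < d) {h : ℝ} (hh : 0 < h) (j : ℕ) {N : ℕ} (hN : 1 ≤ N) :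
    Kj s d h j N ≤ CE s d := by
  have := isProb_piL (d := d) hh
  rw [Kj, LL]
  calc _ ≤ ∫⁻ v : Fin j → SS d × ℝ, CE s d ∂(Measure.pi fun _ => piL d h) :=
        lintegral_mono fun v => JJ_le hs hsd hN _
    _ = _ := by simp

lemma phih_eq (hs : 0 < s) (hd : 1 ≤ d) (hsd : s < d) {N : ℕ} (hN : 1 ≤ N) (n : ℕ) {h : ℝ}
    (hh : 0 < h) (hhr : h ≤ rr d N) :
    phih s d h N n = ∑' j, ENNReal.ofReal ((n.choose j : ℝ) * ((h / (2 * rr d N)) ^ j *
      (1 - h / (2 * rr d N)) ^ (n - j))) * Kj s d h j N := by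
  have hr := rr_pos (d := d) hN
  have h0 : 0 ≤ h / (2 * rr d N) := by positivity
  have h1 : 0 ≤ 1 - h / (2 * rr d N) := by
    rw [sub_nonneg, div_le_one (by positivity)]
    linarith
  rw [phih, binomial (MF_JJ hs hd hsd N) hh hhr n (measurableSet_GB _)
    fun x hx => dist_le_of_mem_GB (by positivity) hx]
  rw [tsum_eq_sum (s := Finset.range (n + 1))]
  · refine Finset.sum_congr rfl fun j _ => ?_
    rw [ENNReal.ofReal_mul (by positivity), ENNReal.ofReal_mul (by positivity),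
      ENNReal.ofReal_natCast, ENNReal.ofReal_pow h0, ENNReal.ofReal_pow h1, Kj]
    ring
  · intro j hj
    rw [Finset.mem_range, not_lt] at hj
    rw [Nat.choose_eq_zero_of_lt (by omega)]
    simp

lemma ae_piL (h : ℝ) (j : ℕ) (hh : 0 < h) :
    ∀ᵐ v : Fin j → SS d × ℝ ∂(Measure.pi fun _ => piL d h), ∀ i, (v i).2 ≠ 0 := by
  have := isProb_piL (d := d) hh
  have := isProb_unifh hh
  rw [ae_all_iff]
  intro i
  have h1 : ∀ᵐ u : SS d × ℝ ∂(piL d h), u.2 ≠ 0 := by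
    rw [ae_iff]
    simp only [ne_eq, not_not]
    have h2 : {u : SS d × ℝ | u.2 = 0} = univ ×ˢ {0} := by
      ext u
      simp
    rw [h2, piL, Measure.prod_prod, unifh, Measure.smul_apply]
    have h3 : (volume.restrict (Icc (-h) h)) ({0} : Set ℝ) = 0 :=
      le_antisymm ((Measure.restrict_le_self _).trans (by simp)) zero_le
    rw [h3]
    simp
  exact (Measure.quasiMeasurePreserving_eval (fun _ => piL d h) i).ae h1

lemma exists_tendsto_Kj (hs : 0 < s) (hd : 1 ≤ d) (hsd : s < d) {h : ℝ} (hh : 0 < h) (j : ℕ) :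
    ∃ K, Tendsto (fun N => Kj s d h j N) atTop (𝓝 K) := by
  have := isProb_piL (d := d) hh
  refine ⟨∫⁻ v : Fin j → SS d × ℝ, liminf (fun N => JJ s N (AN N h v)) atTop
    ∂(Measure.pi fun _ => piL d h), ?_⟩
  have h1 : ∀ N, Kj s d h j N = ∫⁻ v : Fin j → SS d × ℝ, JJ s N (AN N h v)
      ∂(Measure.pi fun _ => piL d h) := fun N => rfl
  simp_rw [h1]
  refine tendsto_lintegral_filter_of_dominated_convergence (fun _ => CE s d) ?_ ?_ ?_ ?_
  · refine Eventually.of_forall fun N => ?_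
    have hS : MeasurableSet {p : (Fin j → SS d × ℝ) × SS d | p.2 ∈ AN N h p.1} :=
      (measurable_snd (measurableSet_GB _)).inter (measurableSet_cL2 j _)
    exact MF_JJ hs hd hsd N _ _ hS
  · filter_upwards [eventually_ge_atTop 1] with N hN
    exact Eventually.of_forall fun v => JJ_le hs hsd hN _
  · simp only [lintegral_const, measure_univ, mul_one]
    exact CE_ne_top s d
  · filter_upwards [ae_piL h j hh] with v hv
    obtain ⟨L, hL⟩ := exists_tendsto_JJ hs hd hsd hh hv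
    rw [hL.liminf_eq]
    exact hL

end

end Pool.Agent.Lib.MP_1fcdcf_an
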