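import Mathlib
import Pool.Agent.Lib.MP_1fcdcf_an.LocalThm

open MeasureTheory Set Metric Filter
open scoped ENNReal NNReal symmDiff RealInnerProductSpace Topology

namespace Pool.Agent.Lib.MP_1fcdcf_an

section

variable {s : ℝ} {d : ℕ}

lemma exists_h (s : ℝ) (d : ℕ) {lam : ℝ} (hlam : 0 < lam) {ε : ℝ≥0∞} (hε : ε ≠ 0) :
    ∃ h : ℝ, 0 < h ∧ CE s d * ((2 * ((d : ℝ≥0∞) + 1)) *
      ENNReal.ofReal (Real.exp (-(ccap d * h / (16 * ((d : ℝ) + 1))) * (lam / 2)))) < ε := by
  have hc := ccap_pos d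
  have hd1 : (0 : ℝ) < (d : ℝ) + 1 := by positivity
  have h1 : Tendsto (fun h : ℝ => ENNReal.ofReal (Real.exp
      (-(ccap d * h / (16 * ((d : ℝ) + 1))) * (lam / 2)))) atTop (𝓝 0) := by
    have h2 : Tendsto (fun h : ℝ => Real.exp
        (-(ccap d * h / (16 * ((d : ℝ) + 1))) * (lam / 2))) atTop (𝓝 0) := by
      refine Real.tendsto_exp_atBot.comp ?_
      have h3 : (fun h : ℝ => -(ccap d * h / (16 * ((d : ℝ) + 1))) * (lam / 2)) =
          fun h : ℝ => (-(ccap d / (16 * ((d : ℝ) + 1)) * (lam / 2))) * h := by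
        ext h
        ring
      rw [h3]
      refine Tendsto.const_mul_atTop_of_neg ?_ tendsto_id
      have : 0 < ccap d / (16 * ((d : ℝ) + 1)) * (lam / 2) := by positivity
      linarith
    have := ENNReal.tendsto_ofReal h2
    simpa using this
  have hC : CE s d * (2 * ((d : ℝ≥0∞) + 1)) ≠ ⊤ := by
    refine ENNReal.mul_ne_top (CE_ne_top s d) (ENNReal.mul_ne_top (by norm_num) ?_)
    exact ENNReal.add_ne_top.2 ⟨ENNReal.natCast_ne_top d, ENNReal.one_ne_top⟩
  have h4 := ENNReal.Tendsto.const_mul (a := CE s d * (2 * ((d : ℝ≥0∞) + 1))) h1 (Or.inr hC)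
  rw [mul_zero] at h4
  obtain ⟨h, hh1, hh2⟩ := ((h4.eventually_lt_const (pos_iff_ne_zero.2 hε)).and
    (eventually_gt_atTop 0)).exists
  refine ⟨h, hh2, ?_⟩
  rw [← mul_assoc]
  exact hh1

lemma phih_le (hs : 0 < s) (hsd : s < d) {N : ℕ} (hN : 1 ≤ N) (n : ℕ) (h : ℝ) :
    phih s d h N n ≤ CE s d := by
  rw [phih]
  calc _ ≤ ∫⁻ ω : Fin n → HH d, CE s d ∂(piHn d n) := lintegral_mono fun ω => JJ_le hs hsd hN _
    _ = _ := by simp

lemma tendsto_phih (hs : 0 < s) (hd : 1 ≤ d) (hsd : s < d) {lam h : ℝ} (hlam : 0 < lam)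
    (hh : 0 < h) : ∃ L : ℝ≥0∞, L ≠ ⊤ ∧ ∀ (M n : ℕ → ℕ), Tendsto M atTop atTop →
    Tendsto (fun k => (n k : ℝ) / rr d (M k)) atTop (𝓝 lam) →
    Tendsto (fun k => phih s d h (M k) (n k)) atTop (𝓝 L) := by
  choose K hK using fun j => exists_tendsto_Kj hs hd hsd hh j
  have hK' : ∀ j, K j ≤ CE s d := by
    intro j
    refine le_of_tendsto (hK j) ?_
    filter_upwards [eventually_ge_atTop 1] with N hN
    exact Kj_le hs hsd hh j hN
  set r : ℝ := h / 2 * lam with hr
  have hr0 : 0 < r := by positivity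
  set g : ℕ → ℝ≥0∞ := fun j => ENNReal.ofReal (Real.exp (-r) * r ^ j / j.factorial) * K j with hg
  have hbd : ∑' j, ENNReal.ofReal ((h * lam) ^ j / j.factorial) * CE s d ≠ ⊤ := by
    rw [ENNReal.tsum_mul_right, ← ENNReal.ofReal_tsum_of_nonneg (fun j => by positivity)
      (Real.summable_pow_div_factorial _)]
    exact ENNReal.mul_ne_top ENNReal.ofReal_ne_top (CE_ne_top s d)
  refine ⟨∑' j, g j, ?_, ?_⟩
  · refine ne_top_of_le_ne_top hbd (ENNReal.tsum_le_tsum fun j => ?_)
    refine mul_le_mul' (ENNReal.ofReal_le_ofReal ?_) (hK' j)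
    have h1 : Real.exp (-r) ≤ 1 := by
      rw [Real.exp_le_one_iff]; linarith
    have h2 : r ^ j ≤ (h * lam) ^ j := by
      gcongr
      rw [hr]
      nlinarith [mul_pos hh hlam]
    calc Real.exp (-r) * r ^ j / j.factorial ≤ 1 * (h * lam) ^ j / j.factorial := by gcongr
      _ = _ := by rw [one_mul]
  · intro M n hM hn
    have hrr : Tendsto (fun k => rr d (M k)) atTop atTop := (tendsto_rr hd).comp hM
    have hp : Tendsto (fun k => h / (2 * rr d (M k))) atTop (𝓝 0) :=
      Tendsto.div_atTop tendsto_const_nhds (hrr.const_mul_atTop two_pos)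
    have hM1 : ∀ᶠ k in atTop, 1 ≤ M k := hM.eventually_ge_atTop 1
    have hhr : ∀ᶠ k in atTop, h ≤ rr d (M k) := hrr.eventually_ge_atTop h
    have hnp : Tendsto (fun k => (n k : ℝ) * (h / (2 * rr d (M k)))) atTop (𝓝 r) := by
      have h1 := hn.const_mul (h / 2)
      refine h1.congr' ?_
      filter_upwards [hM1] with k hk
      have := rr_pos (d := d) hk
      field_simp
    have hninf : Tendsto n atTop atTop := by
      have h1 : Tendsto (fun k => (n k : ℝ)) atTop atTop := by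
        have h2 := hrr.atTop_mul_pos hlam hn
        refine h2.congr' ?_
        filter_upwards [hM1] with k hk
        have := rr_pos (d := d) hk
        field_simp
      exact tendsto_natCast_atTop_iff.1 h1
    have hcongr : (fun k => phih s d h (M k) (n k)) =ᶠ[atTop] fun k => ∑' j,
        ENNReal.ofReal (((n k).choose j : ℝ) * ((h / (2 * rr d (M k))) ^ j *
      (1 - h / (2 * rr d (M k))) ^ (n k - j))) * Kj s d h j (M k) := by
      filter_upwards [hM1, hhr] with k hk hk2
      exact phih_eq hs hd hsd hk (n k) hh hk2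
    refine Tendsto.congr' hcongr.symm ?_
    refine tendsto_tsum_dom (bound := fun j => ENNReal.ofReal ((h * lam) ^ j / j.factorial) *
      CE s d) ?_ hbd ?_
    · have hnp2 : ∀ᶠ k in atTop, (n k : ℝ) * (h / (2 * rr d (M k))) < h * lam := by
        refine hnp.eventually_lt_const ?_
        rw [hr]
        nlinarith [mul_pos hh hlam]
      filter_upwards [hM1, hhr, hnp2] with k hk hk2 hk3 j
      have hrk := rr_pos (d := d) hk
      refine mul_le_mul' (ENNReal.ofReal_le_ofReal ?_) (Kj_le hs hsd hh j hk)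
      have h0 : 0 ≤ h / (2 * rr d (M k)) := by positivity
      have h1 : 0 ≤ 1 - h / (2 * rr d (M k)) := by
        rw [sub_nonneg, div_le_one (by positivity)]
        linarith
      have h2 : (1 - h / (2 * rr d (M k))) ^ (n k - j) ≤ 1 := pow_le_one₀ h1 (by linarith)
      calc ((n k).choose j : ℝ) * ((h / (2 * rr d (M k))) ^ j *
            (1 - h / (2 * rr d (M k))) ^ (n k - j))
          ≤ ((n k : ℝ) ^ j / j.factorial) * ((h / (2 * rr d (M k))) ^ j * 1) := by
            gcongr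
            exact Nat.choose_le_pow_div j (n k)
        _ = ((n k : ℝ) * (h / (2 * rr d (M k)))) ^ j / j.factorial := by
            rw [mul_pow]; ring
        _ ≤ _ := by gcongr
    · intro j
      have h1 := tendsto_binom hninf hp (by
        filter_upwards [hM1] with k hk
        have := rr_pos (d := d) hk
        positivity) hnp j
      refine ENNReal.Tendsto.mul (ENNReal.tendsto_ofReal h1) ?_ ((hK j).comp hM) ?_
      · exact Or.inr (ne_top_of_le_ne_top (CE_ne_top s d) (hK' j))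
      · exact Or.inr ENNReal.ofReal_ne_top

/-- The local limit theorem. -/
theorem local_limit (hs : 0 < s) (hd : 1 ≤ d) (hsd : s < d) {lam : ℝ} (hlam : 0 < lam) {ε : ℝ≥0∞}
    (hε : ε ≠ 0) : ∃ L : ℝ≥0∞, ∀ (M n : ℕ → ℕ), Tendsto M atTop atTop →
    Tendsto (fun k => (n k : ℝ) / rr d (M k)) atTop (𝓝 lam) →
    ∀ᶠ k in atTop, phi s d (M k) (n k) ≤ L + ε ∧ L ≤ phi s d (M k) (n k) + ε := by
  have hε2 : ε / 2 ≠ 0 := (ENNReal.half_pos hε).ne'
  obtain ⟨h, hh, hh2⟩ := exists_h s d hlam hε2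
  obtain ⟨L, hLtop, hL⟩ := tendsto_phih hs hd hsd hlam hh
  refine ⟨L, fun M n hM hn => ?_⟩
  have hrr : Tendsto (fun k => rr d (M k)) atTop atTop := (tendsto_rr hd).comp hM
  have h1 := (ENNReal.tendsto_nhds hLtop).1 (hL M n hM hn) (ε / 2) (pos_iff_ne_zero.2 hε2)
  have h2 : ∀ᶠ k in atTop, lam / 2 < (n k : ℝ) / rr d (M k) :=
    hn.eventually_const_lt (by linarith)
  filter_upwards [h1, h2, hM.eventually_ge_atTop 1, hrr.eventually_ge_atTop h] with k hk1 hk2 hk3 hk4
  obtain ⟨h3, h4⟩ := phi_close hs hsd hk3 (n k) hh hk4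
  have h5 : CE s d * ((2 * ((d : ℝ≥0∞) + 1)) * ENNReal.ofReal (Real.exp
      (-(ccap d * h / (16 * ((d : ℝ) + 1))) * (n k / rr d (M k))))) ≤ ε / 2 := by
    refine le_trans ?_ hh2.le
    refine mul_le_mul_right (mul_le_mul_right
      (ENNReal.ofReal_le_ofReal (Real.exp_le_exp.2 ?_)) _) _
    have hc := ccap_pos d
    have hd1 : (0 : ℝ) < (d : ℝ) + 1 := by positivity
    have h6 : 0 < ccap d * h / (16 * ((d : ℝ) + 1)) := by positivity
    nlinarith
  constructor
  · calc phi s d (M k) (n k) ≤ phih s d h (M k) (n k) + ε / 2 := h3.trans (by gcongr)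
      _ ≤ (L + ε / 2) + ε / 2 := by gcongr; exact hk1.2
      _ = L + ε := by rw [add_assoc, ENNReal.add_halves]
  · have h6 : L ≤ phih s d h (M k) (n k) + ε / 2 := tsub_le_iff_right.1 hk1.1
    calc L ≤ phih s d h (M k) (n k) + ε / 2 := h6
      _ ≤ (phi s d (M k) (n k) + ε / 2) + ε / 2 := by
          refine add_le_add (h4.trans ?_) le_rfl
          gcongr
      _ = _ := by rw [add_assoc, ENNReal.add_halves]

end

end Pool.Agent.Lib.MP_1fcdcf_an
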