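import Mathlib
import Pool.Agent.Lib.MP_1fcdcf_an.LocalMain

open MeasureTheory Set Metric Filter
open scoped ENNReal NNReal symmDiff RealInnerProductSpace Topology

namespace Pool.Agent.Lib.MP_1fcdcf_an

section Real

variable {s : ℝ}

/-- The harmonic sum of a window. -/
noncomputable def SF (F : Finset ℕ) : ℝ := ∑ n ∈ F, 1 / (n : ℝ)

lemma SF_nonneg (F : Finset ℕ) : 0 ≤ SF F := Finset.sum_nonneg fun n _ => by positivity

/-- The remainder coefficients. -/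
noncomputable def hk (s : ℝ) (F : Finset ℕ) (k : ℕ) : ℝ :=
  (1 / s + SF F) * ac s k - ∑ n ∈ F.filter (· ≤ k), ac s (k - n) / n

lemma hk_nonneg (hs : 0 < s) {F : Finset ℕ} (hF : ∀ n ∈ F, 1 ≤ n) (k : ℕ) : 0 ≤ hk s F k := by
  have := window hs F hF k
  rw [hk, SF]
  linarith

/-- The remainder level. -/
noncomputable def dl (s : ℝ) (F : Finset ℕ) (t : ℝ) : ℝ := 1 / s + SF F * (s * t)

lemma exp_ge {x : ℝ} : 1 - x ≤ Real.exp (-x) := by
  have := Real.add_one_le_exp (-x)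
  linarith

lemma hk_le (hs : 0 < s) {F : Finset ℕ} {k₀ n₂ : ℕ} (hF2 : ∀ n ∈ F, n ≤ n₂) (hn : n₂ < k₀)
    {k : ℕ} (hkk : k₀ ≤ k) : hk s F k ≤ dl s F (n₂ / ((k₀ : ℝ) - n₂)) * ac s k := by
  have hk0 : (0 : ℝ) < (k₀ : ℝ) - n₂ := by
    have : (n₂ : ℝ) < k₀ := by exact_mod_cast hn
    linarith
  have hac := ac_pos hs k
  have h1 : ∑ n ∈ F.filter (· ≤ k), ac s (k - n) / n = ∑ n ∈ F, ac s (k - n) / n := by
    congr 1
    rw [Finset.filter_true_of_mem]
    intro n hn'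
    have := hF2 n hn'
    omega
  have h2 : ∀ n ∈ F, ac s k * (1 - s * (n₂ / ((k₀ : ℝ) - n₂))) * (1 / (n : ℝ)) ≤
      ac s (k - n) / n := by
    intro n hn'
    have hn2 := hF2 n hn'
    rw [mul_one_div]
    gcongr
    have h3 := ac_add_le' hs (k - n) n
    rw [Nat.sub_add_cancel (by omega : n ≤ k)] at h3
    have h4 : ((k - n : ℕ) : ℝ) = k - n := by
      rw [Nat.cast_sub (by omega)]
    rw [h4] at h3
    have hkn : (0 : ℝ) < (k : ℝ) - n + 1 := by
      have : (n : ℝ) ≤ k := by exact_mod_cast (by omega : n ≤ k)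
      linarith
    have h5 : s * n / ((k : ℝ) - n + 1) ≤ s * (n₂ / ((k₀ : ℝ) - n₂)) := by
      rw [mul_div_assoc]
      gcongr
      have : (k₀ : ℝ) ≤ k := by exact_mod_cast hkk
      have : (n : ℝ) ≤ n₂ := by exact_mod_cast hn2
      linarith
    have h6 : ac s k * Real.exp (-(s * n / ((k : ℝ) - n + 1))) ≤ ac s (k - n) := by
      rw [Real.exp_neg, ← div_eq_mul_inv, div_le_iff₀ (Real.exp_pos _)]
      exact h3
    refine le_trans ?_ h6
    gcongr
    refine le_trans ?_ exp_ge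
    linarith
  have h7 : ac s k * (1 - s * (n₂ / ((k₀ : ℝ) - n₂))) * SF F ≤ ∑ n ∈ F, ac s (k - n) / n := by
    rw [SF, Finset.mul_sum]
    exact Finset.sum_le_sum h2
  rw [hk, h1, dl]
  nlinarith

lemma sum_hk_le (hs : 0 < s) {F : Finset ℕ} {k₀ n₂ : ℕ} (hF2 : ∀ n ∈ F, n ≤ n₂) (hn : n₂ < k₀) :
    ∑ k ∈ Finset.range k₀, hk s F k ≤ dl s F (n₂ / ((k₀ : ℝ) - n₂)) * ac (s + 1) (k₀ - 1) := by
  have hk0 : (0 : ℝ) < (k₀ : ℝ) - n₂ := by
    have : (n₂ : ℝ) < k₀ := by exact_mod_cast hn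
    linarith
  have hac := ac_pos (by linarith : 0 < s + 1) (k₀ - 1)
  have hsum : ∀ m : ℕ, 1 ≤ m → ∑ j ∈ Finset.range m, ac s j = ac (s + 1) (m - 1) := by
    intro m hm
    obtain ⟨j, rfl⟩ : ∃ j, m = j + 1 := ⟨m - 1, by omega⟩
    rw [sum_ac]
    simp
  have h1 : ∑ k ∈ Finset.range k₀, ∑ n ∈ F.filter (· ≤ k), ac s (k - n) / n =
      ∑ n ∈ F, ac (s + 1) (k₀ - n - 1) / n := by
    have h2 : ∀ k, ∑ n ∈ F.filter (· ≤ k), ac s (k - n) / n =
        ∑ n ∈ F, if n ≤ k then ac s (k - n) / n else 0 := fun k => Finset.sum_filter _ _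
    simp_rw [h2]
    rw [Finset.sum_comm]
    refine Finset.sum_congr rfl fun n hn' => ?_
    have hn2 := hF2 n hn'
    rw [← hsum (k₀ - n) (by omega), Finset.sum_div, ← Finset.sum_filter]
    refine Finset.sum_nbij' (fun k => k - n) (fun j => j + n) ?_ ?_ ?_ ?_ ?_
    · intro k hk'
      simp only [Finset.mem_filter, Finset.mem_range] at hk' ⊢
      omega
    · intro j hj
      simp only [Finset.mem_filter, Finset.mem_range] at hj ⊢
      omega
    · intro k hk'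
      simp only [Finset.mem_filter, Finset.mem_range] at hk'
      omega
    · intro j _
      simp
    · intro k _
      rfl
  have h2 : ∀ n ∈ F, ac (s + 1) (k₀ - 1) * (1 - s * (n₂ / ((k₀ : ℝ) - n₂))) * (1 / (n : ℝ)) ≤
      ac (s + 1) (k₀ - n - 1) / n := by
    intro n hn'
    have hn2 := hF2 n hn'
    rw [mul_one_div]
    gcongr
    have h3 := ac_add_le hs (k₀ - n - 1) n
    rw [show k₀ - n - 1 + n = k₀ - 1 by omega] at h3
    have h4 : ((k₀ - n - 1 : ℕ) : ℝ) + 1 = (k₀ : ℝ) - n := by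
      have : ((k₀ - n - 1 + 1 + n : ℕ) : ℝ) = k₀ := by
        congr 1; omega
      push_cast at this
      linarith
    rw [h4] at h3
    have hkn : (0 : ℝ) < (k₀ : ℝ) - n := by
      have : (n : ℝ) ≤ n₂ := by exact_mod_cast hn2
      linarith
    have h5 : s * n / ((k₀ : ℝ) - n) ≤ s * (n₂ / ((k₀ : ℝ) - n₂)) := by
      rw [mul_div_assoc]
      have : (n : ℝ) ≤ n₂ := by exact_mod_cast hn2
      gcongr
    have h6 : ac (s + 1) (k₀ - 1) * Real.exp (-(s * n / ((k₀ : ℝ) - n))) ≤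
        ac (s + 1) (k₀ - n - 1) := by
      rw [Real.exp_neg, ← div_eq_mul_inv, div_le_iff₀ (Real.exp_pos _)]
      exact h3
    refine le_trans ?_ h6
    gcongr
    refine le_trans ?_ exp_ge
    linarith
  have h7 : ac (s + 1) (k₀ - 1) * (1 - s * (n₂ / ((k₀ : ℝ) - n₂))) * SF F ≤
      ∑ n ∈ F, ac (s + 1) (k₀ - n - 1) / n := by
    rw [SF, Finset.mul_sum]
    exact Finset.sum_le_sum h2
  simp only [hk]
  rw [Finset.sum_sub_distrib, ← Finset.mul_sum, hsum k₀ (by omega), h1, dl]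
  nlinarith

/-- The weights of a window. -/
noncomputable def winW (s : ℝ) (hs : 0 < s) (F : Finset ℕ) (hF : ∀ n ∈ F, 1 ≤ n) : Wts s where
  F := F
  ν := fun n => ENNReal.ofReal (1 / (n : ℝ))
  A := ENNReal.ofReal (1 / s + SF F)
  h := fun k => ENNReal.ofReal (hk s F k)
  eq := by
    intro k
    have h0 := SF_nonneg F
    have h1 : ∑ n ∈ F.filter (· ≤ k), ENNReal.ofReal (1 / (n : ℝ)) * acE s (k - n) =
        ENNReal.ofReal (∑ n ∈ F.filter (· ≤ k), ac s (k - n) / n) := by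
      rw [ENNReal.ofReal_sum_of_nonneg]
      · refine Finset.sum_congr rfl fun n _ => ?_
        rw [acE, ← ENNReal.ofReal_mul (by positivity)]
        congr 1
        ring
      · intro n _
        have := ac_nonneg hs (k - n)
        positivity
    rw [h1, acE, ← ENNReal.ofReal_mul (by positivity), ← ENNReal.ofReal_add (hk_nonneg hs hF k)]
    · congr 1
      rw [hk]
      ring
    · refine Finset.sum_nonneg fun n _ => ?_
      have := ac_nonneg hs (k - n)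
      positivity

lemma log_le_SF {n₁ : ℕ} (hn₁ : 1 ≤ n₁) (m : ℕ) :
    Real.log ((n₁ + m : ℕ) : ℝ) - Real.log n₁ ≤ SF (Finset.Ico n₁ (n₁ + m)) := by
  induction m with
  | zero => simp [SF]
  | succ m ih =>
    rw [← add_assoc, SF, Finset.sum_Ico_succ_top (by omega), ← SF]
    have h1 : (0 : ℝ) < ((n₁ + m : ℕ) : ℝ) := by exact_mod_cast (by omega : 0 < n₁ + m)
    have h2 : Real.log ((n₁ + m + 1 : ℕ) : ℝ) - Real.log ((n₁ + m : ℕ) : ℝ) ≤
        1 / ((n₁ + m : ℕ) : ℝ) := by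
      rw [← Real.log_div (by positivity) h1.ne']
      refine (Real.log_le_sub_one_of_pos (by positivity)).trans (le_of_eq ?_)
      push_cast
      push_cast at h1
      field_simp
      ring
    linarith

end Real

section

variable {s : ℝ} {d : ℕ}

/-- The normalised total gain. -/
noncomputable def dd (s : ℝ) (d N : ℕ) : ℝ≥0∞ :=
  JJ s N (univ : Set (SS d))

lemma DD_eq_dd {N : ℕ} (hN : 1 ≤ N) : DD s ((N : ℝ≥0∞) • sig d) =
    (ENNReal.ofReal ((N : ℝ) ^ (s / d)) * N) * dd s d N := by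
  have h := Jn_eq (s := s) hN (univ : Set (SS d))
  rw [Jn, measure_univ, div_one, DN_univ] at h
  exact h

lemma norm_ne_zero {N : ℕ} (hN : 1 ≤ N) : ENNReal.ofReal ((N : ℝ) ^ (s / d)) * (N : ℝ≥0∞) ≠ 0 := by
  have hN0 : (0 : ℝ) < N := by exact_mod_cast hN
  refine mul_ne_zero ?_ (by exact_mod_cast (by omega : N ≠ 0))
  simp only [ne_eq, ENNReal.ofReal_eq_zero, not_le]
  positivity

lemma norm_ne_top {N : ℕ} : ENNReal.ofReal ((N : ℝ) ^ (s / d)) * (N : ℝ≥0∞) ≠ ⊤ :=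
  ENNReal.mul_ne_top ENNReal.ofReal_ne_top (ENNReal.natCast_ne_top N)

lemma phi_le_dd (hs : 0 < s) (hd : 1 ≤ d) (hsd : s < d) {N : ℕ} (hN : 1 ≤ N) (n : ℕ) :
    phi s d N n ≤ dd s d N := by
  have h := Phi_le hs hd hsd N n
  rw [Phi_eq_phi hs hd hsd hN, DD_eq_dd hN] at h
  exact (ENNReal.mul_le_mul_iff_right (norm_ne_zero hN) norm_ne_top).1 h

lemma dd_le_CE (hs : 0 < s) (hsd : s < d) {N : ℕ} (hN : 1 ≤ N) : dd s d N ≤ CE s d :=
  JJ_le hs hsd hN _

/-- The main inequality for a window. -/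
lemma window_le (hs : 0 < s) (hd : 1 ≤ d) (hsd : s < d) {N : ℕ} (hN : 1 ≤ N) {F : Finset ℕ}
    {n₂ : ℕ} (hF : ∀ n ∈ F, 1 ≤ n) (hF2 : ∀ n ∈ F, n ≤ n₂) (hn : n₂ < k0 d N) {m : ℝ≥0∞}
    (hm : ∀ n ∈ F, phi s d N n ≤ m) :
    ENNReal.ofReal (1 / s + SF F) * dd s d N ≤
      ENNReal.ofReal (dl s F (n₂ / ((k0 d N : ℝ) - n₂))) * CE s d + ENNReal.ofReal (SF F) * m := by
  have hSF := SF_nonneg F
  have hk0 : (0 : ℝ) < (k0 d N : ℝ) - n₂ := by
    have : (n₂ : ℝ) < k0 d N := by exact_mod_cast hn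
    linarith
  have hdl : 0 ≤ dl s F (n₂ / ((k0 d N : ℝ) - n₂)) := by
    unfold dl
    positivity
  set W := winW s hs F hF with hW
  have hA : W.A ≠ 0 := by
    change ENNReal.ofReal (1 / s + SF F) ≠ 0
    simp only [ne_eq, ENNReal.ofReal_eq_zero, not_le]
    positivity
  have h1 := A_mul_DD_le hs hd hsd W hA ENNReal.ofReal_ne_top N (k0 d N)
  have h2 : Err W ((N : ℝ≥0∞) • sig d) (k0 d N) ≤ ENNReal.ofReal (dl s F (n₂ / ((k0 d N : ℝ) - n₂))) *
      CE s d * ENNReal.ofReal ((N : ℝ) ^ (s / d)) * ((N : ℝ≥0∞) • sig d) univ := by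
    refine Err_le hs hsd W hN le_rfl ?_ ?_
    · change ∑ k ∈ Finset.range (k0 d N), ENNReal.ofReal (hk s F k) ≤ _
      rw [← ENNReal.ofReal_sum_of_nonneg fun k _ => hk_nonneg hs hF k, acE,
        ← ENNReal.ofReal_mul hdl]
      exact ENNReal.ofReal_le_ofReal (sum_hk_le hs hF2 hn)
    · intro k hkk
      change ENNReal.ofReal (hk s F k) ≤ _
      rw [acE, ← ENNReal.ofReal_mul hdl]
      exact ENNReal.ofReal_le_ofReal (hk_le hs hF2 hn hkk)
  rw [Measure.smul_apply, measure_univ, smul_eq_mul, mul_one] at h2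
  have h3 : ∑ n ∈ W.F, W.ν n * Phi s d N n ≤
      ENNReal.ofReal (SF F) * ((ENNReal.ofReal ((N : ℝ) ^ (s / d)) * N) * m) := by
    change ∑ n ∈ F, ENNReal.ofReal (1 / (n : ℝ)) * Phi s d N n ≤ _
    rw [SF, ENNReal.ofReal_sum_of_nonneg fun n _ => by positivity, Finset.sum_mul]
    refine Finset.sum_le_sum fun n hn' => ?_
    rw [Phi_eq_phi hs hd hsd hN]
    gcongr
    exact hm n hn'
  have h4 : (ENNReal.ofReal ((N : ℝ) ^ (s / d)) * N) * (ENNReal.ofReal (1 / s + SF F) * dd s d N) ≤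
      (ENNReal.ofReal ((N : ℝ) ^ (s / d)) * N) *
      (ENNReal.ofReal (dl s F (n₂ / ((k0 d N : ℝ) - n₂))) * CE s d + ENNReal.ofReal (SF F) * m) := by
    calc (ENNReal.ofReal ((N : ℝ) ^ (s / d)) * N) * (ENNReal.ofReal (1 / s + SF F) * dd s d N)
        = W.A * DD s ((N : ℝ≥0∞) • sig d) := by
          rw [DD_eq_dd hN]
          change _ = ENNReal.ofReal (1 / s + SF F) * _
          ring
      _ ≤ _ := h1
      _ ≤ _ := add_le_add h2 h3
      _ = _ := by ring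
  exact (ENNReal.mul_le_mul_iff_right (norm_ne_zero hN) norm_ne_top).1 h4

end

end Pool.Agent.Lib.MP_1fcdcf_an
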