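import Mathlib
import Pool.Agent.Lib.MP_1fcdcf_an.Window

open MeasureTheory Set Metric Filter
open scoped ENNReal NNReal symmDiff RealInnerProductSpace Topology

namespace Pool.Agent.Lib.MP_1fcdcf_an

section

variable {s : ℝ} {d : ℕ}

/-- Uniform upper bound for the mean gains. -/
lemma uniform_phi (hs : 0 < s) (hd : 1 ≤ d) (hsd : s < d) {l₁ l₂ : ℝ} (hl₁ : 0 < l₁)
    {ε : ℝ≥0∞} (hε : ε ≠ 0) :
    ∀ᶠ N in atTop, ∀ n : ℕ, l₁ * rr d N ≤ n → (n : ℝ) ≤ l₂ * rr d N →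
      phi s d N n ≤ liminf (dd s d) atTop + ε := by
  by_contra hcon
  rw [not_eventually] at hcon
  have h1 := hcon.and_eventually (eventually_ge_atTop 1)
  obtain ⟨φ, hφ, hφ2⟩ := extraction_of_frequently_atTop h1
  have h2 : ∀ k, ∃ n : ℕ, l₁ * rr d (φ k) ≤ n ∧ (n : ℝ) ≤ l₂ * rr d (φ k) ∧
      liminf (dd s d) atTop + ε < phi s d (φ k) n := by
    intro k
    have := (hφ2 k).1
    push Not at this
    exact this
  choose n hn1 hn2 hn3 using h2
  have hmem : ∀ k, (n k : ℝ) / rr d (φ k) ∈ Icc l₁ l₂ := by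
    intro k
    have hr := rr_pos (d := d) (hφ2 k).2
    exact ⟨(le_div_iff₀ hr).2 (hn1 k), (div_le_iff₀ hr).2 (hn2 k)⟩
  obtain ⟨lam, hlam, ψ, hψ, hψ2⟩ := isCompact_Icc.tendsto_subseq hmem
  have hlam0 : 0 < lam := hl₁.trans_le hlam.1
  have hε4 : ε / 2 ≠ 0 := (ENNReal.half_pos hε).ne'
  obtain ⟨L, hL⟩ := local_limit hs hd hsd hlam0 hε4
  have hA := hL (fun k => φ (ψ k)) (fun k => n (ψ k))
    (hφ.tendsto_atTop.comp hψ.tendsto_atTop) hψ2
  have hB := hL (fun N => N) (fun N => ⌊lam * rr d N⌋₊) tendsto_id (by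
    have h3 := (tendsto_nat_floor_mul_div_atTop hlam0.le).comp (tendsto_rr hd)
    exact h3)
  have hC : L ≤ liminf (dd s d) atTop + ε / 2 := by
    rw [← tsub_le_iff_right]
    refine le_liminf_of_le (by isBoundedDefault) ?_
    filter_upwards [hB, eventually_ge_atTop 1] with N hN hN1
    rw [tsub_le_iff_right]
    exact hN.2.trans (by gcongr; exact phi_le_dd hs hd hsd hN1 _)
  obtain ⟨k, hk⟩ := hA.exists
  have h5 : phi s d (φ (ψ k)) (n (ψ k)) ≤ liminf (dd s d) atTop + ε := by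
    calc _ ≤ L + ε / 2 := hk.1
      _ ≤ (liminf (dd s d) atTop + ε / 2) + ε / 2 := by gcongr
      _ = _ := by rw [add_assoc, ENNReal.add_halves]
  exact absurd h5 (not_le.2 (hn3 (ψ k)))

lemma exists_l₂ (s : ℝ) (d : ℕ) {ε : ℝ≥0∞} (hε : ε ≠ 0) : ∃ l : ℝ, 0 < l ∧ l < 1 ∧
    ENNReal.ofReal (s * (l / (1 - l))) * CE s d < ε := by
  have h1 : Tendsto (fun l : ℝ => ENNReal.ofReal (s * (l / (1 - l))) * CE s d) (𝓝[>] 0) (𝓝 0) := by
    have h2 : Tendsto (fun l : ℝ => s * (l / (1 - l))) (𝓝 0) (𝓝 0) := by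
      have h3 : ContinuousAt (fun l : ℝ => s * (l / (1 - l))) 0 := by
        refine ContinuousAt.mul continuousAt_const (ContinuousAt.div continuousAt_id ?_ ?_)
        · exact (continuousAt_const.sub continuousAt_id)
        · simp
      have := h3.tendsto
      simpa using this
    have h3 : Tendsto (fun l : ℝ => s * (l / (1 - l))) (𝓝[>] 0) (𝓝 0) :=
      h2.mono_left nhdsWithin_le_nhds
    have h4 := ENNReal.Tendsto.mul_const (b := CE s d)
      (ENNReal.tendsto_ofReal h3) (Or.inr (CE_ne_top s d))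
    simpa using h4
  have h2 : ∀ᶠ l : ℝ in 𝓝[>] 0, l < 1 :=
    (eventually_lt_nhds one_pos).filter_mono nhdsWithin_le_nhds
  obtain ⟨l, hl1, hl2, hl3⟩ := ((h1.eventually_lt_const (pos_iff_ne_zero.2 hε)).and
    (h2.and self_mem_nhdsWithin)).exists
  exact ⟨l, hl3, hl2, hl1⟩

lemma exists_T (s : ℝ) (hs : 0 < s) (d : ℕ) {ε : ℝ≥0∞} (hε : ε ≠ 0) : ∃ T : ℝ, 0 < T ∧
    ENNReal.ofReal (1 / (s * T)) * CE s d < ε := by
  have h1 : Tendsto (fun T : ℝ => ENNReal.ofReal (1 / (s * T)) * CE s d) atTop (𝓝 0) := by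
    have h2 : Tendsto (fun T : ℝ => 1 / (s * T)) atTop (𝓝 0) :=
      Tendsto.div_atTop tendsto_const_nhds (tendsto_id.const_mul_atTop hs)
    have h4 := ENNReal.Tendsto.mul_const (b := CE s d)
      (ENNReal.tendsto_ofReal h2) (Or.inr (CE_ne_top s d))
    simpa using h4
  obtain ⟨T, hT1, hT2⟩ := ((h1.eventually_lt_const (pos_iff_ne_zero.2 hε)).and
    (eventually_gt_atTop 0)).exists
  exact ⟨T, hT2, hT1⟩

lemma dd_eventually_le (hs : 0 < s) (hd : 1 ≤ d) (hsd : s < d) {ε : ℝ≥0∞} (hε : ε ≠ 0) :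
    ∀ᶠ N in atTop, dd s d N ≤ liminf (dd s d) atTop + ε := by
  have hε2 : ε / 2 ≠ 0 := (ENNReal.half_pos hε).ne'
  have hε4 : ε / 2 / 2 ≠ 0 := (ENNReal.half_pos hε2).ne'
  obtain ⟨l₂, hl₂, hl₂1, hl₂2⟩ := exists_l₂ s d hε4
  obtain ⟨T, hT, hT2⟩ := exists_T s hs d hε4
  set l₁ : ℝ := l₂ * Real.exp (-(2 * T)) with hl₁def
  have hl₁ : 0 < l₁ := by positivity
  have hU := uniform_phi hs hd hsd (l₁ := l₁) (l₂ := l₂) hl₁ hε2
  set m := liminf (dd s d) atTop + ε / 2 with hm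
  have hlt : l₁ < l₂ * Real.exp (-T) := by
    rw [hl₁def]
    gcongr
    linarith
  have hrr : ∀ᶠ N in atTop, 1 / (l₂ * Real.exp (-T) - l₁) < rr d N :=
    (tendsto_rr hd).eventually_gt_atTop _
  filter_upwards [hU, hrr, eventually_ge_atTop 1] with N hN1 hN2 hN
  have hr := rr_pos (d := d) hN
  have h1 : l₁ * rr d N + 1 < l₂ * Real.exp (-T) * rr d N := by
    rw [div_lt_iff₀ (by linarith)] at hN2
    linarith
  set n₁ : ℕ := ⌈l₁ * rr d N⌉₊ with hn₁
  set n₂ : ℕ := ⌊l₂ * rr d N⌋₊ with hn₂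
  have hn₁pos : 1 ≤ n₁ := Nat.ceil_pos.2 (by positivity)
  have hn₁le : (n₁ : ℝ) < l₁ * rr d N + 1 := Nat.ceil_lt_add_one (by positivity)
  have hn₂le : (n₂ : ℝ) ≤ l₂ * rr d N := Nat.floor_le (by positivity)
  have hn₂ge : l₂ * rr d N < n₂ + 1 := Nat.lt_floor_add_one _
  have hexp : Real.exp (-T) ≤ 1 := by rw [Real.exp_le_one_iff]; linarith
  have hle : n₁ ≤ n₂ + 1 := by
    have : (n₁ : ℝ) < (n₂ + 1 : ℕ) := by
      push_cast
      have : l₂ * Real.exp (-T) * rr d N ≤ l₂ * 1 * rr d N := by gcongr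
      linarith
    exact_mod_cast this.le
  set F := Finset.Ico n₁ (n₂ + 1) with hF
  have hF1 : ∀ n ∈ F, 1 ≤ n := fun n hn => hn₁pos.trans (Finset.mem_Ico.1 hn).1
  have hF2 : ∀ n ∈ F, n ≤ n₂ := fun n hn => by
    have := (Finset.mem_Ico.1 hn).2
    omega
  have hk0 : (rr d N : ℝ) ≤ k0 d N := k0_ge d N
  have hnk : n₂ < k0 d N := by
    have : (n₂ : ℝ) < k0 d N := by nlinarith
    exact_mod_cast this
  have hphi : ∀ n ∈ F, phi s d N n ≤ m := by
    intro n hn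
    have hn' := Finset.mem_Ico.1 hn
    refine hN1 n ?_ ?_
    · exact (Nat.le_ceil _).trans (by exact_mod_cast hn'.1)
    · refine le_trans ?_ hn₂le
      exact_mod_cast hF2 n hn
  have hSF : T ≤ SF F := by
    obtain ⟨j, hj⟩ : ∃ j, n₂ + 1 = n₁ + j := ⟨n₂ + 1 - n₁, by omega⟩
    have h2 := log_le_SF hn₁pos j
    rw [← hj, ← hF] at h2
    refine le_trans ?_ h2
    have hn₁0 : (0 : ℝ) < n₁ := by exact_mod_cast hn₁pos
    rw [← Real.log_div (by positivity) hn₁0.ne', Real.le_log_iff_exp_le (by positivity),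
      le_div_iff₀ hn₁0]
    push_cast
    have h3 : (n₁ : ℝ) ≤ l₂ * Real.exp (-T) * rr d N := (hn₁le.trans h1).le
    calc Real.exp T * n₁ ≤ Real.exp T * (l₂ * Real.exp (-T) * rr d N) := by gcongr
      _ = l₂ * rr d N * (Real.exp T * Real.exp (-T)) := by ring
      _ = l₂ * rr d N := by rw [← Real.exp_add]; simp
      _ ≤ _ := hn₂ge.le
  have hSF0 : 0 < SF F := hT.trans_le hSF
  have hw := window_le hs hd hsd hN hF1 hF2 hnk hphi
  have ht : (n₂ : ℝ) / ((k0 d N : ℝ) - n₂) ≤ l₂ / (1 - l₂) := by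
    have h3 : (0 : ℝ) < (k0 d N : ℝ) - n₂ := by
      have : (n₂ : ℝ) < k0 d N := by exact_mod_cast hnk
      linarith
    rw [div_le_div_iff₀ h3 (by linarith)]
    nlinarith
  -- combine
  have h5 : ENNReal.ofReal (SF F) * dd s d N ≤ ENNReal.ofReal (SF F) *
      (ENNReal.ofReal (1 / (s * T)) * CE s d + ENNReal.ofReal (s * (l₂ / (1 - l₂))) * CE s d + m) := by
    calc ENNReal.ofReal (SF F) * dd s d N ≤ ENNReal.ofReal (1 / s + SF F) * dd s d N := by
          gcongr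
          have : 0 < 1 / s := by positivity
          linarith
      _ ≤ _ := hw
      _ ≤ ENNReal.ofReal (SF F * (1 / (s * T)) + SF F * (s * (l₂ / (1 - l₂)))) * CE s d +
          ENNReal.ofReal (SF F) * m := by
          refine add_le_add (mul_le_mul_left (ENNReal.ofReal_le_ofReal ?_) _) le_rfl
          unfold dl
          refine add_le_add ?_ ?_
          · rw [mul_one_div, div_le_div_iff₀ hs (by positivity)]
            nlinarith
          · gcongr
      _ = _ := by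
          have hl3 : 0 ≤ l₂ / (1 - l₂) := div_nonneg hl₂.le (by linarith)
          rw [ENNReal.ofReal_add (by positivity) (by positivity),
            ENNReal.ofReal_mul (p := SF F) hSF0.le, ENNReal.ofReal_mul (p := SF F) hSF0.le]
          ring
  have h6 : ENNReal.ofReal (SF F) ≠ 0 := by simpa using hSF0
  have h7 := (ENNReal.mul_le_mul_iff_right h6 ENNReal.ofReal_ne_top).1 h5
  calc dd s d N ≤ _ := h7
    _ ≤ ε / 2 / 2 + ε / 2 / 2 + (liminf (dd s d) atTop + ε / 2) := by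
        gcongr
    _ = _ := by
        rw [ENNReal.add_halves, add_left_comm, ENNReal.add_halves]

/-- The normalised total gain converges. -/
theorem tendsto_dd (hs : 0 < s) (hd : 1 ≤ d) (hsd : s < d) :
    ∃ D : ℝ≥0∞, D ≠ ⊤ ∧ Tendsto (dd s d) atTop (𝓝 D) := by
  refine ⟨liminf (dd s d) atTop, ?_, tendsto_of_le_liminf_of_limsup_le le_rfl ?_⟩
  · have h1 : liminf (dd s d) atTop ≤ CE s d := by
      refine liminf_le_of_frequently_le' (Eventually.frequently ?_)
      filter_upwards [eventually_ge_atTop 1] with N hN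
      exact dd_le_CE hs hsd hN
    exact ne_top_of_le_ne_top (CE_ne_top s d) h1
  · refine le_of_forall_pos_le_add ?_
    intro ε hε
    refine limsup_le_of_le (by isBoundedDefault) ?_
    exact dd_eventually_le hs hd hsd hε.ne'

end

end Pool.Agent.Lib.MP_1fcdcf_an
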