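import Mathlib
import Pool.Agent.Lib.MP_1fcdcf_an.Limit

open MeasureTheory Set Metric Filter
open scoped ENNReal NNReal symmDiff RealInnerProductSpace Topology

namespace Pool.Agent.Lib.MP_1fcdcf_an

section

variable {s : ℝ} {d : ℕ}

/-- The energy of a configuration. -/
noncomputable def cE (s : ℝ) {d n : ℕ} (x : Fin n → SS d) : ℝ≥0∞ :=
  pairSum (fun p : SS d × SS d => KK s p.1 p.2) x

/-- The minimal energy. -/
noncomputable def EN (s : ℝ) (d n : ℕ) : ℝ≥0∞ := ⨅ x : Fin n → SS d, cE s x

lemma EN_le {n : ℕ} (x : Fin n → SS d) : EN s d n ≤ cE s x := iInf_le _ x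

lemma realz_config {n : ℕ} (x : Fin n → SS d) :
    Realz ((n : ℝ≥0∞) • sig d) (∑ i, ∑ j, if i = j then 0 else
      (muG d).map (fun g => (rot (isoG g) (x i), rot (isoG g) (x j)))) := by
  intro k f g c c' hk hf hg H
  have hmeas : ∀ i, Measurable fun γ : GG d => rot (isoG γ) (x i) := fun i =>
    measurable_rot_isoG' (x i)
  have h1 : ∀ f : SS d → ℝ≥0∞, Measurable f → ∫⁻ y, f y ∂((n : ℝ≥0∞) • sig d) =
      ∫⁻ γ, ∑ i, f (rot (isoG γ) (x i)) ∂(muG d) := by
    intro f hf
    have hm : ∀ i, Measurable fun γ : GG d => f (rot (isoG γ) (x i)) := fun i =>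
      hf.comp (hmeas i)
    rw [lintegral_finsetSum _ fun i _ => hm i]
    simp only [lintegral_rot f hf, lintegral_smul_measure, Finset.sum_const, Finset.card_univ,
      Fintype.card_fin, nsmul_eq_mul, smul_eq_mul]
  have h2 : ∫⁻ p, k p ∂(∑ i, ∑ j, if i = j then 0 else
      (muG d).map (fun g => (rot (isoG g) (x i), rot (isoG g) (x j)))) =
      ∫⁻ γ, pairSum k (fun i => rot (isoG γ) (x i)) ∂(muG d) := by
    unfold pairSum
    rw [lintegral_finsetSum_measure, lintegral_finsetSum]
    · refine Finset.sum_congr rfl fun i _ => ?_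
      rw [lintegral_finsetSum_measure, lintegral_finsetSum]
      · refine Finset.sum_congr rfl fun j _ => ?_
        split_ifs with hij
        · simp
        · rw [lintegral_map hk ((hmeas i).prodMk (hmeas j))]
      · intro j _
        split_ifs
        · exact measurable_const
        · exact hk.comp ((hmeas i).prodMk (hmeas j))
    · intro i _
      refine Finset.measurable_sum _ fun j _ => ?_
      split_ifs
      · exact measurable_const
      · exact hk.comp ((hmeas i).prodMk (hmeas j))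
  rw [h1 f hf, h1 g hg, h2]
  have h3 : ∀ c : ℝ≥0∞, c = ∫⁻ _ : GG d, c ∂(muG d) := fun c => by simp
  have hmp : Measurable fun γ : GG d => pairSum k (fun i => rot (isoG γ) (x i)) := by
    unfold pairSum
    refine Finset.measurable_sum _ fun i _ => Finset.measurable_sum _ fun j _ => ?_
    split_ifs
    · exact measurable_const
    · exact hk.comp ((hmeas i).prodMk (hmeas j))
  calc ∫⁻ γ, ∑ i, f (rot (isoG γ) (x i)) ∂(muG d) + c
      = ∫⁻ γ, (∑ i, f (rot (isoG γ) (x i)) + c) ∂(muG d) := by
        rw [lintegral_add_right _ measurable_const, ← h3 c]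
    _ ≤ ∫⁻ γ, (pairSum k (fun i => rot (isoG γ) (x i)) + ∑ i, g (rot (isoG γ) (x i)) + c')
          ∂(muG d) := lintegral_mono fun γ => H n _
    _ = _ := by
        rw [lintegral_add_right _ measurable_const, ← h3 c', lintegral_add_left hmp]

lemma eR_le_cE {n : ℕ} (x : Fin n → SS d) : eR s ((n : ℝ≥0∞) • sig d) ≤ cE s x := by
  refine (eR_le (realz_config x)).trans (le_of_eq ?_)
  have hmeas : ∀ i, Measurable fun γ : GG d => rot (isoG γ) (x i) := fun i =>
    measurable_rot_isoG' (x i)
  unfold cE pairSum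
  rw [lintegral_finsetSum_measure]
  refine Finset.sum_congr rfl fun i _ => ?_
  rw [lintegral_finsetSum_measure]
  refine Finset.sum_congr rfl fun j _ => ?_
  split_ifs with hij
  · simp
  · rw [lintegral_map (measurable_KK s d) ((hmeas i).prodMk (hmeas j))]
    simp only [KK_rot]
    simp

lemma eR_le_EN (n : ℕ) : eR s ((n : ℝ≥0∞) • sig d) ≤ EN s d n := le_iInf fun x => eR_le_cE x

lemma cE_cons {n : ℕ} (x : Fin n → SS d) (y : SS d) :
    cE s (Fin.cons y x : Fin (n + 1) → SS d) = cE s x + 2 * ∑ i, KK s (x i) y := by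
  unfold cE pairSum
  rw [Fin.sum_univ_succ]
  simp only [Fin.sum_univ_succ, Fin.cons_zero, Fin.cons_succ, Fin.succ_inj, if_true, zero_add,
    Fin.succ_ne_zero, if_false, (Fin.succ_ne_zero _).symm, Finset.sum_add_distrib]
  rw [two_mul]
  simp only [KK_comm s y]
  ring

lemma EN_succ_le (n : ℕ) : EN s d (n + 1) ≤ EN s d n + 2 * (n * WW s d) := by
  rw [EN, EN, ENNReal.iInf_add]
  refine le_iInf fun x => ?_
  have hm : Measurable fun y : SS d => cE s x + 2 * ∑ i, KK s (x i) y :=
    ((Finset.measurable_sum _ fun i _ => measurable_KK_right (x i)).const_mul 2).const_add _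
  obtain ⟨y, hy⟩ := exists_le_lintegral (μ := sig d) hm.aemeasurable
  refine (iInf_le _ (Fin.cons y x)).trans ?_
  rw [cE_cons]
  refine hy.trans (le_of_eq ?_)
  rw [lintegral_add_left measurable_const, lintegral_const, measure_univ, mul_one,
    lintegral_const_mul _ (Finset.measurable_sum _ fun i _ => measurable_KK_right (x i)),
    lintegral_finsetSum _ fun i _ => measurable_KK_right (x i)]
  simp [lintegral_KK_sig]

lemma EN_zero : EN s d 0 = 0 := by
  have h : EN s d 0 ≤ 0 := (iInf_le _ Fin.elim0).trans (by simp [cE, pairSum])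
  simpa using h

lemma EN_ne_top (hs : 0 < s) (hd : 1 ≤ d) (hsd : s < d) (n : ℕ) : EN s d n ≠ ⊤ := by
  induction n with
  | zero => rw [EN_zero]; exact ENNReal.zero_ne_top
  | succ n ih =>
    refine ne_top_of_le_ne_top ?_ (EN_succ_le n)
    refine ENNReal.add_ne_top.2 ⟨ih, ENNReal.mul_ne_top (by norm_num) ?_⟩
    exact ENNReal.mul_ne_top (ENNReal.natCast_ne_top n) (WW_ne_top hs hd hsd)

lemma sum_remove {m : ℕ} (x : Fin (m + 2) → SS d) :
    ∑ i, cE s (fun a => x (Fin.succAbove i a)) = m * cE s x := by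
  have h1 : ∀ i : Fin (m + 2), cE s (fun a => x (Fin.succAbove i a)) =
      ∑ p, ∑ q, if p = q then 0 else if p = i ∨ q = i then 0 else KK s (x p) (x q) := by
    intro i
    rw [Fin.sum_univ_succAbove _ i]
    have h2 : (∑ q, if i = q then 0 else if i = i ∨ q = i then 0 else KK s (x i) (x q)) = 0 := by
      simp
    rw [h2, zero_add]
    unfold cE pairSum
    refine Finset.sum_congr rfl fun a _ => ?_
    rw [Fin.sum_univ_succAbove _ i]
    simp [Fin.succAbove_ne]
  simp_rw [h1]
  rw [Finset.sum_comm]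
  unfold cE pairSum
  rw [Finset.mul_sum]
  refine Finset.sum_congr rfl fun p _ => ?_
  rw [Finset.sum_comm, Finset.mul_sum]
  refine Finset.sum_congr rfl fun q _ => ?_
  by_cases hpq : p = q
  · simp [hpq]
  · simp only [hpq, if_false]
    rw [Finset.sum_ite, Finset.sum_const_zero, zero_add, Finset.sum_const, nsmul_eq_mul]
    congr 2
    have h3 : (Finset.univ.filter fun i : Fin (m + 2) => ¬(p = i ∨ q = i)) =
        Finset.univ \ {p, q} := by
      ext i
      simp [eq_comm]
    rw [h3, Finset.card_sdiff_of_subset (Finset.subset_univ _), Finset.card_pair hpq]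
    simp

lemma EN_remove (m : ℕ) : ((m : ℝ≥0∞) + 2) * EN s d (m + 1) ≤ m * EN s d (m + 2) := by
  rcases Nat.eq_zero_or_pos m with rfl | hm
  · have h : EN s d (0 + 1) ≤ 0 := by
      refine (iInf_le _ fun _ => e0 d).trans ?_
      simp [cE, pairSum]
    have h' : EN s d (0 + 1) = 0 := le_antisymm h zero_le
    rw [h']
    simp
  · have hm1 : (m : ℝ≥0∞) ≠ 0 := by exact_mod_cast (by omega : m ≠ 0)
    conv_rhs => rw [EN, ENNReal.mul_iInf_of_ne hm1 (ENNReal.natCast_ne_top m)]
    refine le_iInf fun x => ?_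
    rw [← sum_remove]
    calc ((m : ℝ≥0∞) + 2) * EN s d (m + 1) = ∑ i : Fin (m + 2), EN s d (m + 1) := by simp
      _ ≤ _ := Finset.sum_le_sum fun i _ => EN_le _

end

end Pool.Agent.Lib.MP_1fcdcf_an
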