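import Mathlib
import Pool.Agent.Lib.MP_1fcdcf_an.Canon

open MeasureTheory Set Metric Filter
open scoped ENNReal NNReal symmDiff RealInnerProductSpace Topology

namespace Pool.Agent.Lib.MP_1fcdcf_an

section

variable {s : ℝ} {d : ℕ}

/-- The minimal energy, as a real number. -/
noncomputable def Er (s : ℝ) (d n : ℕ) : ℝ := (EN s d n).toReal

/-- The continuous energy, as a real number. -/
noncomputable def Wr (s : ℝ) (d : ℕ) : ℝ := (WW s d).toReal

/-- The deficit. -/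
noncomputable def Fr (s : ℝ) (d n : ℕ) : ℝ := (n : ℝ) ^ 2 * Wr s d - Er s d n

/-- The constant of the a priori bound. -/
noncomputable def Cr (s : ℝ) (d : ℕ) : ℝ := (CE s d).toReal

lemma Er_nonneg (n : ℕ) : 0 ≤ Er s d n := ENNReal.toReal_nonneg

lemma Wr_nonneg : 0 ≤ Wr s d := ENNReal.toReal_nonneg

lemma Cr_nonneg : 0 ≤ Cr s d := ENNReal.toReal_nonneg

lemma WW_ne_zero (hs : 0 < s) : WW s d ≠ 0 := by
  have h1 : ENNReal.ofReal (2 ^ (-s)) ≤ WW s d := by
    calc ENNReal.ofReal (2 ^ (-s)) = ∫⁻ _ : SS d, ENNReal.ofReal (2 ^ (-s)) ∂(sig d) := by simp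
      _ ≤ _ := lintegral_mono fun y => KK_ge hs _ _
  intro h
  rw [h, nonpos_iff_eq_zero, ENNReal.ofReal_eq_zero] at h1
  have : (0 : ℝ) < 2 ^ (-s) := by positivity
  linarith

lemma Wr_pos (hs : 0 < s) (hd : 1 ≤ d) (hsd : s < d) : 0 < Wr s d :=
  ENNReal.toReal_pos (WW_ne_zero hs) (WW_ne_top hs hd hsd)

lemma Er_succ_le (hs : 0 < s) (hd : 1 ≤ d) (hsd : s < d) (n : ℕ) :
    Er s d (n + 1) ≤ Er s d n + 2 * (n * Wr s d) := by
  have h1 := EN_ne_top hs hd hsd n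
  have h2 := WW_ne_top hs hd hsd
  have h3 : (2 : ℝ≥0∞) * (n * WW s d) ≠ ⊤ :=
    ENNReal.mul_ne_top (by norm_num) (ENNReal.mul_ne_top (ENNReal.natCast_ne_top n) h2)
  have h := ENNReal.toReal_mono (ENNReal.add_ne_top.2 ⟨h1, h3⟩) (EN_succ_le (s := s) (d := d) n)
  rw [ENNReal.toReal_add h1 h3, ENNReal.toReal_mul, ENNReal.toReal_mul] at h
  simpa [Er, Wr] using h

lemma Fr_mono (hs : 0 < s) (hd : 1 ≤ d) (hsd : s < d) : Monotone (Fr s d) := by
  refine monotone_nat_of_le_succ fun n => ?_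
  have h1 := Er_succ_le hs hd hsd n
  have h2 := Wr_nonneg (s := s) (d := d)
  rw [Fr, Fr]
  push_cast
  nlinarith

lemma Fr_zero : Fr s d 0 = 0 := by simp [Fr, Er, EN_zero]

lemma Fr_nonneg (hs : 0 < s) (hd : 1 ≤ d) (hsd : s < d) (n : ℕ) : 0 ≤ Fr s d n := by
  rw [← Fr_zero (s := s) (d := d)]
  exact Fr_mono hs hd hsd (Nat.zero_le n)

lemma Er_remove (hs : 0 < s) (hd : 1 ≤ d) (hsd : s < d) (m : ℕ) :
    ((m : ℝ) + 2) * Er s d (m + 1) ≤ m * Er s d (m + 2) := by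
  have h := ENNReal.toReal_mono (ENNReal.mul_ne_top (ENNReal.natCast_ne_top m)
    (EN_ne_top hs hd hsd (m + 2))) (EN_remove (s := s) (d := d) m)
  rw [ENNReal.toReal_mul, ENNReal.toReal_mul, ENNReal.toReal_add (ENNReal.natCast_ne_top m)
    (by norm_num)] at h
  simpa [Er] using h

lemma II_le_EN (n : ℕ) : (n : ℝ≥0∞) ^ 2 * WW s d ≤ DD s ((n : ℝ≥0∞) • sig d) + EN s d n := by
  rw [← II_Nsig, ← DD_add_eR]
  gcongr
  exact eR_le_EN n

lemma DD_ne_top (hs : 0 < s) (hd : 1 ≤ d) (hsd : s < d) (n : ℕ) :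
    DD s ((n : ℝ≥0∞) • sig d) ≠ ⊤ :=
  ne_top_of_le_ne_top (II_ne_top hs hd hsd le_rfl) (DD_le_II _)

lemma Fr_le_DD (hs : 0 < s) (hd : 1 ≤ d) (hsd : s < d) (n : ℕ) :
    Fr s d n ≤ (DD s ((n : ℝ≥0∞) • sig d)).toReal := by
  have h1 := DD_ne_top hs hd hsd n
  have h2 := EN_ne_top hs hd hsd n
  have h := ENNReal.toReal_mono (ENNReal.add_ne_top.2 ⟨h1, h2⟩) (II_le_EN (s := s) (d := d) n)
  rw [ENNReal.toReal_add h1 h2, ENNReal.toReal_mul, ENNReal.toReal_pow, ENNReal.toReal_natCast] at h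
  rw [Fr, Er, Wr]
  linarith

lemma DD_toReal {N : ℕ} (hN : 1 ≤ N) : (DD s ((N : ℝ≥0∞) • sig d)).toReal =
    (N : ℝ) ^ (1 + s / d) * (dd s d N).toReal := by
  have hN0 : (0 : ℝ) < N := by exact_mod_cast hN
  rw [DD_eq_dd hN, ENNReal.toReal_mul, ENNReal.toReal_mul, ENNReal.toReal_ofReal (by positivity),
    ENNReal.toReal_natCast, Real.rpow_add hN0, Real.rpow_one]
  ring

lemma Fr_le (hs : 0 < s) (hd : 1 ≤ d) (hsd : s < d) {N : ℕ} (hN : 1 ≤ N) :
    Fr s d N ≤ Cr s d * (N : ℝ) ^ (1 + s / d) := by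
  refine (Fr_le_DD hs hd hsd N).trans ?_
  rw [DD_toReal hN, mul_comm]
  gcongr
  exact ENNReal.toReal_mono (CE_ne_top s d) (dd_le_CE hs hsd hN)

lemma Fr_step (hs : 0 < s) (hd : 1 ≤ d) (hsd : s < d) (m : ℕ) :
    Fr s d (m + 2) ≤ Fr s d (m + 1) + 2 * Cr s d * ((m + 2 : ℕ) : ℝ) ^ (s / d) := by
  have h1 := Er_remove hs hd hsd m
  have h2 := Fr_le hs hd hsd (N := m + 2) (by omega)
  have h3 := Wr_nonneg (s := s) (d := d)
  have hm : (0 : ℝ) < ((m + 2 : ℕ) : ℝ) := by positivity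
  rw [Real.rpow_add hm, Real.rpow_one] at h2
  set t := ((m + 2 : ℕ) : ℝ) ^ (s / d) with ht
  have hm2 : (0 : ℝ) < (m : ℝ) + 2 := by positivity
  -- multiply by m + 2
  have h4 : ((m : ℝ) + 2) * Fr s d (m + 2) ≤
      ((m : ℝ) + 2) * (Fr s d (m + 1) + 2 * Cr s d * t) := by
    have e1 : Er s d (m + 2) = ((m : ℝ) + 2) ^ 2 * Wr s d - Fr s d (m + 2) := by
      rw [Fr]; push_cast; ring
    have e2 : Er s d (m + 1) = ((m : ℝ) + 1) ^ 2 * Wr s d - Fr s d (m + 1) := by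
      rw [Fr]; push_cast; ring
    rw [e1, e2] at h1
    push_cast at h2
    nlinarith
  exact le_of_mul_le_mul_left h4 hm2

lemma Fr_add_le (hs : 0 < s) (hd : 1 ≤ d) (hsd : s < d) {N : ℕ} (hN : 1 ≤ N) (x : ℕ) :
    Fr s d (N + x) ≤ Fr s d N + 2 * Cr s d * x * ((N + x : ℕ) : ℝ) ^ (s / d) := by
  have hC := Cr_nonneg (s := s) (d := d)
  have hp : 0 ≤ s / d := by positivity
  induction x with
  | zero => simp
  | succ x ih =>
    obtain ⟨m, hm⟩ : ∃ m, N + x = m + 1 := ⟨N + x - 1, by omega⟩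
    have h1 := Fr_step hs hd hsd m
    have e1 : N + (x + 1) = m + 2 := by omega
    rw [e1]
    rw [hm] at ih
    have h2 : ((m + 1 : ℕ) : ℝ) ^ (s / d) ≤ ((m + 2 : ℕ) : ℝ) ^ (s / d) := by
      gcongr
      omega
    have h3 : 2 * Cr s d * x * ((m + 1 : ℕ) : ℝ) ^ (s / d) ≤
        2 * Cr s d * x * ((m + 2 : ℕ) : ℝ) ^ (s / d) := by gcongr
    push_cast at h1 h3 ih ⊢
    linarith

/-- The supporting line inequality. -/
lemma support (hs : 0 < s) (hd : 1 ≤ d) (hsd : s < d) : ∀ᶠ N : ℕ in atTop, ∀ M : ℕ,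
    Fr s d M ≤ Fr s d N + Wr s d * ((M : ℝ) - N) ^ 2 +
      4 * Cr s d ^ 2 / Wr s d * ((N : ℝ) ^ (s / d)) ^ 2 := by
  have hC := Cr_nonneg (s := s) (d := d)
  have hW := Wr_pos hs hd hsd
  have hd0 : (0 : ℝ) < d := by exact_mod_cast hd
  have hp0 : 0 < s / d := by positivity
  have hp1 : s / d < 1 := (div_lt_one hd0).2 hsd
  have h1 : ∀ᶠ N : ℕ in atTop, 4 * Cr s d / Wr s d ≤ (N : ℝ) ^ (1 - s / d) :=
    ((tendsto_rpow_atTop (by linarith : 0 < 1 - s / d)).comp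
      tendsto_natCast_atTop_atTop).eventually_ge_atTop _
  filter_upwards [h1, eventually_ge_atTop 1] with N hN hN1 M
  have hN0 : (0 : ℝ) < N := by exact_mod_cast hN1
  have herr : 0 ≤ 4 * Cr s d ^ 2 / Wr s d * ((N : ℝ) ^ (s / d)) ^ 2 := by positivity
  rcases le_or_gt M N with hMN | hMN
  · have h2 := Fr_mono hs hd hsd hMN
    have h3 : 0 ≤ Wr s d * ((M : ℝ) - N) ^ 2 := by positivity
    linarith
  · obtain ⟨x, rfl⟩ : ∃ x, M = N + x := ⟨M - N, by omega⟩
    have hx0 : (0 : ℝ) < x := by exact_mod_cast (by omega : 0 < x)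
    have e1 : ((N + x : ℕ) : ℝ) - N = x := by push_cast; ring
    rw [e1]
    rcases le_or_gt x N with hxN | hxN
    · have hxN' : (x : ℝ) ≤ N := by exact_mod_cast hxN
      have h2 := Fr_add_le hs hd hsd hN1 x
      have h3 : ((N + x : ℕ) : ℝ) ^ (s / d) ≤ 2 * (N : ℝ) ^ (s / d) := by
        calc ((N + x : ℕ) : ℝ) ^ (s / d) ≤ (2 * (N : ℝ)) ^ (s / d) := by
              gcongr
              push_cast
              linarith
          _ = 2 ^ (s / d) * (N : ℝ) ^ (s / d) := Real.mul_rpow (by norm_num) hN0.le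
          _ ≤ 2 ^ (1 : ℝ) * (N : ℝ) ^ (s / d) := by
              gcongr
              norm_num
          _ = _ := by rw [Real.rpow_one]
      set t := (N : ℝ) ^ (s / d) with ht
      have ht0 : 0 < t := by positivity
      have h4 : 2 * Cr s d * x * ((N + x : ℕ) : ℝ) ^ (s / d) ≤ 4 * Cr s d * x * t := by
        calc 2 * Cr s d * x * ((N + x : ℕ) : ℝ) ^ (s / d) ≤ 2 * Cr s d * x * (2 * t) := by gcongr
          _ = _ := by ring
      have h5 : 4 * Cr s d * x * t ≤ Wr s d * (x : ℝ) ^ 2 + 4 * Cr s d ^ 2 / Wr s d * t ^ 2 := by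
        have h6 : 0 ≤ (Wr s d * x - 2 * Cr s d * t) ^ 2 / Wr s d := by positivity
        have h7 : (Wr s d * x - 2 * Cr s d * t) ^ 2 / Wr s d =
            Wr s d * (x : ℝ) ^ 2 + 4 * Cr s d ^ 2 / Wr s d * t ^ 2 - 4 * Cr s d * x * t := by
          field_simp
          ring
        linarith
      linarith
    · have hxN' : (N : ℝ) ≤ x := by exact_mod_cast hxN.le
      have h2 := Fr_le hs hd hsd (N := N + x) (by omega)
      have h3 : ((N + x : ℕ) : ℝ) ^ (1 + s / d) ≤ 4 * (x : ℝ) ^ (1 + s / d) := by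
        calc ((N + x : ℕ) : ℝ) ^ (1 + s / d) ≤ (2 * (x : ℝ)) ^ (1 + s / d) := by
              gcongr
              push_cast
              linarith
          _ = 2 ^ (1 + s / d) * (x : ℝ) ^ (1 + s / d) := Real.mul_rpow (by norm_num) hx0.le
          _ ≤ 2 ^ (2 : ℝ) * (x : ℝ) ^ (1 + s / d) := by
              gcongr
              · norm_num
              · linarith
          _ = _ := by norm_num
      have h4 : (x : ℝ) ^ (1 + s / d) * (x : ℝ) ^ (1 - s / d) = (x : ℝ) ^ 2 := by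
        rw [← Real.rpow_add hx0, ← Real.rpow_natCast]
        congr 1
        push_cast
        ring
      have h5 : 4 * Cr s d / Wr s d ≤ (x : ℝ) ^ (1 - s / d) := by
        refine hN.trans ?_
        have : 0 ≤ 1 - s / d := by linarith
        gcongr
      have h6 : 4 * Cr s d ≤ Wr s d * (x : ℝ) ^ (1 - s / d) := by
        rw [div_le_iff₀ hW] at h5
        linarith
      have h7 : Cr s d * (4 * (x : ℝ) ^ (1 + s / d)) ≤ Wr s d * (x : ℝ) ^ 2 := by
        rw [← h4]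
        have h8 : 0 < (x : ℝ) ^ (1 + s / d) := by positivity
        nlinarith
      have h8 : Cr s d * ((N + x : ℕ) : ℝ) ^ (1 + s / d) ≤
          Cr s d * (4 * (x : ℝ) ^ (1 + s / d)) := by gcongr
      have h9 := Fr_nonneg hs hd hsd N
      linarith

/-- The error in the canonical comparison. -/
noncomputable def er (s : ℝ) (d N : ℕ) : ℝ :=
  4 * Cr s d ^ 2 / Wr s d * ((N : ℝ) ^ (s / d)) ^ 2

lemma er_nonneg (N : ℕ) : 0 ≤ er s d N := by
  have h1 := Wr_nonneg (s := s) (d := d)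
  unfold er
  positivity

lemma EN_eq (hs : 0 < s) (hd : 1 ≤ d) (hsd : s < d) (n : ℕ) :
    EN s d n = ENNReal.ofReal (Er s d n) := (ENNReal.ofReal_toReal (EN_ne_top hs hd hsd n)).symm

lemma WW_eq (hs : 0 < s) (hd : 1 ≤ d) (hsd : s < d) :
    WW s d = ENNReal.ofReal (Wr s d) := (ENNReal.ofReal_toReal (WW_ne_top hs hd hsd)).symm

lemma EN_le_eR (hs : 0 < s) (hd : 1 ≤ d) (hsd : s < d) : ∀ᶠ N : ℕ in atTop,
    EN s d N ≤ eR s ((N : ℝ≥0∞) • sig d) + ENNReal.ofReal (er s d N) := by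
  filter_upwards [support hs hd hsd] with N hN
  rw [eR, ENNReal.iInf_add]
  refine le_iInf fun ρ₂ => ?_
  have hW := Wr_nonneg (s := s) (d := d)
  have her := er_nonneg (s := s) (d := d) N
  have h1 := ρ₂.2 (fun p => KK s p.1 p.2) (fun _ => ENNReal.ofReal (2 * N * Wr s d)) (fun _ => 0)
    (EN s d N) (ENNReal.ofReal (2 * (N : ℝ) ^ 2 * Wr s d + er s d N)) (measurable_KK s d)
    measurable_const measurable_const ?_
  · simp only [lintegral_const, Measure.smul_apply, measure_univ, smul_eq_mul, mul_one,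
      zero_mul, add_zero] at h1
    have e1 : ENNReal.ofReal (2 * N * Wr s d) * (N : ℝ≥0∞) =
        ENNReal.ofReal (2 * (N : ℝ) ^ 2 * Wr s d) := by
      rw [← ENNReal.ofReal_natCast N, ← ENNReal.ofReal_mul (by positivity)]
      congr 1
      ring
    rw [e1, ENNReal.ofReal_add (by positivity) her] at h1
    have h2 : ENNReal.ofReal (2 * (N : ℝ) ^ 2 * Wr s d) + EN s d N ≤
        ENNReal.ofReal (2 * (N : ℝ) ^ 2 * Wr s d) +
          (∫⁻ p, KK s p.1 p.2 ∂ρ₂.1 + ENNReal.ofReal (er s d N)) := by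
      refine h1.trans (le_of_eq ?_)
      ring
    exact (ENNReal.add_le_add_iff_left ENNReal.ofReal_ne_top).1 h2
  · intro n x
    have h2 := EN_le (s := s) x
    have h3 : ∑ _ : Fin n, ENNReal.ofReal (2 * N * Wr s d) + EN s d N ≤
        EN s d n + ENNReal.ofReal (2 * (N : ℝ) ^ 2 * Wr s d + er s d N) := by
      rw [EN_eq hs hd hsd N, EN_eq hs hd hsd n, Finset.sum_const, Finset.card_univ,
        Fintype.card_fin, nsmul_eq_mul, ← ENNReal.ofReal_natCast n,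
        ← ENNReal.ofReal_mul (by positivity), ← ENNReal.ofReal_add (by positivity) (Er_nonneg N),
        ← ENNReal.ofReal_add (Er_nonneg n) (by positivity)]
      apply ENNReal.ofReal_le_ofReal
      have h4 := hN n
      rw [Fr, Fr] at h4
      rw [er]
      nlinarith
    refine h3.trans ?_
    simp only [Finset.sum_const_zero, add_zero]
    exact add_le_add h2 le_rfl

lemma DD_le_Fr (hs : 0 < s) (hd : 1 ≤ d) (hsd : s < d) : ∀ᶠ N : ℕ in atTop,
    (DD s ((N : ℝ≥0∞) • sig d)).toReal - er s d N ≤ Fr s d N := by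
  filter_upwards [EN_le_eR hs hd hsd] with N hN
  have h1 := DD_ne_top hs hd hsd N
  have hII : II s ((N : ℝ≥0∞) • sig d) ((N : ℝ≥0∞) • sig d) ≠ ⊤ := II_ne_top hs hd hsd le_rfl
  have h2 : DD s ((N : ℝ≥0∞) • sig d) + EN s d N ≤
      II s ((N : ℝ≥0∞) • sig d) ((N : ℝ≥0∞) • sig d) + ENNReal.ofReal (er s d N) := by
    rw [← DD_add_eR, add_assoc]
    gcongr
  have h3 := ENNReal.toReal_mono (ENNReal.add_ne_top.2 ⟨hII, ENNReal.ofReal_ne_top⟩) h2
  rw [ENNReal.toReal_add h1 (EN_ne_top hs hd hsd N), ENNReal.toReal_add hII ENNReal.ofReal_ne_top,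
    ENNReal.toReal_ofReal (er_nonneg N), II_Nsig, ENNReal.toReal_mul, ENNReal.toReal_pow,
    ENNReal.toReal_natCast] at h3
  rw [Fr, Er, Wr]
  linarith

/-- The normalised deficit converges. -/
theorem tendsto_Fr (hs : 0 < s) (hd : 1 ≤ d) (hsd : s < d) :
    ∃ D : ℝ, Tendsto (fun N : ℕ => Fr s d N / (N : ℝ) ^ (1 + s / d)) atTop (𝓝 D) := by
  obtain ⟨D, hD, hD2⟩ := tendsto_dd hs hd hsd
  have h1 : Tendsto (fun N => (dd s d N).toReal) atTop (𝓝 D.toReal) :=
    (ENNReal.tendsto_toReal hD).comp hD2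
  have hd0 : (0 : ℝ) < d := by exact_mod_cast hd
  have hp0 : 0 < s / d := by positivity
  have hp1 : s / d < 1 := (div_lt_one hd0).2 hsd
  refine ⟨D.toReal, ?_⟩
  have h2 : Tendsto (fun N : ℕ => (dd s d N).toReal - 4 * Cr s d ^ 2 / Wr s d *
      (N : ℝ) ^ (-(1 - s / d))) atTop (𝓝 D.toReal) := by
    have h3 : Tendsto (fun N : ℕ => (N : ℝ) ^ (-(1 - s / d))) atTop (𝓝 0) :=
      (tendsto_rpow_neg_atTop (by linarith : 0 < 1 - s / d)).comp tendsto_natCast_atTop_atTop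
    have := h1.sub (h3.const_mul (4 * Cr s d ^ 2 / Wr s d))
    simpa using this
  refine tendsto_of_tendsto_of_tendsto_of_le_of_le' h2 h1 ?_ ?_
  · filter_upwards [DD_le_Fr hs hd hsd, eventually_ge_atTop 1] with N hN hN1
    have hN0 : (0 : ℝ) < N := by exact_mod_cast hN1
    rw [DD_toReal hN1] at hN
    rw [le_div_iff₀ (by positivity)]
    refine le_trans (le_of_eq ?_) hN
    rw [er]
    have e1 : (N : ℝ) ^ (-(1 - s / d)) * (N : ℝ) ^ (1 + s / d) = ((N : ℝ) ^ (s / d)) ^ 2 := by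
      rw [← Real.rpow_add hN0, ← Real.rpow_natCast, ← Real.rpow_mul hN0.le]
      congr 1
      push_cast
      ring
    calc ((dd s d N).toReal - 4 * Cr s d ^ 2 / Wr s d * (N : ℝ) ^ (-(1 - s / d))) *
          (N : ℝ) ^ (1 + s / d)
        = (N : ℝ) ^ (1 + s / d) * (dd s d N).toReal - 4 * Cr s d ^ 2 / Wr s d *
          ((N : ℝ) ^ (-(1 - s / d)) * (N : ℝ) ^ (1 + s / d)) := by ring
      _ = _ := by rw [e1]
  · filter_upwards [eventually_ge_atTop 1] with N hN1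
    have hN0 : (0 : ℝ) < N := by exact_mod_cast hN1
    have h3 := Fr_le_DD hs hd hsd N
    rw [DD_toReal hN1] at h3
    rw [div_le_iff₀ (by positivity), mul_comm]
    exact h3

end

end Pool.Agent.Lib.MP_1fcdcf_an
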