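import Mathlib
import Pool.Agent.Lib.MP_1fcdcf_an.Canon2

open MeasureTheory Set Metric Filter
open scoped ENNReal NNReal symmDiff RealInnerProductSpace Topology

namespace Pool.Agent.Lib.MP_1fcdcf_an

section

variable {s : ℝ} {d : ℕ}

/-- The real energy of a configuration. -/
noncomputable def rE (s : ℝ) {d n : ℕ} (x : Fin n → SS d) : ℝ :=
  ∑ i, ∑ j ∈ Finset.univ.erase i, ‖((x i : EE d) - (x j : EE d))‖ ^ (-s)

lemma rE_nonneg {n : ℕ} (x : Fin n → SS d) : 0 ≤ rE s x :=
  Finset.sum_nonneg fun i _ => Finset.sum_nonneg fun j _ => by positivity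

lemma KK_eq_norm {x y : SS d} (h : x ≠ y) :
    KK s x y = ENNReal.ofReal (‖((x : EE d) - (y : EE d))‖ ^ (-s)) := by
  rw [KK_of_ne h, Subtype.dist_eq, dist_eq_norm]

lemma cE_eq {n : ℕ} {x : Fin n → SS d} (hx : Function.Injective x) :
    cE s x = ENNReal.ofReal (rE s x) := by
  rw [cE, pairSum, rE, ENNReal.ofReal_sum_of_nonneg fun i _ =>
    Finset.sum_nonneg fun j _ => by positivity]
  refine Finset.sum_congr rfl fun i _ => ?_
  rw [ENNReal.ofReal_sum_of_nonneg fun j _ => by positivity]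
  rw [← Finset.add_sum_erase _ _ (Finset.mem_univ i), if_pos rfl, zero_add]
  refine Finset.sum_congr rfl fun j hj => ?_
  have hij : i ≠ j := (Finset.ne_of_mem_erase hj).symm
  rw [if_neg hij, KK_eq_norm (fun h => hij (hx h))]

lemma injective_of_cE (hs : 0 < s) {n : ℕ} {x : Fin n → SS d} (hx : cE s x ≠ ⊤) :
    Function.Injective x := by
  intro i j hij
  by_contra hne
  apply hx
  rw [cE, pairSum, eq_top_iff]
  calc ⊤ = KK s (x i) (x j) := by rw [hij, KK_self hs]
    _ = (if i = j then 0 else KK s (x i) (x j)) := by rw [if_neg hne]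
    _ ≤ ∑ j, if i = j then 0 else KK s (x i) (x j) :=
        Finset.single_le_sum (f := fun j => if i = j then (0 : ℝ≥0∞) else KK s (x i) (x j))
          (fun _ _ => zero_le) (Finset.mem_univ j)
    _ ≤ _ := Finset.single_le_sum
        (f := fun i => ∑ j, if i = j then (0 : ℝ≥0∞) else KK s (x i) (x j))
          (fun _ _ => zero_le) (Finset.mem_univ i)

lemma sInf_eq (hs : 0 < s) (hd : 1 ≤ d) (hsd : s < d) (n : ℕ) :
    sInf {E : ℝ | ∃ x : Fin n → SS d, Function.Injective x ∧ E = rE s x} = Er s d n := by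
  have hbdd : BddBelow {E : ℝ | ∃ x : Fin n → SS d, Function.Injective x ∧ E = rE s x} :=
    ⟨0, by rintro _ ⟨x, _, rfl⟩; exact rE_nonneg x⟩
  have hex : ∀ η : ℝ, 0 < η → ∃ x : Fin n → SS d, Function.Injective x ∧ rE s x < Er s d n + η := by
    intro η hη
    have h1 : EN s d n < EN s d n + ENNReal.ofReal η :=
      ENNReal.lt_add_right (EN_ne_top hs hd hsd n) (by simpa using hη)
    obtain ⟨x, hx⟩ := iInf_lt_iff.1 h1
    have hx2 : cE s x ≠ ⊤ := (hx.trans_le le_top).ne
    have hinj := injective_of_cE hs hx2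
    refine ⟨x, hinj, ?_⟩
    rw [cE_eq hinj, EN_eq hs hd hsd, ← ENNReal.ofReal_add (Er_nonneg n) hη.le,
      ENNReal.ofReal_lt_ofReal_iff_of_nonneg (rE_nonneg x)] at hx
    exact hx
  apply le_antisymm
  · refine le_of_forall_pos_le_add fun η hη => ?_
    obtain ⟨x, hx1, hx2⟩ := hex η hη
    exact (csInf_le hbdd ⟨x, hx1, rfl⟩).trans hx2.le
  · obtain ⟨x₀, hx₀, _⟩ := hex 1 one_pos
    refine le_csInf ⟨_, x₀, hx₀, rfl⟩ ?_
    rintro _ ⟨x, hx, rfl⟩
    have h1 := EN_le (s := s) x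
    rw [cE_eq hx, EN_eq hs hd hsd] at h1
    exact (ENNReal.ofReal_le_ofReal_iff (rE_nonneg x)).1 h1

lemma integral_eq (hd : 1 ≤ d) (x : SS d) :
    ∫ y : SS d, ‖((x : EE d) - (y : EE d))‖ ^ (-s) ∂(sig d) = Wr s d := by
  have hm : Measurable fun y : SS d => ‖((x : EE d) - (y : EE d))‖ ^ (-s) := by
    apply Measurable.pow_const
    apply Continuous.measurable
    fun_prop
  rw [integral_eq_lintegral_of_nonneg_ae (Eventually.of_forall fun y => by positivity)
    hm.aestronglyMeasurable, Wr, ← lintegral_KK_sig x]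
  congr 1
  refine lintegral_congr_ae ?_
  have h1 : ∀ᵐ y : SS d ∂(sig d), y ≠ x := by
    rw [ae_iff]
    simp only [ne_eq, not_not]
    exact sig_singleton hd x
  filter_upwards [h1] with y hy
  rw [KK_eq_norm hy.symm]

theorem main (hs : 0 < s) (hd : 1 ≤ d) (hsd : s < d) :
    ∃ C : ℝ, Filter.Tendsto
      (fun N : ℕ =>
        (sInf {E : ℝ | ∃ x : Fin N → SS d, Function.Injective x ∧ E = rE s x}
         - (N : ℝ) ^ 2 *
            ∫ x : SS d, ∫ y : SS d, ‖((x : EE d) - (y : EE d))‖ ^ (-s) ∂(sig d) ∂(sig d))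
        / (N : ℝ) ^ (1 + s / (d : ℝ)))
      Filter.atTop (nhds C) := by
  obtain ⟨D, hD⟩ := tendsto_Fr hs hd hsd
  refine ⟨-D, ?_⟩
  refine hD.neg.congr fun N => ?_
  rw [sInf_eq hs hd hsd, Fr]
  simp only [integral_eq hd, integral_const, probReal_univ, one_smul]
  ring

end

end Pool.Agent.Lib.MP_1fcdcf_an
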